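import Pool.Agent.Helper77.Short

set_option autoImplicit false

/-!
# The concrete functions used by the algorithm, and their specification
-/

namespace Pool.Agent.Helper77

open Net

/-! ### Letters -/

/-- Processing times of the letter `l`: `0,1,2` are unit dummies on the machines 1, 2, 3, and
`m + 3` is the job with code `m`. -/
def la (l : ℕ) : ℕ := if l = 0 then 1 else if l < 3 then 0 else (l - 3).unpair.1
def lb (l : ℕ) : ℕ := if l = 1 then 1 else if l < 3 then 0 else (l - 3).unpair.2.unpair.1
def lc (l : ℕ) : ℕ := if l = 2 then 1 else if l < 3 then 0 else (l - 3).unpair.2.unpair.2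

/-- Label of a letter: the job code plus one (for jobs), and one `0` for every time unit of
machine 1. -/
def labl (l : ℕ) : List ℕ :=
  if l = 0 then [0] else if l < 3 then [] else
    (l - 2) :: (List.range ((l - 3).unpair.1)).map (fun _ => 0)

def FNet : Net ℕ := ⟨la, lb, lb, lc⟩

def flab (l : ℕ) : Multiset ℕ := (labl l : Multiset ℕ)

theorem labOK (M : ℕ) : LabOK FNet flab (M + 1) M := by
  intro l hl
  have hm : 3 ≤ l → l - 2 < M := by
    intro h
    apply hl
    have h1 : ¬ l = 0 := by omega
    have h2 : ¬ l < 3 := by omega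
    simp [flab, labl, h1, h2]
  have ha : (l - 3).unpair.1 ≤ l - 3 := Nat.unpair_left_le _
  have hb : (l - 3).unpair.2.unpair.1 ≤ l - 3 :=
    (Nat.unpair_left_le _).trans (Nat.unpair_right_le _)
  have hc : (l - 3).unpair.2.unpair.2 ≤ l - 3 :=
    (Nat.unpair_right_le _).trans (Nat.unpair_right_le _)
  have h0 : la l ≤ M + 1 ∧ lb l ≤ M + 1 ∧ lc l ≤ M + 1 := by
    unfold la lb lc
    by_cases h3 : l < 3
    · refine ⟨?_, ?_, ?_⟩ <;> split_ifs <;> omega
    · have := hm (by omega)
      refine ⟨?_, ?_, ?_⟩ <;> split_ifs <;> omega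
  refine ⟨⟨h0.1, h0.2.1, h0.2.1, h0.2.2⟩, ?_⟩
  unfold flab labl
  by_cases h3 : l < 3
  · split_ifs <;> simp
  · have := hm (by omega)
    split_ifs
    · simp
    · simp only [Multiset.coe_card, List.length_cons, List.length_map, List.length_range]
      omega

/-! ### Words over a finite alphabet -/

/-- All words of length at most `n` over the alphabet `A`. -/
def words {β : Type*} (A : List β) : ℕ → List (List β)
  | 0 => [[]]
  | n + 1 => [] :: A.flatMap (fun a => (words A n).map (fun w => a :: w))

theorem mem_words {β : Type*} (A : List β) (n : ℕ) (w : List β) :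
    w ∈ words A n ↔ w.length ≤ n ∧ ∀ a ∈ w, a ∈ A := by
  induction n generalizing w with
  | zero =>
    simp only [words, List.mem_singleton]
    constructor
    · rintro rfl; simp
    · rintro ⟨h, _⟩; exact List.length_eq_zero_iff.1 (Nat.le_zero.1 h)
  | succ n ih =>
    simp only [words, List.mem_cons, List.mem_flatMap, List.mem_map]
    constructor
    · rintro (rfl | ⟨a, ha, v, hv, rfl⟩)
      · simp
      · rw [ih] at hv
        refine ⟨by simp [hv.1], ?_⟩
        intro b hb
        rcases List.mem_cons.1 hb with rfl | hb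
        · exact ha
        · exact hv.2 b hb
    · rintro ⟨h1, h2⟩
      rcases w with _ | ⟨a, v⟩
      · exact Or.inl rfl
      · refine Or.inr ⟨a, h2 a (by simp), v, ?_, rfl⟩
        rw [ih]
        exact ⟨by simpa using h1, fun b hb => h2 b (by simp [hb])⟩

/-- All subsets of `{0,…,M-1}`, as lists. -/
def subs : ℕ → List (List ℕ)
  | 0 => [[]]
  | m + 1 => subs m ++ (subs m).map (fun P => m :: P)

theorem subs_good (M : ℕ) : ∀ P ∈ subs M, GoodD M (P : Multiset ℕ) := by
  induction M with
  | zero =>
    intro P hP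
    simp only [subs, List.mem_singleton] at hP
    subst hP
    exact ⟨by simp, by simp⟩
  | succ m ih =>
    intro P hP
    simp only [subs, List.mem_append, List.mem_map] at hP
    rcases hP with hP | ⟨Q, hQ, rfl⟩
    · obtain ⟨h1, h2⟩ := ih P hP
      exact ⟨h1, fun i hi => (h2 i hi).trans (Nat.lt_succ_self m)⟩
    · obtain ⟨h1, h2⟩ := ih Q hQ
      refine ⟨?_, ?_⟩
      · rw [Multiset.coe_nodup, List.nodup_cons]
        refine ⟨fun hm => ?_, by simpa using h1⟩
        have := h2 m (by simpa using hm)
        omega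
      · intro i hi
        simp only [Multiset.mem_coe, List.mem_cons] at hi
        rcases hi with rfl | hi
        · omega
        · have := h2 i (by simpa using hi)
          omega

theorem exists_subs (M : ℕ) (P : Multiset ℕ) (hP : GoodD M P) :
    ∃ Q ∈ subs M, (Q : Multiset ℕ) = P := by
  induction M generalizing P with
  | zero =>
    refine ⟨[], by simp [subs], ?_⟩
    symm
    rw [Multiset.coe_nil, Multiset.eq_zero_iff_forall_notMem]
    intro i hi
    have := hP.2 i hi
    omega
  | succ m ih =>
    by_cases hm : m ∈ P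
    · obtain ⟨P', rfl⟩ := Multiset.exists_cons_of_mem hm
      have hnd := Multiset.nodup_cons.1 hP.1
      obtain ⟨Q, hQ, rfl⟩ := ih P' ⟨hnd.2, fun i hi => by
        have h1 := hP.2 i (Multiset.mem_cons_of_mem hi)
        have h2 : i ≠ m := by rintro rfl; exact hnd.1 hi
        omega⟩
      refine ⟨m :: Q, ?_, by simp⟩
      simp only [subs, List.mem_append, List.mem_map]
      exact Or.inr ⟨Q, hQ, rfl⟩
    · obtain ⟨Q, hQ, rfl⟩ := ih P ⟨hP.1, fun i hi => by
        have h1 := hP.2 i hi
        have h2 : i ≠ m := by rintro rfl; exact hm hi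
        omega⟩
      refine ⟨Q, ?_, rfl⟩
      simp only [subs, List.mem_append]
      exact Or.inl hQ

/-! ### The brute force decision procedure -/

/-- One step of a run, on natural numbers; the third component is an error flag. -/
def fstep (s : ℕ × ℕ × ℕ) (l : ℕ) : ℕ × ℕ × ℕ :=
  if la l ≤ s.1 ∧ lb l ≤ s.2.1 ∧ s.2.2 = 0 then (s.1 - la l + lb l, s.2.1 - lb l + lc l, 0)
  else (0, 0, 1)

theorem foldl_fstep_err (w : List ℕ) : (w.foldl fstep (0, 0, 1)).2.2 = 1 := by
  induction w with
  | nil => rfl
  | cons l w ih =>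
    have : fstep (0, 0, 1) l = (0, 0, 1) := by simp [fstep]
    rw [List.foldl_cons, this, ih]

theorem foldl_fstep (w : List ℕ) (x y : ℕ) :
    (w.foldl fstep (x, y, 0) = (0, 0, 0)) ↔
      (FNet.Run ((x : ℤ), (y : ℤ)) w ∧ w.foldl FNet.dl ((x : ℤ), (y : ℤ)) = (0, 0)) := by
  induction w generalizing x y with
  | nil => simp
  | cons l w ih =>
    rw [List.foldl_cons, List.foldl_cons]
    by_cases h : la l ≤ x ∧ lb l ≤ y
    · have h1 : fstep (x, y, 0) l = (x - la l + lb l, y - lb l + lc l, 0) := by
        simp [fstep, h]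
      have h2 : FNet.dl ((x : ℤ), (y : ℤ)) l =
          (((x - la l + lb l : ℕ) : ℤ), ((y - lb l + lc l : ℕ) : ℤ)) := by
        simp only [dl, e1, e2, FNet]
        push_cast [h.1, h.2]
        ext <;> simp <;> ring
      rw [h1, ih, h2, Run, Run, path_cons, h2]
      constructor
      · rintro ⟨h3, h4⟩
        refine ⟨⟨⟨?_, ?_⟩, h3⟩, h4⟩
        · simp only [FNet]; exact_mod_cast h.1
        · simp only [FNet]; exact_mod_cast h.2
      · rintro ⟨⟨_, h3⟩, h4⟩; exact ⟨h3, h4⟩
    · have h1 : fstep (x, y, 0) l = (0, 0, 1) := by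
        simp only [fstep]
        rw [if_neg]; tauto
      rw [h1]
      constructor
      · intro h2
        have := foldl_fstep_err w
        rw [h2] at this
        simp at this
      · rintro ⟨⟨⟨h2, h3⟩, _⟩, _⟩
        exfalso
        apply h
        simp only [FNet] at h2 h3
        exact ⟨by exact_mod_cast h2, by exact_mod_cast h3⟩

/-- Brute force decision of feasibility. -/
def sdec (M : ℕ) (x : List ℕ) : Prop :=
  ∃ w ∈ words (List.range (M + 2)) (3 * x.length), w.foldl fstep (0, 0, 0) = (0, 0, 0) ∧
    ∀ i ∈ List.range M, (w.flatMap labl).count i = x.count i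

instance (M : ℕ) (x : List ℕ) : Decidable (sdec M x) := by unfold sdec; infer_instance

theorem psi_flab (w : List ℕ) : psi flab w = ((w.flatMap labl : List ℕ) : Multiset ℕ) := by
  induction w with
  | nil => rfl
  | cons l w ih => rw [psi_cons, ih, List.flatMap_cons, ← Multiset.coe_add]; rfl

theorem labl_lt {M l : ℕ} (hM : 1 ≤ M) (hl : l < M + 2) : ∀ i ∈ labl l, i < M := by
  intro i hi
  unfold labl at hi
  split_ifs at hi
  · simp at hi; omega
  · simp at hi
  · simp only [List.mem_cons, List.mem_map, List.mem_range] at hi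
    rcases hi with rfl | ⟨_, _, rfl⟩ <;> omega

theorem lt_of_labl {M l : ℕ} (hM : 1 ≤ M) (h : ∀ i ∈ labl l, i < M) : l < M + 2 := by
  by_cases h3 : l < 3
  · omega
  · have h1 : ¬ l = 0 := by omega
    have := h (l - 2) (by simp [labl, h1, h3])
    omega

theorem sdec_iff {M : ℕ} (hM : 1 ≤ M) {x : List ℕ} (hx : ∀ i ∈ x, i < M) :
    sdec M x ↔ Feas FNet flab (x : Multiset ℕ) := by
  constructor
  · rintro ⟨w, hw, hrun, hcount⟩
    rw [mem_words] at hw
    refine ⟨w, (foldl_fstep w 0 0).1 hrun, ?_⟩
    rw [psi_flab]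
    rw [Multiset.coe_eq_coe, List.perm_iff_count]
    intro i
    by_cases hi : i < M
    · exact hcount i (List.mem_range.2 hi)
    · rw [List.count_eq_zero_of_not_mem, List.count_eq_zero_of_not_mem]
      · intro h; exact hi (hx i h)
      · intro h
        rw [List.mem_flatMap] at h
        obtain ⟨l, hl, hil⟩ := h
        exact hi (labl_lt hM (List.mem_range.1 (hw.2 l hl)) i hil)
  · rintro ⟨w, ⟨hrun, hend⟩, hpsi⟩
    rw [psi_flab, Multiset.coe_eq_coe] at hpsi
    refine ⟨w, ?_, (foldl_fstep w 0 0).2 ⟨hrun, hend⟩, fun i _ => hpsi.count_eq i⟩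
    rw [mem_words]
    constructor
    · -- length bound
      have h1 : (w.flatMap labl).length = x.length := hpsi.length_eq
      rw [foldl_dl] at hend
      have h2 := congrArg Prod.fst hend
      have h3 := congrArg Prod.snd hend
      simp only [zero_add] at h2 h3
      have key : ∀ w : List ℕ, ∃ A B C K : ℕ, lsum FNet.e1 w = B - A ∧ lsum FNet.e2 w = C - B ∧
          (w.flatMap labl).length = K ∧ w.length ≤ K + B + C ∧ A ≤ K := by
        intro w
        induction w with
        | nil => exact ⟨0, 0, 0, 0, by simp, by simp, by simp, by simp, by simp⟩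
        | cons l w ih =>
          obtain ⟨A, B, C, K, h1, h2, h3, h4, h5⟩ := ih
          refine ⟨A + la l, B + lb l, C + lc l, K + (labl l).length, ?_, ?_, ?_, ?_, ?_⟩
          · rw [lsum_cons, h1]; simp only [e1, FNet]; push_cast; ring
          · rw [lsum_cons, h2]; simp only [e2, FNet]; push_cast; ring
          · rw [List.flatMap_cons, List.length_append, h3]; ring
          · have : 1 ≤ (labl l).length + lb l + lc l := by
              unfold labl lb lc
              by_cases h6 : l = 0
              · simp [h6]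
              · by_cases h7 : l = 1
                · simp [h7]
                · by_cases h8 : l = 2
                  · simp [h8]
                  · have h9 : ¬ l < 3 := by omega
                    simp [h6, h9]; omega
            rw [List.length_cons]; omega
          · have : la l ≤ (labl l).length := by
              unfold labl la
              by_cases h6 : l = 0
              · simp [h6]
              · by_cases h7 : l < 3
                · simp [h6, h7]
                · simp [h6, h7]
            omega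
      obtain ⟨A, B, C, K, h4, h5, h6, h7, h8⟩ := key w
      rw [h4] at h2
      rw [h5] at h3
      omega
    · intro l hl
      rw [List.mem_range]
      apply lt_of_labl hM
      intro i hi
      apply hx
      rw [← hpsi.mem_iff, List.mem_flatMap]
      exact ⟨l, hl, hi⟩

/-! ### Reduction to short representatives -/

/-- Read a list of digits. -/
def lrun (h : List ℕ) (p : List (List ℕ)) : List ℕ := p.foldl (fun h P => h ++ (h ++ P)) h

theorem coe_lrun (h : List ℕ) (p : List (List ℕ)) :
    ((lrun h p : List ℕ) : Multiset ℕ) = mrun (h : Multiset ℕ) (p.map Multiset.ofList) := by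
  induction p generalizing h with
  | nil => rfl
  | cons P p ih =>
    have : lrun h (P :: p) = lrun (h ++ (h ++ P)) p := rfl
    rw [this, ih, List.map_cons, mrun_cons]
    congr 1
    rw [← Multiset.coe_add, ← Multiset.coe_add, add_assoc]

/-- The number of residual classes. -/
def NN (M : ℕ) : ℕ := cN (M + 1) M

/-- Test of equivalence. -/
def eqvTest (M : ℕ) (h1 h2 : List ℕ) : Prop :=
  ∀ p ∈ words (subs M) (NN M * NN M), (sdec M (lrun h1 p) ↔ sdec M (lrun h2 p))

instance (M : ℕ) (h1 h2 : List ℕ) : Decidable (eqvTest M h1 h2) := by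
  unfold eqvTest; infer_instance

def cands (M : ℕ) : List (List ℕ) := (words (subs M) (NN M)).map (fun p => lrun [] p)

/-- The reduction function. -/
def red (M : ℕ) (v : List ℕ) : List ℕ :=
  (((cands M).filter (fun h => decide (eqvTest M h v))).head?).getD []

abbrev EqvF (M : ℕ) (h1 h2 : Multiset ℕ) : Prop := Eqv FNet flab M h1 h2

theorem good_of_subs {M : ℕ} {p : List (List ℕ)} (hp : ∀ P ∈ p, P ∈ subs M) :
    Good M (p.map Multiset.ofList) := by
  intro P hP
  rw [List.mem_map] at hP
  obtain ⟨Q, hQ, rfl⟩ := hP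
  exact subs_good M Q (hp Q hQ)

theorem exists_subs_word {M : ℕ} (q : List (Multiset ℕ)) (hq : Good M q) :
    ∃ p : List (List ℕ), (∀ P ∈ p, P ∈ subs M) ∧ p.map Multiset.ofList = q := by
  induction q with
  | nil => exact ⟨[], by simp, rfl⟩
  | cons Q q ih =>
    obtain ⟨p, hp, hpq⟩ := ih (fun P hP => hq P (by simp [hP]))
    obtain ⟨P, hP, hPQ⟩ := exists_subs M Q (hq Q (by simp))
    refine ⟨P :: p, ?_, by rw [List.map_cons, hpq]; congr 1⟩
    intro P' hP'
    rcases List.mem_cons.1 hP' with rfl | hP'
    · exact hP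
    · exact hp P' hP'

theorem lrun_lt {M : ℕ} {h : List ℕ} (hh : ∀ i ∈ h, i < M) {p : List (List ℕ)}
    (hp : ∀ P ∈ p, P ∈ subs M) : ∀ i ∈ lrun h p, i < M := by
  intro i hi
  have h1 : i ∈ ((lrun h p : List ℕ) : Multiset ℕ) := by simpa using hi
  rw [coe_lrun] at h1
  exact mrun_lt (by simpa using hh) (good_of_subs hp) i h1

theorem eqvTest_iff {M : ℕ} (hM : 1 ≤ M) {h1 h2 : List ℕ} (hh1 : ∀ i ∈ h1, i < M)
    (hh2 : ∀ i ∈ h2, i < M) :
    eqvTest M h1 h2 ↔ EqvF M (h1 : Multiset ℕ) (h2 : Multiset ℕ) := by
  constructor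
  · intro h
    apply eqv_of_short (k := M + 1) (by omega) (labOK M) (by simpa using hh1) (by simpa using hh2)
    intro p hp hlen
    obtain ⟨q, hq, rfl⟩ := exists_subs_word p hp
    have h3 := h q (by
      rw [mem_words]; exact ⟨by simpa [NN] using hlen, hq⟩)
    rw [sdec_iff hM (lrun_lt hh1 hq), sdec_iff hM (lrun_lt hh2 hq), coe_lrun, coe_lrun] at h3
    exact h3
  · intro h p hp
    rw [mem_words] at hp
    rw [sdec_iff hM (lrun_lt hh1 hp.2), sdec_iff hM (lrun_lt hh2 hp.2), coe_lrun, coe_lrun]
    exact h _ (good_of_subs hp.2)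

/-- Specification of the reduction function. -/
theorem red_spec {M : ℕ} (hM : 1 ≤ M) {v : List ℕ} (hv : ∀ i ∈ v, i < M)
    (hreach : ∃ q, Good M q ∧ EqvF M (v : Multiset ℕ) (mrun 0 q)) :
    red M v ∈ cands M ∧ EqvF M (red M v : Multiset ℕ) (v : Multiset ℕ) := by
  classical
  obtain ⟨q, hq, hvq⟩ := hreach
  obtain ⟨q', hq', hlen, he⟩ := short_rep (N := FNet) (lab := flab) (k := M + 1) (by omega)
    (labOK M) q.length q rfl hq
  obtain ⟨p, hp, rfl⟩ := exists_subs_word q' hq'
  have hcand : lrun [] p ∈ cands M := by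
    unfold cands
    rw [List.mem_map]
    refine ⟨p, ?_, rfl⟩
    rw [mem_words]
    exact ⟨by simpa [NN] using hlen, hp⟩
  have hcands_lt : ∀ h ∈ cands M, ∀ i ∈ h, i < M := by
    intro h hh
    unfold cands at hh
    rw [List.mem_map] at hh
    obtain ⟨p', hp', rfl⟩ := hh
    rw [mem_words] at hp'
    exact lrun_lt (by simp) hp'.2
  have htest : eqvTest M (lrun [] p) v := by
    rw [eqvTest_iff hM (hcands_lt _ hcand) hv, coe_lrun]
    exact he.trans hvq.symm
  have hmem : lrun [] p ∈ (cands M).filter (fun h => decide (eqvTest M h v)) := by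
    rw [List.mem_filter]
    exact ⟨hcand, by simpa using htest⟩
  have hne : (cands M).filter (fun h => decide (eqvTest M h v)) ≠ [] := List.ne_nil_of_mem hmem
  obtain ⟨h0, t, hht⟩ := List.exists_cons_of_ne_nil hne
  have hred : red M v = h0 := by
    unfold red; rw [hht]; rfl
  have hh0 : h0 ∈ (cands M).filter (fun h => decide (eqvTest M h v)) := by rw [hht]; simp
  rw [List.mem_filter] at hh0
  rw [hred]
  refine ⟨hh0.1, ?_⟩
  rw [← eqvTest_iff hM (hcands_lt _ hh0.1) hv]
  simpa using hh0.2

theorem cands_lt {M : ℕ} {h : List ℕ} (hh : h ∈ cands M) : ∀ i ∈ h, i < M := by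
  unfold cands at hh
  rw [List.mem_map] at hh
  obtain ⟨p', hp', rfl⟩ := hh
  rw [mem_words] at hp'
  exact lrun_lt (by simp) hp'.2

theorem nil_mem_cands (M : ℕ) : ([] : List ℕ) ∈ cands M := by
  unfold cands
  rw [List.mem_map]
  exact ⟨[], by rw [mem_words]; simp, rfl⟩

end Pool.Agent.Helper77
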