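import Pool.Agent.Helper77.Algo

set_option autoImplicit false

/-!
# Three-machine flow shop schedules and closed runs
-/

namespace Pool.Agent.Helper77

open Net

/-- Code of a job. -/
def jc (f : Fin 3 → ℕ) : ℕ := Nat.pair (f 0) (Nat.pair (f 1) (f 2))

/-- The list describing an instance: `T` zeros and the job codes plus one. -/
def inst (n : ℕ) (p : Fin n → Fin 3 → ℕ) (T : ℕ) : List ℕ :=
  List.replicate T 0 ++ List.ofFn (fun j => jc (p j) + 1)

/-- Feasible schedules, exactly as in the frozen statement. -/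
def IsSched (n : ℕ) (p : Fin n → Fin 3 → ℕ) (T : ℕ) (s : Fin n → Fin 3 → ℕ) : Prop :=
  (∀ j, s j 0 + p j 0 ≤ s j 1 ∧ s j 1 + p j 1 ≤ s j 2) ∧
  (∀ (i : Fin 3) (j j' : Fin n), j ≠ j' →
      s j i + p j i ≤ s j' i ∨ s j' i + p j' i ≤ s j i) ∧
  (∀ j, s j 2 + p j 2 ≤ T)

/-- The letter of a job. -/
def jl (f : Fin 3 → ℕ) : ℕ := jc f + 3

theorem la_jl (f : Fin 3 → ℕ) : la (jl f) = f 0 := by
  unfold la jl jc
  have h1 : ¬ (Nat.pair (f 0) (Nat.pair (f 1) (f 2)) + 3 = 0) := by omega
  have h2 : ¬ (Nat.pair (f 0) (Nat.pair (f 1) (f 2)) + 3 < 3) := by omega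
  simp [h2]

theorem lb_jl (f : Fin 3 → ℕ) : lb (jl f) = f 1 := by
  unfold lb jl jc
  have h1 : ¬ (Nat.pair (f 0) (Nat.pair (f 1) (f 2)) + 3 = 1) := by omega
  have h2 : ¬ (Nat.pair (f 0) (Nat.pair (f 1) (f 2)) + 3 < 3) := by omega
  simp [h2]

theorem lc_jl (f : Fin 3 → ℕ) : lc (jl f) = f 2 := by
  unfold lc jl jc
  have h1 : ¬ (Nat.pair (f 0) (Nat.pair (f 1) (f 2)) + 3 = 2) := by omega
  have h2 : ¬ (Nat.pair (f 0) (Nat.pair (f 1) (f 2)) + 3 < 3) := by omega
  simp [h2]

theorem labl_jl (f : Fin 3 → ℕ) : labl (jl f) = (jc f + 1) :: List.replicate (f 0) 0 := by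
  unfold labl jl
  have h1 : ¬ (jc f + 3 = 0) := by omega
  have h2 : ¬ (jc f + 3 < 3) := by omega
  rw [if_neg h1, if_neg h2]
  have h3 : jc f + 3 - 3 = jc f := by omega
  rw [h3]
  have h4 : (jc f).unpair.1 = f 0 := by unfold jc; simp
  rw [h4]
  congr 1
  rw [List.map_const', List.length_range]

/-- Packing intervals. -/
theorem pack {n : ℕ} {p s : Fin n → Fin 3 → ℕ} (i : Fin 3)
    (hd : ∀ j j' : Fin n, j ≠ j' → s j i + p j i ≤ s j' i ∨ s j' i + p j' i ≤ s j i)
    (u : Finset (Fin n)) (a b : ℕ) (ha : ∀ j ∈ u, a ≤ s j i) (hb : ∀ j ∈ u, s j i + p j i ≤ b) :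
    ∑ j ∈ u, p j i ≤ b - a := by
  classical
  have h1 : (u.biUnion (fun j => Finset.Ico (s j i) (s j i + p j i))).card = ∑ j ∈ u, p j i := by
    rw [Finset.card_biUnion]
    · apply Finset.sum_congr rfl
      intro j _
      rw [Nat.card_Ico]; omega
    · intro j _ j' _ hjj
      show Disjoint _ _
      rw [Finset.disjoint_left]
      intro x hx hx'
      rw [Finset.mem_Ico] at hx hx'
      rcases hd j j' hjj with h | h <;> omega
  rw [← h1, ← Nat.card_Ico]
  apply Finset.card_le_card
  intro x hx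
  rw [Finset.mem_biUnion] at hx
  obtain ⟨j, hj, hx⟩ := hx
  rw [Finset.mem_Ico] at hx ⊢
  have := ha j hj
  have := hb j hj
  omega

theorem rep0 (d : ℕ) (x y : ℤ) (hx : (d : ℤ) ≤ x) (hy : 0 ≤ y) :
    FNet.Run (x, y) (List.replicate d 0) ∧
      (List.replicate d 0).foldl FNet.dl (x, y) = (x - d, y) := by
  induction d generalizing x with
  | zero => simp
  | succ d ih =>
    have h1 : FNet.dl (x, y) 0 = (x - 1, y) := by
      simp [dl, e1, e2, FNet, la, lb, lc]; ring
    push_cast at hx
    obtain ⟨h2, h3⟩ := ih (x - 1) (by linarith)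
    rw [List.replicate_succ]
    refine ⟨⟨?_, ?_⟩, ?_⟩
    · simp only [ok, FNet, la, lb]; constructor <;> simp <;> linarith
    · rw [h1]; exact h2
    · rw [List.foldl_cons, h1, h3]; push_cast; ext <;> simp; ring

theorem rep1 (d : ℕ) (x y : ℤ) (hx : 0 ≤ x) (hy : (d : ℤ) ≤ y) :
    FNet.Run (x, y) (List.replicate d 1) ∧
      (List.replicate d 1).foldl FNet.dl (x, y) = (x + d, y - d) := by
  induction d generalizing x y with
  | zero => simp
  | succ d ih =>
    have h1 : FNet.dl (x, y) 1 = (x + 1, y - 1) := by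
      simp [dl, e1, e2, FNet, la, lb, lc]; ring
    push_cast at hy
    obtain ⟨h2, h3⟩ := ih (x + 1) (y - 1) (by linarith) (by linarith)
    rw [List.replicate_succ]
    refine ⟨⟨?_, ?_⟩, ?_⟩
    · simp only [ok, FNet, la, lb]; constructor <;> simp <;> linarith
    · rw [h1]; exact h2
    · rw [List.foldl_cons, h1, h3]; push_cast; ext <;> simp <;> ring

theorem rep2 (d : ℕ) (x y : ℤ) (hx : 0 ≤ x) (hy : 0 ≤ y) :
    FNet.Run (x, y) (List.replicate d 2) ∧
      (List.replicate d 2).foldl FNet.dl (x, y) = (x, y + d) := by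
  induction d generalizing y with
  | zero => simp
  | succ d ih =>
    have h1 : FNet.dl (x, y) 2 = (x, y + 1) := by
      simp [dl, e1, e2, FNet, la, lb, lc]
    obtain ⟨h2, h3⟩ := ih (y + 1) (by linarith)
    rw [List.replicate_succ]
    refine ⟨⟨?_, ?_⟩, ?_⟩
    · simp only [ok, FNet, la, lb]; constructor <;> simp <;> linarith
    · rw [h1]; exact h2
    · rw [List.foldl_cons, h1, h3]; push_cast; ext <;> simp; ring

/-- The word describing the second machine from time `t` on. -/
def midw {n : ℕ} (p s : Fin n → Fin 3 → ℕ) (T : ℕ) : ℕ → List (Fin n) → List ℕ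
  | t, [] => List.replicate (T - t) 1
  | t, j :: rest => List.replicate (s j 1 - t) 1 ++ (jl (p j) :: midw p s T (s j 1 + p j 1) rest)

theorem feas_of_sched {n : ℕ} {p : Fin n → Fin 3 → ℕ} {T : ℕ} {s : Fin n → Fin 3 → ℕ}
    (hs : IsSched n p T s) : Feas FNet flab (inst n p T : Multiset ℕ) := by
  classical
  obtain ⟨hflow, hdisj, hT⟩ := hs
  -- order of the jobs on the second machine
  let r : Fin n → Fin n → Prop := fun i j => s i 1 < s j 1 ∨ (s i 1 = s j 1 ∧ p i 1 ≤ p j 1)
  haveI : DecidableRel r := fun i j => by unfold r; infer_instance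
  haveI : Std.Total r := ⟨fun i j => by simp only [r]; omega⟩
  haveI : IsTrans (Fin n) r := ⟨fun i j k h1 h2 => by simp only [r] at *; omega⟩
  obtain ⟨ord, hperm, hR⟩ : ∃ ord : List (Fin n), ord.Perm (List.finRange n) ∧
      ord.Pairwise (fun i j => s i 1 + p i 1 ≤ s j 1) := by
    refine ⟨(List.finRange n).insertionSort r, List.perm_insertionSort _ _, ?_⟩
    have h1 : ((List.finRange n).insertionSort r).Pairwise r := List.pairwise_insertionSort r _
    have h2 : ((List.finRange n).insertionSort r).Nodup :=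
      (List.perm_insertionSort r _).nodup_iff.2 (List.nodup_finRange n)
    have h3 := h1.and h2
    refine h3.imp ?_
    rintro i j ⟨h4, h5⟩
    have h6 := hdisj 1 i j h5
    simp only [r] at h4
    rcases h6 with h6 | h6
    · exact h6
    · rcases h4 with h4 | h4 <;> omega
  have hnd : ord.Nodup := hperm.nodup_iff.2 (List.nodup_finRange n)
  have hsumf : ∀ (i : Fin 3) (u : List (Fin n)), u.Nodup →
      (u.map (fun j => p j i)).sum = ∑ j ∈ u.toFinset, p j i := by
    intro i u hu
    rw [List.sum_toFinset _ hu]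
  -- key inequalities
  have hA : ∀ u j v, ord = u ++ j :: v → (u.map (fun j => p j 0)).sum + p j 0 ≤ s j 1 := by
    intro u j v huv
    have hnd' : (u ++ [j]).Nodup := by
      have : ord = (u ++ [j]) ++ v := by simp [huv]
      rw [this] at hnd
      exact (List.nodup_append.1 hnd).1
    have hpw : ∀ i ∈ u, s i 1 + p i 1 ≤ s j 1 := by
      rw [huv, List.pairwise_append] at hR
      intro i hi
      exact hR.2.2 i hi j (by simp)
    have h1 := pack (p := p) (s := s) 0 (hdisj 0) (u ++ [j]).toFinset 0 (s j 1)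
      (fun _ _ => Nat.zero_le _) (by
        intro i hi
        rw [List.mem_toFinset, List.mem_append, List.mem_singleton] at hi
        rcases hi with hi | rfl
        · have := hpw i hi
          have := (hflow i).1
          omega
        · exact (hflow i).1)
    rw [← hsumf 0 _ hnd'] at h1
    simpa using h1
  have hC : ∀ u j v, ord = u ++ j :: v →
      p j 2 + (v.map (fun j => p j 2)).sum ≤ T - (s j 1 + p j 1) := by
    intro u j v huv
    have hnd' : (j :: v).Nodup := by
      rw [huv] at hnd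
      exact (List.nodup_append.1 hnd).2.1
    have hpw : ∀ i ∈ v, s j 1 + p j 1 ≤ s i 1 := by
      rw [huv, List.pairwise_append] at hR
      intro i hi
      exact (List.pairwise_cons.1 hR.2.1).1 i hi
    have h1 := pack (p := p) (s := s) 2 (hdisj 2) (j :: v).toFinset (s j 1 + p j 1) T
      (by
        intro i hi
        rw [List.mem_toFinset, List.mem_cons] at hi
        rcases hi with rfl | hi
        · exact (hflow i).2
        · have := hpw i hi
          have := (hflow i).2
          omega) (fun i _ => hT i)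
    rw [← hsumf 2 _ hnd'] at h1
    simpa using h1
  have hAT : (ord.map (fun j => p j 0)).sum ≤ T := by
    rw [hsumf 0 _ hnd]
    have := pack (p := p) (s := s) 0 (hdisj 0) ord.toFinset 0 T (fun _ _ => Nat.zero_le _) (by
      intro i _
      have := hflow i
      have := hT i
      omega)
    omega
  have hCT : (ord.map (fun j => p j 2)).sum ≤ T := by
    rw [hsumf 2 _ hnd]
    have := pack (p := p) (s := s) 2 (hdisj 2) ord.toFinset 0 T (fun _ _ => Nat.zero_le _)
      (fun i _ => hT i)
    omega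
  -- the middle part
  have hmid : ∀ (rest u : List (Fin n)) (t : ℕ), ord = u ++ rest →
      (∀ j ∈ rest, t ≤ s j 1) → t ≤ T → (u.map (fun j => p j 0)).sum ≤ t →
      (rest.map (fun j => p j 2)).sum + t ≤ T →
      FNet.Run ((t : ℤ) - (u.map (fun j => p j 0)).sum,
        (T : ℤ) - t - (rest.map (fun j => p j 2)).sum) (midw p s T t rest) ∧
      (midw p s T t rest).foldl FNet.dl ((t : ℤ) - (u.map (fun j => p j 0)).sum,
        (T : ℤ) - t - (rest.map (fun j => p j 2)).sum) =
        ((T : ℤ) - (ord.map (fun j => p j 0)).sum, 0) := by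
    intro rest
    induction rest with
    | nil =>
      intro u t hu _ htT hut _
      have hu' : ord = u := by simpa using hu
      subst hu'
      simp only [midw, List.map_nil, List.sum_nil, Nat.cast_zero, sub_zero]
      have h1 : ((T - t : ℕ) : ℤ) = (T : ℤ) - t := by push_cast [htT]; ring
      obtain ⟨h2, h3⟩ := rep1 (T - t) ((t : ℤ) - (ord.map (fun j => p j 0)).sum) ((T : ℤ) - t)
        (by have : ((ord.map (fun j => p j 0)).sum : ℤ) ≤ t := by exact_mod_cast hut
            linarith) (by rw [h1])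
      refine ⟨h2, ?_⟩
      rw [h3, h1]
      ext <;> simp
    | cons j rest ih =>
      intro u t hu hst htT hut hCt
      have hA' := hA u j rest hu
      have hC' := hC u j rest hu
      have htj := hst j (by simp)
      have hjT : s j 1 + p j 1 ≤ T := by
        have := (hflow j).2
        have := hT j
        omega
      simp only [midw]
      have h1 : ((s j 1 - t : ℕ) : ℤ) = (s j 1 : ℤ) - t := by push_cast [htj]; ring
      have hC2 : ((p j 2 : ℕ) : ℤ) + ((rest.map (fun j => p j 2)).sum : ℤ) ≤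
          (T : ℤ) - (s j 1 + p j 1) := by
        have : ((T - (s j 1 + p j 1) : ℕ) : ℤ) = (T : ℤ) - (s j 1 + p j 1) := by
          push_cast [hjT]; ring
        rw [← this]; exact_mod_cast hC'
      have hut' : ((u.map (fun j => p j 0)).sum : ℤ) ≤ t := by exact_mod_cast hut
      have hA2 : ((u.map (fun j => p j 0)).sum : ℤ) + p j 0 ≤ s j 1 := by exact_mod_cast hA'
      have hpos : (0 : ℤ) ≤ p j 1 := by positivity
      obtain ⟨h2, h3⟩ := rep1 (s j 1 - t) ((t : ℤ) - (u.map (fun j => p j 0)).sum)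
        ((T : ℤ) - t - ((j :: rest).map (fun j => p j 2)).sum) (by linarith) (by
          rw [h1, List.map_cons, List.sum_cons, Nat.cast_add]; linarith)
      have h4 : FNet.dl ((t : ℤ) - (u.map (fun j => p j 0)).sum + ((s j 1 - t : ℕ) : ℤ),
          (T : ℤ) - t - ((j :: rest).map (fun j => p j 2)).sum - ((s j 1 - t : ℕ) : ℤ)) (jl (p j)) =
          (((s j 1 + p j 1 : ℕ) : ℤ) - ((u ++ [j]).map (fun j => p j 0)).sum,
            (T : ℤ) - ((s j 1 + p j 1 : ℕ) : ℤ) - (rest.map (fun j => p j 2)).sum) := by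
        simp only [dl, e1, e2, FNet, la_jl, lb_jl, lc_jl, h1, List.map_cons, List.sum_cons,
          List.map_append, List.sum_append, List.map_nil, List.sum_nil]
        push_cast
        ext <;> simp <;> ring
      have hnext : ∀ j' ∈ rest, s j 1 + p j 1 ≤ s j' 1 := by
        rw [hu, List.pairwise_append] at hR
        exact (List.pairwise_cons.1 hR.2.1).1
      obtain ⟨h5, h6⟩ := ih (u ++ [j]) (s j 1 + p j 1) (by simp [hu]) hnext hjT (by
        simp only [List.map_append, List.sum_append, List.map_cons, List.map_nil, List.sum_cons,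
          List.sum_nil]
        omega) (by omega)
      constructor
      · rw [Run, path_append, h3]
        refine ⟨h2, ?_, ?_⟩
        · simp only [ok, FNet, la_jl, lb_jl, h1, List.map_cons, List.sum_cons, Nat.cast_add]
          constructor <;> linarith
        · rw [h4]; exact h5
      · rw [List.foldl_append, h3, List.foldl_cons, h4]; exact h6
  -- the whole word
  set A := (ord.map (fun j => p j 0)).sum with hAdef
  set C := (ord.map (fun j => p j 2)).sum with hCdef
  obtain ⟨hm1, hm2⟩ := hmid ord [] 0 rfl (fun _ _ => Nat.zero_le _) (Nat.zero_le _) (by simp)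
    (by simpa using hCT)
  obtain ⟨hc1, hc2⟩ := rep2 (T - C) 0 0 le_rfl le_rfl
  have hTC : ((T - C : ℕ) : ℤ) = (T : ℤ) - C := by push_cast [hCT]; ring
  have hTA : ((T - A : ℕ) : ℤ) = (T : ℤ) - A := by push_cast [hAT]; ring
  obtain ⟨ha1, ha2⟩ := rep0 (T - A) ((T : ℤ) - A) 0 (by rw [hTA]) le_rfl
  have e1' : ((0 : ℤ), (0 : ℤ) + ((T - C : ℕ) : ℤ)) =
      (((0 : ℕ) : ℤ) - (([] : List (Fin n)).map (fun j => p j 0)).sum,
        (T : ℤ) - ((0 : ℕ) : ℤ) - C) := by
    rw [hTC]; simp
  refine ⟨List.replicate (T - C) 2 ++ (midw p s T 0 ord ++ List.replicate (T - A) 0),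
    ⟨?_, ?_⟩, ?_⟩
  · rw [Run, path_append, hc2, path_append, e1', hm2]
    refine ⟨hc1, hm1, ha1⟩
  · rw [List.foldl_append, hc2, List.foldl_append, e1', hm2, ha2, hTA]
    simp
  · rw [psi_append, psi_append]
    have hrep : ∀ (d l : ℕ), psi flab (List.replicate d l) = d • flab l := by
      intro d l
      induction d with
      | zero => simp
      | succ d ih => rw [List.replicate_succ, psi_cons, ih, succ_nsmul, add_comm]
    have hmidp : ∀ (rest : List (Fin n)) (t : ℕ), psi flab (midw p s T t rest) =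
        ((rest.map (fun j => jc (p j) + 1) : List ℕ) : Multiset ℕ) +
          (rest.map (fun j => p j 0)).sum • ({0} : Multiset ℕ) := by
      intro rest
      induction rest with
      | nil =>
        intro t
        simp only [midw, hrep]
        simp [flab, labl]
      | cons j rest ih =>
        intro t
        simp only [midw]
        rw [psi_append, hrep, psi_cons, ih]
        have h1 : flab 1 = 0 := by simp [flab, labl]
        have h2 : flab (jl (p j)) = {jc (p j) + 1} + (p j 0) • ({0} : Multiset ℕ) := by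
          unfold flab
          rw [labl_jl]
          rw [← Multiset.cons_coe, Multiset.coe_replicate, Multiset.nsmul_singleton]
          rfl
        rw [h1, smul_zero, zero_add, h2, List.map_cons, List.map_cons, List.sum_cons, add_smul,
          ← Multiset.cons_coe, ← Multiset.singleton_add]
        abel
    rw [hrep, hrep, hmidp]
    have h1 : flab 2 = 0 := by simp [flab, labl]
    have h2 : flab 0 = {0} := by simp [flab, labl]
    rw [h1, h2, smul_zero, zero_add, ← hAdef]
    unfold inst
    rw [← Multiset.coe_add, Multiset.coe_replicate]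
    have h3 : ((ord.map (fun j => jc (p j) + 1) : List ℕ) : Multiset ℕ) =
        ((List.ofFn (fun j => jc (p j) + 1) : List ℕ) : Multiset ℕ) := by
      rw [Multiset.coe_eq_coe, List.ofFn_eq_map]
      exact hperm.map _
    rw [h3, add_assoc, ← add_smul, Multiset.nsmul_singleton]
    have h4 : A + (T - A) = T := by omega
    rw [h4, add_comm]

/-! ### From closed runs to schedules -/

/-- The jobs of a word with their starting times. -/
def evs : ℕ → ℕ → ℕ → List ℕ → List (ℕ × (ℕ × ℕ × ℕ))
  | _, _, _, [] => []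
  | A, B, C, l :: w =>
    if l < 3 then evs (A + la l) (B + lb l) (C + lc l) w
    else (l - 2, (A, B, C)) :: evs (A + la l) (B + lb l) (C + lc l) w

/-- Compatibility of two scheduled jobs. -/
def Compat (x y : ℕ × (ℕ × ℕ × ℕ)) : Prop :=
  (x.2.1 + la (x.1 + 2) ≤ y.2.1 ∨ y.2.1 + la (y.1 + 2) ≤ x.2.1) ∧
  (x.2.2.1 + lb (x.1 + 2) ≤ y.2.2.1 ∨ y.2.2.1 + lb (y.1 + 2) ≤ x.2.2.1) ∧
  (x.2.2.2 + lc (x.1 + 2) ≤ y.2.2.2 ∨ y.2.2.2 + lc (y.1 + 2) ≤ x.2.2.2)

theorem compat_symm {x y : ℕ × (ℕ × ℕ × ℕ)} (h : Compat x y) : Compat y x :=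
  ⟨h.1.symm, h.2.1.symm, h.2.2.symm⟩

theorem evs_spec (w : List ℕ) : ∀ (A B C : ℕ),
    FNet.Run ((B : ℤ) - A, (C : ℤ) - B) w →
    (∀ x ∈ evs A B C w, A ≤ x.2.1 ∧ B ≤ x.2.2.1 ∧ C ≤ x.2.2.2 ∧
      x.2.1 + la (x.1 + 2) ≤ x.2.2.1 ∧ x.2.2.1 + lb (x.1 + 2) ≤ x.2.2.2 ∧
      x.2.2.2 + lc (x.1 + 2) ≤ C + (w.map lc).sum) ∧
    (evs A B C w).Pairwise Compat ∧
    psi flab w = (((evs A B C w).map Prod.fst : List ℕ) : Multiset ℕ) +
      (w.map la).sum • ({0} : Multiset ℕ) := by
  induction w with
  | nil => intro A B C _; simp [evs]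
  | cons l w ih =>
    intro A B C hrun
    obtain ⟨⟨ha, hb⟩, hr⟩ := hrun
    simp only [FNet] at ha hb
    have hdl : FNet.dl ((B : ℤ) - A, (C : ℤ) - B) l =
        (((B + lb l : ℕ) : ℤ) - ((A + la l : ℕ) : ℤ), ((C + lc l : ℕ) : ℤ) - ((B + lb l : ℕ) : ℤ)) := by
      simp only [dl, e1, e2, FNet]
      push_cast
      ext <;> simp <;> ring
    rw [hdl] at hr
    obtain ⟨h1, h2, h3⟩ := ih (A + la l) (B + lb l) (C + lc l) hr
    by_cases hl : l < 3
    · have hev : evs A B C (l :: w) = evs (A + la l) (B + lb l) (C + lc l) w := by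
        simp [evs, hl]
      rw [hev]
      refine ⟨?_, h2, ?_⟩
      · intro x hx
        obtain ⟨g1, g2, g3, g4, g5, g6⟩ := h1 x hx
        refine ⟨by omega, by omega, by omega, g4, g5, ?_⟩
        rw [List.map_cons, List.sum_cons]; omega
      · rw [psi_cons, h3, List.map_cons, List.sum_cons, add_smul]
        have : flab l = la l • ({0} : Multiset ℕ) := by
          interval_cases l <;> simp [flab, labl, la]
        rw [this]; abel
    · have hev : evs A B C (l :: w) = (l - 2, (A, B, C)) ::
          evs (A + la l) (B + lb l) (C + lc l) w := by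
        simp [evs, hl]
      have hl2 : l - 2 + 2 = l := by omega
      rw [hev]
      refine ⟨?_, ?_, ?_⟩
      · intro x hx
        rcases List.mem_cons.1 hx with rfl | hx
        · simp only [hl2, le_refl, true_and]
          refine ⟨by omega, by omega, ?_⟩
          rw [List.map_cons, List.sum_cons]; omega
        · obtain ⟨g1, g2, g3, g4, g5, g6⟩ := h1 x hx
          refine ⟨by omega, by omega, by omega, g4, g5, ?_⟩
          rw [List.map_cons, List.sum_cons]; omega
      · rw [List.pairwise_cons]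
        refine ⟨?_, h2⟩
        intro y hy
        obtain ⟨g1, g2, g3, g4, g5, g6⟩ := h1 y hy
        refine ⟨Or.inl ?_, Or.inl ?_, Or.inl ?_⟩ <;> simp only [hl2] <;> omega
      · rw [psi_cons, h3, List.map_cons, List.map_cons, List.sum_cons, add_smul]
        have : flab l = {l - 2} + la l • ({0} : Multiset ℕ) := by
          have h4 : ¬ l = 0 := by omega
          simp only [flab, labl, la, h4, hl, if_false]
          rw [← Multiset.cons_coe, List.map_const', List.length_range, Multiset.coe_replicate,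
            Multiset.nsmul_singleton]
          rfl
        rw [this, ← Multiset.cons_coe, ← Multiset.singleton_add]
        abel

theorem exists_aligned {β γ : Type*} (f : β → γ) {l2 l3 : List γ} (h : l2.Perm l3) :
    ∀ l : List β, l.map f = l2 → ∃ l' : List β, l'.Perm l ∧ l'.map f = l3 := by
  induction h with
  | nil => intro l hl; exact ⟨l, List.Perm.refl _, hl⟩
  | cons x _ ih =>
    intro l hl
    rcases l with _ | ⟨a, t⟩
    · simp at hl
    · simp only [List.map_cons, List.cons.injEq] at hl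
      obtain ⟨t', ht', hm⟩ := ih t hl.2
      exact ⟨a :: t', ht'.cons a, by simp [hl.1, hm]⟩
  | swap x y l0 =>
    intro l hl
    rcases l with _ | ⟨a, _ | ⟨b, t⟩⟩
    · simp at hl
    · simp at hl
    · simp only [List.map_cons, List.cons.injEq] at hl
      exact ⟨b :: a :: t, List.Perm.swap _ _ _, by simp [hl.1, hl.2.1, hl.2.2]⟩
  | trans _ _ ih1 ih2 =>
    intro l hl
    obtain ⟨l', h1, h2⟩ := ih1 l hl
    obtain ⟨l'', h3, h4⟩ := ih2 l' h2
    exact ⟨l'', h3.trans h1, h4⟩

theorem sched_of_feas {n : ℕ} {p : Fin n → Fin 3 → ℕ} {T : ℕ}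
    (h : Feas FNet flab (inst n p T : Multiset ℕ)) : ∃ s, IsSched n p T s := by
  classical
  obtain ⟨w, ⟨hrun, hend⟩, hpsi⟩ := h
  have hrun' : FNet.Run (((0 : ℕ) : ℤ) - ((0 : ℕ) : ℤ), ((0 : ℕ) : ℤ) - ((0 : ℕ) : ℤ)) w := by
    simpa using hrun
  obtain ⟨h1, h2, h3⟩ := evs_spec w 0 0 0 hrun'
  rw [hpsi] at h3
  -- totals
  have hsum : lsum FNet.e1 w = 0 ∧ lsum FNet.e2 w = 0 := by
    rw [foldl_dl] at hend
    have g1 := congrArg Prod.fst hend
    have g2 := congrArg Prod.snd hend
    simp only [zero_add] at g1 g2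
    exact ⟨g1, g2⟩
  have hl1 : lsum FNet.e1 w = ((w.map lb).sum : ℤ) - (w.map la).sum := by
    clear hrun hend hpsi hrun' h1 h2 h3 hsum
    induction w with
    | nil => simp
    | cons l w ih =>
      rw [lsum_cons, ih]; simp only [e1, FNet, List.map_cons, List.sum_cons]; push_cast; ring
  have hl2 : lsum FNet.e2 w = ((w.map lc).sum : ℤ) - (w.map lb).sum := by
    clear hrun hend hpsi hrun' h1 h2 h3 hsum hl1
    induction w with
    | nil => simp
    | cons l w ih =>
      rw [lsum_cons, ih]; simp only [e2, FNet, List.map_cons, List.sum_cons]; push_cast; ring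
  have hpos : ∀ x ∈ (evs 0 0 0 w).map Prod.fst, 1 ≤ x := by
    have : ∀ (w : List ℕ) (A B C : ℕ), ∀ x ∈ (evs A B C w).map Prod.fst, 1 ≤ x := by
      intro w
      induction w with
      | nil => intro A B C x hx; simp [evs] at hx
      | cons l w ih =>
        intro A B C x hx
        by_cases hl : l < 3
        · simp only [evs, hl, if_true] at hx
          exact ih _ _ _ x hx
        · simp only [evs, hl, if_false, List.map_cons, List.mem_cons] at hx
          rcases hx with rfl | hx
          · omega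
          · exact ih _ _ _ x hx
    exact this w 0 0 0
  have hinst : (inst n p T : Multiset ℕ) =
      ((List.ofFn (fun j => jc (p j) + 1) : List ℕ) : Multiset ℕ) + T • ({0} : Multiset ℕ) := by
    unfold inst
    rw [← Multiset.coe_add, Multiset.coe_replicate, Multiset.nsmul_singleton, add_comm]
  rw [hinst] at h3
  have hT : T = (w.map la).sum := by
    have g1 := congrArg (Multiset.count 0) h3
    rw [Multiset.count_add, Multiset.count_add, Multiset.count_nsmul, Multiset.count_nsmul,
      Multiset.coe_count, Multiset.coe_count, List.count_eq_zero_of_not_mem,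
      List.count_eq_zero_of_not_mem] at g1
    · simpa using g1
    · intro hmem; have := hpos 0 hmem; omega
    · intro hmem
      rw [List.mem_ofFn] at hmem
      obtain ⟨j, hj⟩ := hmem
      simp at hj
  rw [← hT] at h3
  have h4 : ((List.ofFn (fun j => jc (p j) + 1) : List ℕ) : Multiset ℕ) =
      (((evs 0 0 0 w).map Prod.fst : List ℕ) : Multiset ℕ) := add_right_cancel h3
  rw [Multiset.coe_eq_coe] at h4
  obtain ⟨js, hjp, hjm⟩ := exists_aligned Prod.fst h4.symm (evs 0 0 0 w) rfl
  have hlen : js.length = n := by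
    have := congrArg List.length hjm
    simpa using this
  have hpw : js.Pairwise Compat :=
    (hjp.pairwise_iff (fun hxy => compat_symm hxy)).2 h2
  have hget : ∀ j : Fin n, ∃ x, js[(j : ℕ)]? = some x := by
    intro j
    exact ⟨js[(j : ℕ)]'(by rw [hlen]; exact j.2), List.getElem?_eq_getElem _⟩
  choose g hg using hget
  have hg1 : ∀ j : Fin n, (g j).1 = jc (p j) + 1 := by
    intro j
    have e1 : (js.map Prod.fst)[(j : ℕ)]? = some (g j).1 := by
      rw [List.getElem?_map, hg j]; rfl
    rw [hjm, List.getElem?_ofFn] at e1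
    simp only [j.2, dif_pos, Option.some.injEq] at e1
    exact e1.symm
  have hgl : ∀ j : Fin n, (g j).1 + 2 = jl (p j) := by
    intro j; rw [hg1]; unfold jl; omega
  have hgm : ∀ j : Fin n, g j ∈ evs 0 0 0 w := by
    intro j
    rw [← hjp.mem_iff]
    exact List.mem_of_getElem? (hg j)
  have hcompat : ∀ j j' : Fin n, j ≠ j' → Compat (g j) (g j') := by
    intro j j' hjj
    rw [List.pairwise_iff_getElem] at hpw
    have e1 : ∀ j : Fin n, js[(j : ℕ)]'(by rw [hlen]; exact j.2) = g j := by
      intro j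
      have := hg j
      rw [List.getElem?_eq_getElem (by rw [hlen]; exact j.2)] at this
      simpa using this
    rcases lt_or_gt_of_ne (fun h : (j : ℕ) = j' => hjj (Fin.ext h)) with h | h
    · have := hpw j j' (by rw [hlen]; exact j.2) (by rw [hlen]; exact j'.2) h
      rwa [e1, e1] at this
    · have := hpw j' j (by rw [hlen]; exact j'.2) (by rw [hlen]; exact j.2) h
      rw [e1, e1] at this
      exact compat_symm this
  let s : Fin n → Fin 3 → ℕ := fun j => ![(g j).2.1, (g j).2.2.1, (g j).2.2.2]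
  have s0 : ∀ j, s j 0 = (g j).2.1 := fun j => rfl
  have s1 : ∀ j, s j 1 = (g j).2.2.1 := fun j => rfl
  have s2 : ∀ j, s j 2 = (g j).2.2.2 := fun j => rfl
  refine ⟨s, ?_, ?_, ?_⟩
  · intro j
    obtain ⟨_, _, _, g4, g5, _⟩ := h1 (g j) (hgm j)
    rw [hgl, la_jl] at g4
    rw [hgl, lb_jl] at g5
    rw [s0, s1, s2]
    exact ⟨g4, g5⟩
  · intro i j j' hjj
    obtain ⟨c1, c2, c3⟩ := hcompat j j' hjj
    rw [hgl, hgl, la_jl, la_jl] at c1
    rw [hgl, hgl, lb_jl, lb_jl] at c2
    rw [hgl, hgl, lc_jl, lc_jl] at c3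
    fin_cases i
    · exact c1
    · exact c2
    · exact c3
  · intro j
    obtain ⟨_, _, _, _, _, g6⟩ := h1 (g j) (hgm j)
    rw [hgl, lc_jl] at g6
    rw [s2]
    have g7 : ((w.map lc).sum : ℤ) = T := by
      rw [hl1] at hsum
      rw [hl2] at hsum
      rw [hT]
      linarith [hsum.1, hsum.2]
    have g8 : (w.map lc).sum = T := by exact_mod_cast g7
    omega

theorem sched_iff (n : ℕ) (p : Fin n → Fin 3 → ℕ) (T : ℕ) :
    (∃ s, IsSched n p T s) ↔ Feas FNet flab (inst n p T : Multiset ℕ) :=
  ⟨fun ⟨_, hs⟩ => feas_of_sched hs, sched_of_feas⟩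

end Pool.Agent.Helper77
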