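import Pool.Agent.Helper77.TmE
import Pool.Agent.Helper77.Sched

set_option autoImplicit false

/-!
# The control of the flow shop machine
-/

namespace Pool.Agent.Helper77

open Net

/-- States of the algorithm: mode, number of labels, auxiliary number, auxiliary list. -/
abbrev St := ℕ × ℕ × ℕ × List ℕ

/-- Decode a level. -/
def dcl (x : ℕ) : List ℕ := if x = 0 then [] else ((Encodable.decode (x - 1) : Option (List ℕ))).getD []
/-- Encode a level. -/
def ecl (P : List ℕ) : ℕ := Encodable.encode P + 1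

theorem dcl_ecl (P : List ℕ) : dcl (ecl P) = P := by
  unfold dcl ecl
  rw [if_neg (by omega), Nat.add_sub_cancel, Encodable.encodek]; rfl

theorem ecl_ne (P : List ℕ) : ecl P ≠ 0 := by unfold ecl; omega

/-- The algorithm: from the symbol read and the state, compute the stack and the number to be
written and the new state. -/
def F (x : ℕ) (s : St) : (Bool × ℕ) × St :=
  if s.1 = 0 then
    (if x = 2 then ((true, 0), (2, s.2.1, 0, []))
    else if x = 1 then ((true, 0), (1, s.2.1, 0, []))
    else ((true, 0), (6, s.2.1, 0, [])))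
  else if s.1 = 1 then
    (if x = 2 then ((true, 0), (1, s.2.1, s.2.2.1 + 1, s.2.2.2))
    else if x = 1 then
      (if s.2.2.2.length = 2 then
        ((true, 0), (3, max s.2.1 (Nat.pair (s.2.2.2.getD 0 0)
            (Nat.pair (s.2.2.2.getD 1 0) s.2.2.1) + 2),
          Nat.pair (s.2.2.2.getD 0 0) (Nat.pair (s.2.2.2.getD 1 0) s.2.2.1) + 1, []))
      else ((true, 0), (1, s.2.1, 0, s.2.2.2 ++ [s.2.2.1])))
    else ((true, 0), (6, s.2.1, 0, [])))
  else if s.1 < 4 then
    (if s.2.2.1 ∈ dcl x then
      ((true, ecl ((dcl x).filter (fun b => decide (b ≠ s.2.2.1)))), (s.1, s.2.1, s.2.2.1, []))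
    else ((true, ecl (s.2.2.1 :: dcl x)), (s.1 + 2, s.2.1, 0, [])))
  else if s.1 < 6 then
    (if x = 0 then ((true, 0), (s.1 - 4, s.2.1, 0, []))
    else ((false, x), (s.1, s.2.1, 0, [])))
  else if s.1 = 6 then
    (if x = 0 then ((false, 0), (7, s.2.1, 0, []))
    else ((true, x), (6, s.2.1, 0, [])))
  else
    (if x = 0 then ((decide (sdec s.2.1 s.2.2.2), 0), (8, s.2.1, 0, []))
    else ((false, 0), (7, s.2.1, 0, red s.2.1 (s.2.2.2 ++ (s.2.2.2 ++ dcl x)))))

def dtab (m : ℕ) : Bool :=
  [true, true, false, false, false, false, false, false, true].getD m true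
def etab (m : ℕ) : Bool :=
  [false, false, false, false, true, true, false, true, true].getD m true

/-- Decode a state. -/
def stq (q : ℕ) : St :=
  if q = 0 then (0, 1, 0, []) else ((Encodable.decode (q - 1) : Option St)).getD (0, 0, 0, [])
/-- Encode a state. -/
def eq' (s : St) : ℕ := Encodable.encode s + 1

theorem stq_eq (s : St) : stq (eq' s) = s := by
  unfold stq eq'
  rw [if_neg (by omega), Nat.add_sub_cancel, Encodable.encodek]; rfl

/-- The control. -/
def CC : Ctl where
  w := fun x q => (F x (stq q)).1.1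
  d := fun x q => dtab (F x (stq q)).2.1
  e := fun x q => etab (F x (stq q)).2.1
  y := fun x q => (F x (stq q)).1.2
  q := fun x q => eq' (F x (stq q)).2

/-- Two stacks. -/
def sv (V W : List ℕ) : Bool → List ℕ := fun b => cond b W V

theorem update_sv_false (V W X : List ℕ) : Function.update (sv V W) false X = sv X W := by
  funext b; cases b <;> simp [sv]
theorem update_sv_true (V W X : List ℕ) : Function.update (sv V W) true X = sv V X := by
  funext b; cases b <;> simp [sv]

theorem step_V {q : ℕ} {I : List Bool} {V W : List ℕ} {w : Bool} {y : ℕ} {s : St}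
    (h : F V.headI (stq q) = ((w, y), s)) :
    ostep CC ⟨.rv false, q, I, sv V W⟩ = ⟨dirOf w (dtab s.1) (etab s.1), eq' s, I,
      sv (cond w V.tail (y :: V.tail)) (cond w (y :: W) W)⟩ := by
  have h1 : OC.x ⟨.rv false, q, I, sv V W⟩ = V.headI := rfl
  have h2 : OC.S1 ⟨.rv false, q, I, sv V W⟩ = sv V.tail W := by
    unfold OC.S1; exact update_sv_false _ _ _
  have h3 : OC.I1 ⟨.rv false, q, I, sv V W⟩ = I := rfl
  unfold ostep
  rw [h1, h2, h3]
  simp only [CC, h]
  congr 1
  cases w
  · exact update_sv_false _ _ _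
  · exact update_sv_true _ _ _

theorem step_W {q : ℕ} {I : List Bool} {V W : List ℕ} {w : Bool} {y : ℕ} {s : St}
    (h : F W.headI (stq q) = ((w, y), s)) :
    ostep CC ⟨.rv true, q, I, sv V W⟩ = ⟨dirOf w (dtab s.1) (etab s.1), eq' s, I,
      sv (cond w V (y :: V)) (cond w (y :: W.tail) W.tail)⟩ := by
  have h1 : OC.x ⟨.rv true, q, I, sv V W⟩ = W.headI := rfl
  have h2 : OC.S1 ⟨.rv true, q, I, sv V W⟩ = sv V W.tail := by
    unfold OC.S1; exact update_sv_true _ _ _
  have h3 : OC.I1 ⟨.rv true, q, I, sv V W⟩ = I := rfl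
  unfold ostep
  rw [h1, h2, h3]
  simp only [CC, h]
  congr 1
  cases w
  · exact update_sv_false _ _ _
  · exact update_sv_true _ _ _

theorem step_I {q : ℕ} {I : List Bool} {V W : List ℕ} {w : Bool} {y : ℕ} {s : St}
    (h : F (bitv I) (stq q) = ((w, y), s)) :
    ostep CC ⟨.ri, q, I, sv V W⟩ = ⟨dirOf w (dtab s.1) (etab s.1), eq' s, I.tail,
      sv (cond w V (y :: V)) (cond w (y :: W) W)⟩ := by
  have h1 : OC.x ⟨.ri, q, I, sv V W⟩ = bitv I := rfl
  have h2 : OC.S1 ⟨.ri, q, I, sv V W⟩ = sv V W := rfl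
  have h3 : OC.I1 ⟨.ri, q, I, sv V W⟩ = I.tail := rfl
  unfold ostep
  rw [h1, h2, h3]
  simp only [CC, h]
  congr 1
  cases w
  · exact update_sv_false _ _ _
  · exact update_sv_true _ _ _

/-! ### Levels -/

/-- The multiset described by a list of levels, least significant first. -/
def lval (L : List (List ℕ)) : Multiset ℕ := mrun 0 (L.reverse.map Multiset.ofList)

@[simp] theorem lval_nil : lval [] = 0 := rfl

theorem lval_cons (P : List ℕ) (L : List (List ℕ)) :
    lval (P :: L) = lval L + lval L + (P : Multiset ℕ) := by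
  unfold lval
  rw [List.reverse_cons, List.map_append, mrun_append]
  rfl

/-- Adding one item. -/
def addL (a : ℕ) : List (List ℕ) → List (List ℕ)
  | [] => [[a]]
  | P :: L => if a ∈ P then P.erase a :: addL a L else (a :: P) :: L

theorem lval_addL (a : ℕ) (L : List (List ℕ)) : lval (addL a L) = {a} + lval L := by
  induction L with
  | nil => simp [addL, lval_cons]
  | cons P L ih =>
    unfold addL
    split_ifs with h
    · rw [lval_cons, lval_cons, ih]
      have h1 : (P : Multiset ℕ) = {a} + ((P.erase a : List ℕ) : Multiset ℕ) := by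
        rw [← Multiset.coe_erase, Multiset.singleton_add, Multiset.cons_erase (by simpa using h)]
      rw [h1]; abel
    · rw [lval_cons, lval_cons, ← Multiset.cons_coe, ← Multiset.singleton_add]; abel

theorem length_addL (a : ℕ) (L : List (List ℕ)) : (addL a L).length ≤ L.length + 1 := by
  induction L with
  | nil => simp [addL]
  | cons P L ih =>
    unfold addL
    split_ifs with h
    · simp only [List.length_cons]; omega
    · simp

/-- Admissible levels. -/
def LOK (M : ℕ) (L : List (List ℕ)) : Prop := ∀ P ∈ L, P.Nodup ∧ ∀ i ∈ P, i < M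

theorem LOK.addL {M : ℕ} {L : List (List ℕ)} (h : LOK M L) {a : ℕ} (ha : a < M) :
    LOK M (addL a L) := by
  induction L with
  | nil =>
    intro P hP
    simp only [Helper77.addL, List.mem_singleton] at hP
    subst hP
    exact ⟨by simp, by simpa using ha⟩
  | cons P L ih =>
    have h1 := h P (by simp)
    have h2 : LOK M L := fun Q hQ => h Q (by simp [hQ])
    unfold Helper77.addL
    split_ifs with hm
    · intro Q hQ
      rcases List.mem_cons.1 hQ with rfl | hQ
      · exact ⟨h1.1.erase a, fun i hi => h1.2 i (List.mem_of_mem_erase hi)⟩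
      · exact ih h2 Q hQ
    · intro Q hQ
      rcases List.mem_cons.1 hQ with rfl | hQ
      · refine ⟨List.nodup_cons.2 ⟨hm, h1.1⟩, ?_⟩
        intro i hi
        rcases List.mem_cons.1 hi with rfl | hi
        · exact ha
        · exact h1.2 i hi
      · exact h2 Q hQ

theorem LOK.mono {M M' : ℕ} {L : List (List ℕ)} (h : LOK M L) (hM : M ≤ M') : LOK M' L :=
  fun P hP => ⟨(h P hP).1, fun i hi => ((h P hP).2 i hi).trans_le hM⟩

/-! ### Bounds -/

/-- `B` bounds all the numbers used with at most `K` labels. -/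
structure Bnd (B K : ℕ) : Prop where
  two : 2 ≤ B
  lev : ∀ P : List ℕ, P.Nodup → (∀ i ∈ P, i < K) → ecl P ≤ B
  sta : ∀ m ≤ 8, ∀ M ≤ K, ∀ a ≤ K, ∀ l : List ℕ, l.length ≤ 2 → (∀ i ∈ l, i ≤ K) →
    eq' (m, M, a, l) ≤ B
  cnd : ∀ M ≤ K, ∀ l ∈ cands M, eq' (7, M, 0, l) ≤ B

end Pool.Agent.Helper77
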