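import Pool.Agent.Helper77.Prim

set_option autoImplicit false

/-!
# Computability of the control and of the bound; the main theorem
-/

namespace Pool.Agent.Helper77

open Net

theorem p_dcl : Primrec dcl := by
  have h : Primrec (fun x : ℕ => x) := Primrec.id
  have h1 : Primrec (fun x : ℕ => (Encodable.decode (x - 1) : Option (List ℕ))) :=
    Primrec.decode.comp (p_sub h (Primrec.const 1))
  exact Primrec.ite (p_eqc h 0) (Primrec.const []) (Primrec.option_getD.comp h1 (Primrec.const []))

theorem p_ecl : Primrec ecl := p_add Primrec.encode (Primrec.const 1)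

theorem p_F : Primrec (fun p : ℕ × St => F p.1 p.2) := by
  have x : Primrec (fun p : ℕ × St => p.1) := Primrec.fst
  have m : Primrec (fun p : ℕ × St => p.2.1) := Primrec.fst.comp Primrec.snd
  have M : Primrec (fun p : ℕ × St => p.2.2.1) :=
    Primrec.fst.comp (Primrec.snd.comp Primrec.snd)
  have a : Primrec (fun p : ℕ × St => p.2.2.2.1) :=
    Primrec.fst.comp (Primrec.snd.comp (Primrec.snd.comp Primrec.snd))
  have l : Primrec (fun p : ℕ × St => p.2.2.2.2) :=
    Primrec.snd.comp (Primrec.snd.comp (Primrec.snd.comp Primrec.snd))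
  have c : ∀ c : ℕ, Primrec (fun _ : ℕ × St => c) := fun c => Primrec.const c
  have nl : Primrec (fun _ : ℕ × St => ([] : List ℕ)) := Primrec.const []
  have tt : Primrec (fun _ : ℕ × St => true) := Primrec.const true
  have ff : Primrec (fun _ : ℕ × St => false) := Primrec.const false
  have mk : ∀ {w : ℕ × St → Bool} {y m M a : ℕ × St → ℕ} {l : ℕ × St → List ℕ},
      Primrec w → Primrec y → Primrec m → Primrec M → Primrec a → Primrec l →
      Primrec (fun p => (((w p, y p), (m p, M p, a p, l p)) : (Bool × ℕ) × St)) := by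
    intro w y m M a l hw hy hm hM ha hl
    exact (hw.pair hy).pair (hm.pair (hM.pair (ha.pair hl)))
  have dx : Primrec (fun p : ℕ × St => dcl p.1) := p_dcl.comp x
  have g0 : Primrec (fun p : ℕ × St => p.2.2.2.2.getD 0 0) :=
    (Primrec.list_getD 0).comp l (c 0)
  have g1 : Primrec (fun p : ℕ × St => p.2.2.2.2.getD 1 0) :=
    (Primrec.list_getD 0).comp l (c 1)
  have pr : Primrec (fun p : ℕ × St => Nat.pair (p.2.2.2.2.getD 0 0)
      (Nat.pair (p.2.2.2.2.getD 1 0) p.2.2.2.1)) := p_pair g0 (p_pair g1 a)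
  have memr : PrimrecPred (fun p : ℕ × St => p.2.2.2.1 ∈ dcl p.1) := by
    have h1 : PrimrecRel (fun (L : List ℕ) (b : ℕ) => ∃ a ∈ L, a = b) :=
      PrimrecRel.exists_mem_list (R := fun a b : ℕ => a = b) Primrec.eq
    refine (h1.comp dx a).of_eq (fun p => ?_)
    simp
  have flt : Primrec (fun p : ℕ × St =>
      (dcl p.1).filter (fun b => decide (b ≠ p.2.2.2.1))) := by
    have h1 : Primrec₂ (fun (L : List ℕ) (a : ℕ) => L.filter (fun b => decide (b ≠ a))) :=
      PrimrecRel.listFilter (R := fun b a : ℕ => b ≠ a) (PrimrecPred.not Primrec.eq)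
    exact h1.comp dx a
  have sd : Primrec (fun p : ℕ × St => decide (sdec p.2.2.1 p.2.2.2.2)) := by
    have h1 : PrimrecPred (fun p : ℕ × St => sdec p.2.2.1 p.2.2.2.2) := p_sdec.comp M l
    exact h1.decide
  have rd : Primrec (fun p : ℕ × St =>
      red p.2.2.1 (p.2.2.2.2 ++ (p.2.2.2.2 ++ dcl p.1))) :=
    p_red.comp M (Primrec.list_append.comp l (Primrec.list_append.comp l dx))
  unfold F
  refine Primrec.ite (p_eqc m 0) ?_ (Primrec.ite (p_eqc m 1) ?_ (Primrec.ite (p_ltc m 4) ?_
    (Primrec.ite (p_ltc m 6) ?_ (Primrec.ite (p_eqc m 6) ?_ ?_))))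
  · exact Primrec.ite (p_eqc x 2) (mk tt (c 0) (c 2) M (c 0) nl)
      (Primrec.ite (p_eqc x 1) (mk tt (c 0) (c 1) M (c 0) nl) (mk tt (c 0) (c 6) M (c 0) nl))
  · refine Primrec.ite (p_eqc x 2) (mk tt (c 0) (c 1) M (p_add a (c 1)) l)
      (Primrec.ite (p_eqc x 1) ?_ (mk tt (c 0) (c 6) M (c 0) nl))
    refine Primrec.ite (p_eqc (Primrec.list_length.comp l) 2) ?_
      (mk tt (c 0) (c 1) M (c 0) (Primrec.list_append.comp l
        (Primrec.list_cons.comp a nl)))
    exact mk tt (c 0) (c 3) (Primrec.nat_max.comp M (p_add pr (c 2))) (p_add pr (c 1)) nl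
  · exact Primrec.ite memr (mk tt (p_ecl.comp flt) m M a nl)
      (mk tt (p_ecl.comp (Primrec.list_cons.comp a dx)) (p_add m (c 2)) M (c 0) nl)
  · exact Primrec.ite (p_eqc x 0) (mk tt (c 0) (p_sub m (c 4)) M (c 0) nl)
      (mk ff x m M (c 0) nl)
  · exact Primrec.ite (p_eqc x 0) (mk ff (c 0) (c 7) M (c 0) nl) (mk tt x (c 6) M (c 0) nl)
  · exact Primrec.ite (p_eqc x 0) (mk sd (c 0) (c 8) M (c 0) nl) (mk ff (c 0) (c 7) M (c 0) rd)

theorem p_stq : Primrec stq := by
  have h : Primrec (fun x : ℕ => x) := Primrec.id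
  have h1 : Primrec (fun x : ℕ => (Encodable.decode (x - 1) : Option St)) :=
    Primrec.decode.comp (p_sub h (Primrec.const 1))
  exact Primrec.ite (p_eqc h 0) (Primrec.const (0, 1, 0, []))
    (Primrec.option_getD.comp h1 (Primrec.const (0, 0, 0, [])))

theorem p_eq' : Primrec eq' := p_add Primrec.encode (Primrec.const 1)

theorem p_FF : Primrec₂ (fun x q : ℕ => F x (stq q)) :=
  (p_F.comp (Primrec.fst.pair (p_stq.comp Primrec.snd))).to₂

theorem p_w : Primrec₂ CC.w := (Primrec.fst.comp (Primrec.fst.comp p_FF)).to₂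
theorem p_y : Primrec₂ CC.y := (Primrec.snd.comp (Primrec.fst.comp p_FF)).to₂
theorem p_q : Primrec₂ CC.q := (p_eq'.comp (Primrec.snd.comp p_FF)).to₂
theorem p_d : Primrec₂ CC.d :=
  ((Primrec.list_getD true).comp (Primrec.const _)
    (Primrec.fst.comp (Primrec.snd.comp p_FF))).to₂
theorem p_e : Primrec₂ CC.e :=
  ((Primrec.list_getD true).comp (Primrec.const _)
    (Primrec.fst.comp (Primrec.snd.comp p_FF))).to₂

/-! ### The bound -/

/-- Bound for the codes of lists of length at most `n` with entries at most `m`. -/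
def EL (m : ℕ) : ℕ → ℕ
  | 0 => 0
  | n + 1 => Nat.pair m (EL m n) + 1

theorem EL_mono (m : ℕ) {a b : ℕ} (h : a ≤ b) : EL m a ≤ EL m b := by
  induction h with
  | refl => exact le_rfl
  | @step b _ ih =>
    refine ih.trans ?_
    have := Nat.right_le_pair m (EL m b)
    show EL m b ≤ Nat.pair m (EL m b) + 1
    omega

theorem encode_le_EL (m : ℕ) (l : List ℕ) (hl : ∀ i ∈ l, i ≤ m) :
    Encodable.encode l ≤ EL m l.length := by
  induction l with
  | nil => simp [EL]
  | cons a l ih =>
    have h1 := ih (fun i hi => hl i (by simp [hi]))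
    have h2 := hl a (by simp)
    have h3 : Encodable.encode (a :: l) = Nat.pair a (Encodable.encode l) + 1 := rfl
    rw [h3, List.length_cons]
    show _ ≤ Nat.pair m (EL m l.length) + 1
    have := pair_mono h2 h1
    omega

theorem encode_mem_le {α : Type*} [Encodable α] {a : α} {l : List α} (h : a ∈ l) :
    Encodable.encode a ≤ Encodable.encode l := by
  induction l with
  | nil => simp at h
  | cons b l ih =>
    have h3 : Encodable.encode (b :: l) =
      Nat.pair (Encodable.encode b) (Encodable.encode l) + 1 := rfl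
    rw [h3]
    rcases List.mem_cons.1 h with rfl | h
    · have := Nat.left_le_pair (Encodable.encode a) (Encodable.encode l); omega
    · have := Nat.right_le_pair (Encodable.encode b) (Encodable.encode l)
      have := ih h
      omega

/-- The bound as a function of the number of labels. -/
def BB (K : ℕ) : ℕ :=
  Nat.pair 8 (Nat.pair K (Nat.pair K
    (EL K (K + 2) + Encodable.encode ((List.range (K + 1)).map cands)))) + 3

theorem bnd_BB (K : ℕ) : Bnd (BB K) K := by
  have hin : EL K (K + 2) + Encodable.encode ((List.range (K + 1)).map cands) ≤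
      Nat.pair 8 (Nat.pair K (Nat.pair K
    (EL K (K + 2) + Encodable.encode ((List.range (K + 1)).map cands)))) :=
    ((Nat.right_le_pair _ _).trans (Nat.right_le_pair _ _)).trans (Nat.right_le_pair _ _)
  have henc : ∀ (m M a : ℕ) (l : List ℕ), Encodable.encode ((m, M, a, l) : St) =
      Nat.pair m (Nat.pair M (Nat.pair a (Encodable.encode l))) := fun _ _ _ _ => rfl
  refine ⟨?_, ?_, ?_, ?_⟩
  · unfold BB; omega
  · intro P hnd hP
    have hlen : P.length ≤ K := by
      have h1 : P.toFinset ⊆ Finset.range K := by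
        intro i hi
        rw [List.mem_toFinset] at hi
        exact Finset.mem_range.2 (hP i hi)
      have h2 := Finset.card_le_card h1
      rwa [List.toFinset_card_of_nodup hnd, Finset.card_range] at h2
    have h1 := encode_le_EL K P (fun i hi => (hP i hi).le)
    have h2 := EL_mono K (show P.length ≤ K + 2 by omega)
    unfold ecl BB
    omega
  · intro m hm M hM a ha l hl hlK
    have h1 := encode_le_EL K l hlK
    have h2 := EL_mono K (show l.length ≤ K + 2 by omega)
    unfold eq' BB
    rw [henc]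
    have h3 : Encodable.encode l ≤
        EL K (K + 2) + Encodable.encode ((List.range (K + 1)).map cands) := by omega
    have := pair_mono hm (pair_mono hM (pair_mono ha h3))
    omega
  · intro M hM l hl
    unfold eq' BB
    rw [henc]
    have h1 : cands M ∈ (List.range (K + 1)).map cands :=
      List.mem_map.2 ⟨M, List.mem_range.2 (by omega), rfl⟩
    have h2 := encode_mem_le h1
    have h3 := encode_mem_le hl
    have h4 : Encodable.encode l ≤
        EL K (K + 2) + Encodable.encode ((List.range (K + 1)).map cands) := by omega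
    have := pair_mono (show 7 ≤ 8 by omega) (pair_mono hM (pair_mono (Nat.zero_le K) h4))
    omega

theorem p_EL : Primrec₂ EL := by
  have h : Primrec (fun p : ℕ × ℕ => Nat.rec (motive := fun _ => ℕ) 0
      (fun _ IH => Nat.pair p.1 IH + 1) p.2) := by
    have hs : Primrec (fun t : (ℕ × ℕ) × (ℕ × ℕ) => Nat.pair t.1.1 t.2.2 + 1) :=
      p_add (p_pair (Primrec.fst.comp Primrec.fst) (Primrec.snd.comp Primrec.snd))
        (Primrec.const 1)
    exact Primrec.nat_rec' (f := fun p : ℕ × ℕ => p.2) (g := fun _ => 0)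
      (h := fun p q => Nat.pair p.1 q.2 + 1) Primrec.snd (Primrec.const 0) hs
  have h' : Primrec (fun p : ℕ × ℕ => EL p.1 p.2) := ?_
  · exact h'.to₂
  refine h.of_eq (fun p => ?_)
  have : ∀ n, (Nat.rec (motive := fun _ => ℕ) 0
      (fun _ IH => Nat.pair p.1 IH + 1) n : ℕ) = EL p.1 n := by
    intro n
    induction n with
    | zero => rfl
    | succ n ih =>
      show _ = Nat.pair p.1 (EL p.1 n) + 1
      rw [← ih]
  exact this p.2

theorem p_BB : Primrec BB := by
  have h : Primrec (fun x : ℕ => x) := Primrec.id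
  have c : ∀ c : ℕ, Primrec (fun _ : ℕ => c) := fun c => Primrec.const c
  have h1 : Primrec (fun K : ℕ => (List.range (K + 1)).map cands) :=
    Primrec.list_map (Primrec.list_range.comp (p_add h (c 1))) (p_cands.comp Primrec.snd).to₂
  have h2 : Primrec (fun K : ℕ => EL K (K + 2)) := p_EL.comp h (p_add h (c 2))
  exact p_add (p_pair (c 8) (p_pair h (p_pair h (p_add h2 (Primrec.encode.comp h1))))) (c 3)

/-- The main theorem. -/
theorem main :
  ∃ f : ℕ → ℕ, Computable f ∧ ∃ c : ℕ, ∃ tm : Turing.FinTM2,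
    ∃ e₀ : tm.Γ tm.k₀ ≃ Bool, ∃ e₁ : tm.Γ tm.k₁ ≃ Bool,
    ∀ (n : ℕ) (p : Fin n → Fin 3 → ℕ) (T : ℕ) (w : List Bool),
      w = (T :: (List.ofFn (fun j : Fin n => List.ofFn (fun i : Fin 3 => p j i))).flatten).flatMap
            (fun m => List.replicate m true ++ [false]) →
      ∃ b : Bool,
        (b = true ↔ ∃ s : Fin n → Fin 3 → ℕ,
          (∀ j, s j 0 + p j 0 ≤ s j 1 ∧ s j 1 + p j 1 ≤ s j 2) ∧
          (∀ (i : Fin 3) (j j' : Fin n), j ≠ j' →
              s j i + p j i ≤ s j' i ∨ s j' i + p j' i ≤ s j i) ∧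
          (∀ j, s j 2 + p j 2 ≤ T)) ∧
        Nonempty (Turing.TM2OutputsInTime tm (w.map e₀.symm) (some [e₁.symm b])
          (f (Finset.univ.sup (fun x : Fin n × Fin 3 => p x.1 x.2)) * (w.length + 1) ^ c)) := by
  obtain ⟨TT, hTT, tm, e₀, e₁, htm⟩ := compile CC p_w.to_comp p_d.to_comp p_e.to_comp
    p_y.to_comp p_q.to_comp
  have hk : Primrec (fun x : ℕ => x) := Primrec.id
  have hBK : Primrec (fun k : ℕ => BB (Nat.pair k (Nat.pair k k) + 2)) :=
    p_BB.comp (p_add (p_pair hk (p_pair hk hk)) (Primrec.const 2))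
  refine ⟨fun k => TT (BB (Nat.pair k (Nat.pair k k) + 2)) * 17, ?_, 2, tm, e₀, e₁, ?_⟩
  · exact Primrec.nat_mul.to_comp.comp (hTT.comp hBK.to_comp) (Computable.const 17)
  · intro n p T w hw
    set k := Finset.univ.sup (fun x : Fin n × Fin 3 => p x.1 x.2) with hkdef
    have hk : ∀ j i, p j i ≤ k := fun j i =>
      Finset.le_sup (f := fun x : Fin n × Fin 3 => p x.1 x.2) (Finset.mem_univ (j, i))
    obtain ⟨m, c', b, h1, h2, h3, h4, h5⟩ := run_all p T hk (bnd_BB _) w hw
    refine ⟨b, h4, ?_⟩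
    obtain ⟨h6⟩ := htm w _ m c' b h1 h2 h3
    refine ⟨⟨h6.toEvalsTo, h6.steps_le_m.trans ?_⟩⟩
    rw [mul_assoc]
    apply Nat.mul_le_mul_left
    nlinarith [Nat.zero_le w.length]

end Pool.Agent.Helper77
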