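import Pool.Agent.Helper77.Order

set_option autoImplicit false

/-!
# Two-place Petri nets
-/

namespace Pool.Agent.Helper77

/-- A labelled Petri net with two places: the letter `l` consumes `p1 l`, `p2 l` tokens and
produces `q1 l`, `q2 l` tokens. -/
structure Net (α : Type*) where
  p1 : α → ℕ
  q1 : α → ℕ
  p2 : α → ℕ
  q2 : α → ℕ

namespace Net

variable {α : Type*} (N : Net α)

def e1 (l : α) : ℤ := (N.q1 l : ℤ) - N.p1 l
def e2 (l : α) : ℤ := (N.q2 l : ℤ) - N.p2 l

/-- Firing. -/
def dl (s : ℤ × ℤ) (l : α) : ℤ × ℤ := (s.1 + N.e1 l, s.2 + N.e2 l)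

/-- Enabledness. -/
def ok (s : ℤ × ℤ) (l : α) : Prop := (N.p1 l : ℤ) ≤ s.1 ∧ (N.p2 l : ℤ) ≤ s.2

abbrev Run (s : ℤ × ℤ) (w : List α) : Prop := Path N.dl N.ok s w

/-- All numbers occurring in the letters are at most `k`. -/
def Bd (k : ℕ) (w : List α) : Prop :=
  ∀ l ∈ w, N.p1 l ≤ k ∧ N.q1 l ≤ k ∧ N.p2 l ≤ k ∧ N.q2 l ≤ k

/-- One-dimensional firing (second place). -/
def d2 (y : ℤ) (l : α) : ℤ := y + N.e2 l

def ok2 (y : ℤ) (l : α) : Prop := (N.p2 l : ℤ) ≤ y

variable {N}

theorem Bd.mono {k : ℕ} {w v : List α} (h : N.Bd k w) (hv : ∀ l ∈ v, l ∈ w) : N.Bd k v :=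
  fun l hl => h l (hv l hl)

theorem Bd.perm {k : ℕ} {w v : List α} (h : N.Bd k w) (hv : w.Perm v) : N.Bd k v :=
  fun l hl => h l (hv.mem_iff.2 hl)

theorem Bd.left {k : ℕ} {w v : List α} (h : N.Bd k (w ++ v)) : N.Bd k w :=
  fun l hl => h l (List.mem_append.2 (Or.inl hl))

theorem Bd.right {k : ℕ} {w v : List α} (h : N.Bd k (w ++ v)) : N.Bd k v :=
  fun l hl => h l (List.mem_append.2 (Or.inr hl))

theorem Bd.abs1 {k : ℕ} {w : List α} (h : N.Bd k w) : ∀ l ∈ w, |N.e1 l| ≤ (k : ℤ) := by
  intro l hl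
  obtain ⟨h1, h2, h3, h4⟩ := h l hl
  unfold e1
  rw [abs_le]; constructor <;> omega

theorem Bd.abs2 {k : ℕ} {w : List α} (h : N.Bd k w) : ∀ l ∈ w, |N.e2 l| ≤ (k : ℤ) := by
  intro l hl
  obtain ⟨h1, h2, h3, h4⟩ := h l hl
  unfold e2
  rw [abs_le]; constructor <;> omega

theorem foldl_dl (s : ℤ × ℤ) (w : List α) :
    w.foldl N.dl s = (s.1 + lsum N.e1 w, s.2 + lsum N.e2 w) := by
  induction w generalizing s with
  | nil => simp
  | cons l w ih => simp [ih, dl, add_assoc]

theorem foldl_d2 (y : ℤ) (w : List α) : w.foldl N.d2 y = y + lsum N.e2 w := by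
  induction w generalizing y with
  | nil => simp
  | cons l w ih => simp [ih, d2, add_assoc]

theorem foldl_perm (s : ℤ × ℤ) {w v : List α} (h : w.Perm v) :
    w.foldl N.dl s = v.foldl N.dl s := by
  rw [foldl_dl, foldl_dl, lsum_perm _ h, lsum_perm _ h]

theorem run_mono {s s' : ℤ × ℤ} {w : List α} (h : N.Run s w) (h1 : s.1 ≤ s'.1) (h2 : s.2 ≤ s'.2) :
    N.Run s' w := by
  induction w generalizing s s' with
  | nil => trivial
  | cons l w ih =>
    obtain ⟨⟨ha, hb⟩, hc⟩ := h
    refine ⟨⟨ha.trans h1, hb.trans h2⟩, ih hc ?_ ?_⟩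
    · simp only [dl]; linarith
    · simp only [dl]; linarith

theorem run2_mono {y y' : ℤ} {w : List α} (h : Path N.d2 N.ok2 y w) (h1 : y ≤ y') :
    Path N.d2 N.ok2 y' w := by
  induction w generalizing y y' with
  | nil => trivial
  | cons l w ih =>
    obtain ⟨ha, hc⟩ := h
    refine ⟨ha.trans h1, ih hc ?_⟩
    simp only [d2]; linarith

theorem states_nonneg {s : ℤ × ℤ} {w : List α} (h : N.Run s w) (h1 : 0 ≤ s.1) (h2 : 0 ≤ s.2) :
    ∀ t ∈ states N.dl s w, 0 ≤ t.1 ∧ 0 ≤ t.2 := by
  induction w generalizing s with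
  | nil =>
    intro t ht
    simp only [states_nil, List.mem_singleton] at ht
    subst ht; exact ⟨h1, h2⟩
  | cons l w ih =>
    intro t ht
    simp only [states_cons, List.mem_cons] at ht
    rcases ht with rfl | ht
    · exact ⟨h1, h2⟩
    · obtain ⟨⟨ha, hb⟩, hc⟩ := h
      refine ih hc ?_ ?_ t ht
      · simp only [dl, e1]; omega
      · simp only [dl, e2]; omega

theorem states_near {k : ℕ} {s : ℤ × ℤ} {w : List α} (h : N.Bd k w) :
    ∀ t ∈ states N.dl s w, |t.1 - s.1| ≤ k * w.length ∧ |t.2 - s.2| ≤ k * w.length := by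
  intro t ht
  rw [mem_states_iff] at ht
  obtain ⟨u, v, rfl, rfl⟩ := ht
  rw [foldl_dl]
  have h1 := abs_lsum_le u (h.left.abs1)
  have h2 := abs_lsum_le u (h.left.abs2)
  have h3 : (k : ℤ) * u.length ≤ k * (u ++ v).length := by
    rw [List.length_append]; push_cast; nlinarith
  constructor
  · calc |s.1 + lsum N.e1 u - s.1| = |lsum N.e1 u| := by ring_nf
      _ ≤ _ := h1.trans h3
  · calc |s.2 + lsum N.e2 u - s.2| = |lsum N.e2 u| := by ring_nf
      _ ≤ _ := h2.trans h3

theorem run_of_run2 {k : ℕ} {s : ℤ × ℤ} {w : List α} (hb : N.Bd k w)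
    (h : Path N.d2 N.ok2 s.2 w) (h1 : (k : ℤ) * w.length ≤ s.1) : N.Run s w := by
  induction w generalizing s with
  | nil => trivial
  | cons l w ih =>
    obtain ⟨ha, hc⟩ := h
    obtain ⟨hb1, hb2, hb3, hb4⟩ := hb l (by simp)
    simp only [List.length_cons, Nat.cast_add, Nat.cast_one] at h1
    have h2 : (k : ℤ) * (w.length + 1) = k * w.length + k := by ring
    have h3 : (0 : ℤ) ≤ k * w.length := by positivity
    refine ⟨⟨?_, ha⟩, ih (hb.mono (fun l hl => by simp [hl])) hc ?_⟩
    · have : (N.p1 l : ℤ) ≤ k := by exact_mod_cast hb1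
      linarith
    · simp only [dl, e1]
      have : (N.p1 l : ℤ) ≤ k := by exact_mod_cast hb1
      have : (0 : ℤ) ≤ N.q1 l := by positivity
      linarith

theorem run2_of_run {s : ℤ × ℤ} {w : List α} (h : N.Run s w) : Path N.d2 N.ok2 s.2 w := by
  induction w generalizing s with
  | nil => trivial
  | cons l w ih => exact ⟨h.1.2, ih h.2⟩

theorem deep2 {k : ℕ} {y : ℤ} {w : List α} (hb : N.Bd k w) (h1 : (k : ℤ) * w.length ≤ y) :
    Path N.d2 N.ok2 y w := by
  induction w generalizing y with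
  | nil => trivial
  | cons l w ih =>
    obtain ⟨hb1, hb2, hb3, hb4⟩ := hb l (by simp)
    simp only [List.length_cons, Nat.cast_add, Nat.cast_one] at h1
    have h2 : (k : ℤ) * (w.length + 1) = k * w.length + k := by ring
    have h3 : (0 : ℤ) ≤ k * w.length := by positivity
    have h4 : (N.p2 l : ℤ) ≤ k := by exact_mod_cast hb3
    have h5 : (0 : ℤ) ≤ N.q2 l := by positivity
    refine ⟨?_, ih (hb.mono (fun l hl => by simp [hl])) ?_⟩
    · simp only [ok2]; linarith
    · simp only [d2, e2]; linarith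

theorem run_deep {k : ℕ} {s : ℤ × ℤ} {w : List α} (hb : N.Bd k w)
    (h1 : (k : ℤ) * w.length ≤ s.1) (h2 : (k : ℤ) * w.length ≤ s.2) : N.Run s w :=
  run_of_run2 hb (deep2 hb h2) h1

theorem states_d2_of_states {s : ℤ × ℤ} {w : List α} :
    ∀ y ∈ states N.d2 s.2 w, ∃ t ∈ states N.dl s w, t.2 = y := by
  intro y hy
  rw [mem_states_iff] at hy
  obtain ⟨u, v, rfl, rfl⟩ := hy
  refine ⟨u.foldl N.dl s, ?_, ?_⟩
  · rw [mem_states_iff]; exact ⟨u, v, rfl, rfl⟩
  · rw [foldl_dl, foldl_d2]

theorem states_of_states_d2 {s : ℤ × ℤ} {w : List α} :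
    ∀ t ∈ states N.dl s w, t.2 ∈ states N.d2 s.2 w := by
  intro t ht
  rw [mem_states_iff] at ht
  obtain ⟨u, v, rfl, rfl⟩ := ht
  rw [mem_states_iff]
  exact ⟨u, v, rfl, by rw [foldl_dl, foldl_d2]⟩

variable (N)

/-- Exchange the two places. -/
def swap : Net α := ⟨N.p2, N.q2, N.p1, N.q1⟩

/-- Reverse all letters. -/
def rev : Net α := ⟨N.q1, N.p1, N.q2, N.p2⟩

variable {N}

theorem foldl_swap (s : ℤ × ℤ) (w : List α) :
    w.foldl N.swap.dl s.swap = (w.foldl N.dl s).swap := by
  rw [foldl_dl, foldl_dl]; rfl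

theorem run_swap (s : ℤ × ℤ) (w : List α) : N.swap.Run s.swap w ↔ N.Run s w := by
  induction w generalizing s with
  | nil => exact Iff.rfl
  | cons l w ih =>
    have h1 : N.swap.dl s.swap l = (N.dl s l).swap := rfl
    have h2 : N.swap.ok s.swap l ↔ N.ok s l := by
      simp only [ok, swap, Prod.swap]; exact and_comm
    simp only [Run, path_cons] at ih ⊢
    rw [h1, ih, h2]

theorem states_swap (s t : ℤ × ℤ) (w : List α) :
    t.swap ∈ states N.swap.dl s.swap w ↔ t ∈ states N.dl s w := by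
  rw [mem_states_iff, mem_states_iff]
  constructor
  · rintro ⟨u, v, rfl, h⟩
    refine ⟨u, v, rfl, ?_⟩
    rw [foldl_swap] at h
    exact Prod.swap_injective h
  · rintro ⟨u, v, rfl, rfl⟩
    exact ⟨u, v, rfl, foldl_swap _ _⟩

theorem Bd.swap {k : ℕ} {w : List α} (h : N.Bd k w) : N.swap.Bd k w := by
  intro l hl
  obtain ⟨h1, h2, h3, h4⟩ := h l hl
  exact ⟨h3, h4, h1, h2⟩

theorem Bd.rev {k : ℕ} {w : List α} (h : N.Bd k w) : N.rev.Bd k w := by
  intro l hl
  obtain ⟨h1, h2, h3, h4⟩ := h l hl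
  exact ⟨h2, h1, h4, h3⟩

theorem e1_rev (l : α) : N.rev.e1 l = -N.e1 l := by simp [e1, rev]
theorem e2_rev (l : α) : N.rev.e2 l = -N.e2 l := by simp [e2, rev]

theorem lsum_e1_rev (w : List α) : lsum N.rev.e1 w = -lsum N.e1 w := by
  induction w with
  | nil => rfl
  | cons l w ih => rw [lsum_cons, lsum_cons, ih, e1_rev]; ring

theorem lsum_e2_rev (w : List α) : lsum N.rev.e2 w = -lsum N.e2 w := by
  induction w with
  | nil => rfl
  | cons l w ih => rw [lsum_cons, lsum_cons, ih, e2_rev]; ring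

theorem foldl_rev (s : ℤ × ℤ) (w : List α) :
    w.reverse.foldl N.rev.dl (w.foldl N.dl s) = s := by
  rw [foldl_dl, foldl_dl, lsum_e1_rev, lsum_e2_rev, lsum_perm _ (List.reverse_perm w),
    lsum_perm _ (List.reverse_perm w)]
  ext <;> simp

theorem run_rev (s : ℤ × ℤ) (w : List α) :
    N.rev.Run (w.foldl N.dl s) w.reverse ↔ N.Run s w := by
  induction w generalizing s with
  | nil => exact Iff.rfl
  | cons l w ih =>
    simp only [List.foldl_cons, List.reverse_cons]
    rw [Run, path_append, foldl_rev]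
    have h1 : N.rev.ok (N.dl s l) l ↔ N.ok s l := by
      simp only [ok, rev, dl, e1, e2]
      constructor <;> rintro ⟨h1, h2⟩ <;> constructor <;> linarith
    have h2 := ih (N.dl s l)
    simp only [Run] at h2
    rw [h2]
    simp only [path_cons, path_nil, and_true, Run]
    rw [h1]; exact and_comm

theorem rev_rev : N.rev.rev = N := rfl

/-! ### Excursions along one axis -/

/-- Loops at the level `m` of the second place, fired when the first place is large. -/
theorem loops_run {k : ℕ} {m κ lo hi : ℤ} (hκ0 : 0 ≤ κ) (hκ : κ ≤ lo) :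
    ∀ (L : List (List α)) (x : ℤ), InWin lo hi (lsum N.e1) x L →
      (∀ c ∈ L, N.Bd k c ∧ (k : ℤ) * c.length ≤ κ ∧ Path N.d2 N.ok2 m c ∧ lsum N.e2 c = 0) →
      N.Run (x, m) L.flatten ∧ ∀ t ∈ states N.dl (x, m) L.flatten,
        t.1 ≤ hi + κ ∧ (t.2 ≤ m + κ ∨ t.2 = m) := by
  intro L
  induction L with
  | nil =>
    intro x hx _
    refine ⟨trivial, ?_⟩
    intro t ht
    simp only [List.flatten_nil, states_nil, List.mem_singleton] at ht
    subst ht
    refine ⟨?_, Or.inr rfl⟩
    simp only [InWin] at hx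
    simp only
    linarith
  | cons c L ih =>
    intro x hx hc
    obtain ⟨hx1, hx2⟩ := hx
    obtain ⟨hb, hl, hp, hz⟩ := hc c (by simp)
    obtain ⟨ih1, ih2⟩ := ih _ hx2 (fun c' hc' => hc c' (by simp [hc']))
    have hend : c.foldl N.dl (x, m) = (x + lsum N.e1 c, m) := by
      rw [foldl_dl, hz, add_zero]
    constructor
    · rw [List.flatten_cons, Run, path_append, hend]
      exact ⟨run_of_run2 hb hp (by simp only; linarith), ih1⟩
    · intro t ht
      rw [List.flatten_cons, mem_states_append, hend] at ht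
      rcases ht with ht | ht
      · have := states_near hb t ht
        have h1 := abs_le.1 this.1
        have h2 := abs_le.1 this.2
        simp only at h1 h2
        exact ⟨by linarith, Or.inl (by linarith)⟩
      · exact ih2 t ht

/-- Rearranging an excursion in which the first place is large and the second one small. -/
theorem arm {k E : ℕ} {D : ℤ} {s : ℤ × ℤ} {w : List α} (hb : N.Bd k w) (hrun : N.Run s w)
    (h2 : ∀ t ∈ states N.dl s w, 0 ≤ t.2 ∧ t.2 < E)
    (hs1 : D ≤ s.1) (hs2 : s.1 ≤ D + k)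
    (he1 : D ≤ (w.foldl N.dl s).1) (he2 : (w.foldl N.dl s).1 ≤ D + k)
    (hD : 4 * (k : ℤ) * (E + 1) ^ 2 ≤ D) :
    ∃ w', w.Perm w' ∧ N.Run s w' ∧ ∀ t ∈ states N.dl s w',
      t.1 ≤ D + k + 4 * (k : ℤ) * (E + 1) ^ 2 ∧ t.2 ≤ E + 4 * (k : ℤ) * (E + 1) ^ 2 := by
  classical
  set Eb : ℤ := (k : ℤ) * (E + 1) ^ 2 with hEb
  have hEb0 : 0 ≤ Eb := by positivity
  have hD' : 4 * Eb ≤ D := by rw [hEb]; linarith
  -- the maximal level of the second place
  have hne : (states N.d2 s.2 w).toFinset.Nonempty :=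
    ⟨s.2, by rw [List.mem_toFinset]; exact start_mem_states _ _⟩
  obtain ⟨m, hm, hmax⟩ := Finset.exists_max_image _ id hne
  rw [List.mem_toFinset] at hm
  have hmax' : ∀ y ∈ states N.d2 s.2 w, y ≤ m := fun y hy => hmax y (by
    rw [List.mem_toFinset]; exact hy)
  have hlev : ∀ y ∈ states N.d2 s.2 w, y ∈ Finset.Ico (0 : ℤ) E := by
    intro y hy
    obtain ⟨t, ht, rfl⟩ := states_d2_of_states y hy
    rw [Finset.mem_Ico]; exact h2 t ht
  have hcardF : (Finset.Ico (0 : ℤ) E).card = E := by simp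
  obtain ⟨w1, w2, rfl, hw1⟩ := (mem_states_iff _ _ _).1 hm
  have hrun2 := run2_of_run hrun
  rw [path_append, hw1] at hrun2
  have hst : ∀ y, y ∈ states N.d2 s.2 (w1 ++ w2) ↔ y ∈ states N.d2 s.2 w1 ∨
      y ∈ states N.d2 m w2 := by
    intro y; rw [mem_states_append, hw1]
  obtain ⟨b1, L1, hp1, hl1, hr1, hf1, hc1, hv1, hL1⟩ :=
    decompose (Finset.Ico (0 : ℤ) E) s.2 w1 hrun2.1 (fun y hy => hlev y ((hst y).2 (Or.inl hy)))
  obtain ⟨b2, L2, hp2, hl2, hr2, hf2, hc2, hv2, hL2⟩ :=
    decompose (Finset.Ico (0 : ℤ) E) m w2 hrun2.2 (fun y hy => hlev y ((hst y).2 (Or.inr hy)))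
  rw [hcardF] at hl1 hl2
  rw [hw1] at hf1
  have hb1 : N.Bd k b1 := (hb.left).mono (fun l hl => by
    rw [hp1.mem_iff, List.mem_append]; exact Or.inl hl)
  have hb2 : N.Bd k b2 := (hb.right).mono (fun l hl => by
    rw [hp2.mem_iff, List.mem_append]; exact Or.inl hl)
  have hkb1 : (k : ℤ) * b1.length ≤ Eb := by
    rw [hEb]; apply mul_le_mul_of_nonneg_left _ (by positivity); exact_mod_cast hl1
  have hkb2 : (k : ℤ) * b2.length ≤ Eb := by
    rw [hEb]; apply mul_le_mul_of_nonneg_left _ (by positivity); exact_mod_cast hl2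
  have hEle : (k : ℤ) * E ≤ Eb := by
    rw [hEb]; apply mul_le_mul_of_nonneg_left _ (by positivity); nlinarith
  -- all loops
  have hLL : ∀ c ∈ L1 ++ L2, N.Bd k c ∧ (k : ℤ) * c.length ≤ Eb ∧ Path N.d2 N.ok2 m c ∧
      lsum N.e2 c = 0 := by
    intro c hc
    have aux : ∀ (y : ℤ) (c : List α), N.Bd k c → c.length ≤ E → y ≤ m →
        Path N.d2 N.ok2 y c → c.foldl N.d2 y = y →
        N.Bd k c ∧ (k : ℤ) * c.length ≤ Eb ∧ Path N.d2 N.ok2 m c ∧ lsum N.e2 c = 0 := by
      intro y c hbc hcl hym hpc hfc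
      refine ⟨hbc, ?_, run2_mono hpc hym, ?_⟩
      · refine le_trans ?_ hEle
        apply mul_le_mul_of_nonneg_left _ (by positivity); exact_mod_cast hcl
      · rw [foldl_d2] at hfc; linarith
    rcases List.mem_append.1 hc with hc | hc
    · obtain ⟨_, hcl, y, hy, hpc, hfc⟩ := hL1 c hc
      rw [hcardF] at hcl
      refine aux y c ?_ hcl ?_ hpc hfc
      · exact (hb.left).mono (fun l hl => by
          rw [hp1.mem_iff, List.mem_append]
          exact Or.inr (List.mem_flatten.2 ⟨c, hc, hl⟩))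
      · exact hmax' y ((hst y).2 (Or.inl (hv1 y hy)))
    · obtain ⟨_, hcl, y, hy, hpc, hfc⟩ := hL2 c hc
      rw [hcardF] at hcl
      refine aux y c ?_ hcl ?_ hpc hfc
      · exact (hb.right).mono (fun l hl => by
          rw [hp2.mem_iff, List.mem_append]
          exact Or.inr (List.mem_flatten.2 ⟨c, hc, hl⟩))
      · exact hmax' y ((hst y).2 (Or.inr (hv2 y hy)))
  -- order the loops
  set s0 : ℤ := s.1 + lsum N.e1 b1 with hs0
  set t0 : ℤ := s0 + lsum (lsum N.e1) (L1 ++ L2) with ht0
  have habs1 := abs_le.1 (abs_lsum_le b1 hb1.abs1)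
  have habs2 := abs_le.1 (abs_lsum_le b2 hb2.abs1)
  have htot : (w1 ++ w2).Perm (b1 ++ ((L1 ++ L2).flatten ++ b2)) := by
    have h3 := hp1.append hp2
    refine h3.trans ?_
    simp only [List.append_assoc, List.flatten_append]
    refine List.Perm.append_left _ (List.Perm.append_left _ ?_)
    exact List.perm_append_comm
  have hend : ((w1 ++ w2).foldl N.dl s).1 = t0 + lsum N.e1 b2 := by
    rw [foldl_perm s htot, foldl_dl, lsum_append, lsum_append, lsum_flatten, ht0, hs0]
    simp only; ring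
  rw [hend] at he1 he2
  have hs0lo : D - Eb ≤ s0 := by rw [hs0]; linarith
  have hs0hi : s0 ≤ D + k + Eb := by rw [hs0]; linarith
  have ht0lo : D - Eb ≤ t0 := by linarith
  have ht0hi : t0 ≤ D + k + Eb := by linarith
  obtain ⟨L', hL'p, hL'w⟩ := exists_order (lsum N.e1) Eb (D - 2 * Eb) (D + k + 2 * Eb) t0
    (by linarith) (by linarith) (L1 ++ L2).length (L1 ++ L2) rfl (fun c hc => by
      obtain ⟨h3, h4, _, _⟩ := hLL c hc
      exact (abs_lsum_le c h3.abs1).trans h4) s0 (by linarith) (by linarith) rfl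
  have hLL' : ∀ c ∈ L', N.Bd k c ∧ (k : ℤ) * c.length ≤ Eb ∧ Path N.d2 N.ok2 m c ∧
      lsum N.e2 c = 0 := fun c hc => hLL c (hL'p.mem_iff.2 hc)
  obtain ⟨hlr, hls⟩ := loops_run (N := N) (k := k) (m := m) (κ := Eb) hEb0 (by linarith) L' s0 hL'w hLL'
  have hendb1 : b1.foldl N.dl s = (s0, m) := by
    rw [foldl_dl]
    rw [foldl_d2] at hf1
    ext
    · rfl
    · exact hf1
  have hendL : L'.flatten.foldl N.dl (s0, m) = (t0, m) := by
    rw [foldl_dl, lsum_flatten, lsum_flatten, ← lsum_perm _ hL'p, ← lsum_perm _ hL'p]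
    ext
    · rfl
    · have : ∀ M : List (List α), (∀ c ∈ M, lsum N.e2 c = 0) → lsum (lsum N.e2) M = 0 := by
        intro M hM
        induction M with
        | nil => rfl
        | cons c M ih =>
          rw [lsum_cons, hM c (by simp), ih (fun c' hc' => hM c' (by simp [hc']))]; rfl
      simp only
      rw [this _ (fun c hc => (hLL c hc).2.2.2), add_zero]
  have hmE : m < E := (Finset.mem_Ico.1 (hlev m hm)).2
  have hs2E : 0 ≤ s.2 ∧ s.2 < E := h2 s (start_mem_states _ _)
  refine ⟨b1 ++ (L'.flatten ++ b2), ?_, ?_, ?_⟩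
  · refine htot.trans (List.Perm.append_left _ (List.Perm.append_right _ ?_))
    exact hL'p.flatten
  · rw [Run, path_append, hendb1, path_append, hendL]
    refine ⟨run_of_run2 hb1 hr1 (by linarith), hlr, ?_⟩
    exact run_of_run2 hb2 hr2 (by simp only; linarith)
  · intro t ht
    rw [mem_states_append, hendb1, mem_states_append, hendL] at ht
    rcases ht with ht | ht | ht
    · have := states_near hb1 t ht
      have h3 := abs_le.1 this.1
      have h4 := abs_le.1 this.2
      constructor <;> linarith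
    · obtain ⟨h3, h4⟩ := hls t ht
      constructor
      · linarith
      · rcases h4 with h4 | h4 <;> linarith
    · have := states_near hb2 t ht
      have h3 := abs_le.1 this.1
      have h4 := abs_le.1 this.2
      simp only at h3 h4
      constructor <;> linarith

/-- First excursion with large first coordinate: split it off and rearrange it. -/
theorem excursion {k E : ℕ} {D : ℤ} {s : ℤ × ℤ} {w : List α} (hb : N.Bd k w) (hrun : N.Run s w)
    (hnd : ∀ t ∈ states N.dl s w, t.1 < E ∨ t.2 < E)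
    (hs1 : D < s.1) (hs2 : s.1 ≤ D + k) (hs3 : 0 ≤ s.2)
    (he : (w.foldl N.dl s).1 ≤ D)
    (hD : 4 * (k : ℤ) * (E + 1) ^ 2 + E + k ≤ D) :
    ∃ u u' v, w = u ++ v ∧ u ≠ [] ∧ u.Perm u' ∧ N.Run s u' ∧
      (∀ t ∈ states N.dl s u', t.1 ≤ D + k + 4 * (k : ℤ) * (E + 1) ^ 2 ∧
        t.2 ≤ D + k + 4 * (k : ℤ) * (E + 1) ^ 2) ∧
      (0 ≤ (u.foldl N.dl s).1 ∧ (u.foldl N.dl s).1 ≤ D) ∧
      (0 ≤ (u.foldl N.dl s).2 ∧ (u.foldl N.dl s).2 ≤ D) := by
  have hpos : (0 : ℤ) ≤ 4 * (k : ℤ) * (E + 1) ^ 2 := by positivity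
  have hE0 : (0 : ℤ) ≤ E := by positivity
  have hk0 : (0 : ℤ) ≤ k := by positivity
  obtain ⟨e, l, v, hw, hQ, hl⟩ := first_split (δ := N.dl) (fun t => t.1 ≤ D) s w
    (by simpa using hs1) he
  subst hw
  have hrun' := hrun
  rw [Run, path_append] at hrun'
  have hle := hrun'.2.1
  have hst : ∀ t ∈ states N.dl s e, t ∈ states N.dl s (e ++ l :: v) := by
    intro t ht; rw [mem_states_append]; exact Or.inl ht
  have hnn := states_nonneg hrun (by linarith) hs3
  have hlev : ∀ t ∈ states N.dl s e, 0 ≤ t.2 ∧ t.2 < E := by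
    intro t ht
    refine ⟨(hnn t (hst t ht)).2, ?_⟩
    rcases hnd t (hst t ht) with h | h
    · have := hQ t ht
      simp only [not_le] at this
      linarith
    · exact h
  have hend_e := end_mem_states (δ := N.dl) s e
  have hend1 := hQ _ hend_e
  simp only [not_le] at hend1
  have hbl := (hb.right).mono (v := [l]) (fun l' hl' => by
    simp only [List.mem_singleton] at hl'; subst hl'; simp)
  have hfold : (e ++ [l]).foldl N.dl s = N.dl (e.foldl N.dl s) l := by simp
  rw [hfold] at hl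
  have hab1 := abs_le.1 (hbl.abs1 l (by simp))
  have hab2 := abs_le.1 (hbl.abs2 l (by simp))
  have hend2 : (e.foldl N.dl s).1 ≤ D + k := by
    simp only [dl] at hl; linarith
  obtain ⟨e', hp, hr, hs⟩ := arm (N := N) (k := k) (E := E) (D := D) (s := s) (w := e) hb.left
    hrun'.1 hlev hs1.le hs2 hend1.le hend2 (by linarith)
  have hlv := hlev _ hend_e
  have hfin : (0 ≤ ((e ++ [l]).foldl N.dl s).1 ∧ ((e ++ [l]).foldl N.dl s).1 ≤ D) ∧
      (0 ≤ ((e ++ [l]).foldl N.dl s).2 ∧ ((e ++ [l]).foldl N.dl s).2 ≤ D) := by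
    have hmem : (e ++ [l]).foldl N.dl s ∈ states N.dl s (e ++ l :: v) := by
      rw [mem_states_iff]; exact ⟨e ++ [l], v, by simp, rfl⟩
    have := hnn _ hmem
    refine ⟨⟨this.1, ?_⟩, this.2, ?_⟩
    · rw [hfold]; exact hl
    · rw [hfold]; simp only [dl]; linarith
  refine ⟨e ++ [l], e' ++ [l], v, by simp, by simp, hp.append_right _, ?_, ?_, hfin.1, hfin.2⟩
  · rw [Run, path_append]
    refine ⟨hr, ?_, trivial⟩
    rw [← foldl_perm s hp]; exact hle
  · intro t ht
    rw [mem_states_append] at ht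
    rcases ht with ht | ht
    · obtain ⟨h3, h4⟩ := hs t ht
      constructor <;> linarith
    · rw [← foldl_perm s hp] at ht
      simp only [states_cons, states_nil, List.mem_cons, List.not_mem_nil, or_false] at ht
      rcases ht with rfl | rfl
      · constructor <;> linarith
      · rw [hfold] at hfin
        constructor <;> linarith [hfin.1.2, hfin.2.2]

/-- Case B: a run that never has both coordinates large can be rearranged into a bounded run. -/
theorem caseB {k E : ℕ} {D : ℤ} (hD : 4 * (k : ℤ) * (E + 1) ^ 2 + E + k ≤ D) :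
    ∀ (n : ℕ) (w : List α) (s : ℤ × ℤ), w.length = n → N.Bd k w → N.Run s w →
      (0 ≤ s.1 ∧ s.1 ≤ D) → (0 ≤ s.2 ∧ s.2 ≤ D) →
      (w.foldl N.dl s).1 ≤ D → (w.foldl N.dl s).2 ≤ D →
      (∀ t ∈ states N.dl s w, t.1 < E ∨ t.2 < E) →
      ∃ w', w.Perm w' ∧ N.Run s w' ∧ ∀ t ∈ states N.dl s w',
        t.1 ≤ D + k + 4 * (k : ℤ) * (E + 1) ^ 2 ∧ t.2 ≤ D + k + 4 * (k : ℤ) * (E + 1) ^ 2 := by
  have hpos : (0 : ℤ) ≤ 4 * (k : ℤ) * (E + 1) ^ 2 := by positivity
  have hk0 : (0 : ℤ) ≤ k := by positivity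
  intro n
  induction n using Nat.strong_induction_on with
  | _ n ih =>
    intro w s hn hb hrun hs1 hs2 he1 he2 hnd
    rcases w with _ | ⟨l, w⟩
    · refine ⟨[], List.Perm.refl _, trivial, ?_⟩
      intro t ht
      simp only [states_nil, List.mem_singleton] at ht
      subst ht
      constructor <;> linarith
    · have hbl : N.Bd k [l] := hb.mono (by simp)
      have hbw : N.Bd k w := hb.mono (by intro l' hl'; simp [hl'])
      have hrw : N.Run (N.dl s l) w := hrun.2
      have hab1 := abs_le.1 (hbl.abs1 l (by simp))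
      have hab2 := abs_le.1 (hbl.abs2 l (by simp))
      have hnn := states_nonneg hrun hs1.1 hs2.1
      have hnn1 := hnn (N.dl s l) (by
        simp only [states_cons, List.mem_cons]; exact Or.inr (start_mem_states _ _))
      have hnd1 : ∀ t ∈ states N.dl (N.dl s l) w, t.1 < E ∨ t.2 < E := fun t ht =>
        hnd t (by simp only [states_cons, List.mem_cons]; exact Or.inr ht)
      -- it suffices to treat the rest of the word
      suffices h : ∃ w', w.Perm w' ∧ N.Run (N.dl s l) w' ∧ ∀ t ∈ states N.dl (N.dl s l) w',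
          t.1 ≤ D + k + 4 * (k : ℤ) * (E + 1) ^ 2 ∧ t.2 ≤ D + k + 4 * (k : ℤ) * (E + 1) ^ 2 by
        obtain ⟨w', hp, hr, hs⟩ := h
        refine ⟨l :: w', hp.cons l, ⟨hrun.1, hr⟩, ?_⟩
        intro t ht
        simp only [states_cons, List.mem_cons] at ht
        rcases ht with rfl | ht
        · constructor <;> linarith
        · exact hs t ht
      have hlw : w.length < n := by rw [← hn]; simp
      -- common treatment of an excursion
      have main : (∃ u u' v, w = u ++ v ∧ u ≠ [] ∧ u.Perm u' ∧ N.Run (N.dl s l) u' ∧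
          (∀ t ∈ states N.dl (N.dl s l) u', t.1 ≤ D + k + 4 * (k : ℤ) * (E + 1) ^ 2 ∧
            t.2 ≤ D + k + 4 * (k : ℤ) * (E + 1) ^ 2) ∧
          (0 ≤ (u.foldl N.dl (N.dl s l)).1 ∧ (u.foldl N.dl (N.dl s l)).1 ≤ D) ∧
          (0 ≤ (u.foldl N.dl (N.dl s l)).2 ∧ (u.foldl N.dl (N.dl s l)).2 ≤ D)) →
          ∃ w', w.Perm w' ∧ N.Run (N.dl s l) w' ∧ ∀ t ∈ states N.dl (N.dl s l) w',
          t.1 ≤ D + k + 4 * (k : ℤ) * (E + 1) ^ 2 ∧ t.2 ≤ D + k + 4 * (k : ℤ) * (E + 1) ^ 2 := by
        rintro ⟨u, u', v, rfl, hu0, hp, hr, hs, hf1, hf2⟩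
        have hlv : v.length < n := by
          have : 0 < u.length := List.length_pos_iff.2 hu0
          rw [List.length_append] at hlw; omega
        have hrv := (path_append _ u v).1 hrw
        simp only [List.foldl_cons, List.foldl_append] at he1 he2
        obtain ⟨v', hpv, hrv', hsv⟩ := ih v.length hlv v (u.foldl N.dl (N.dl s l)) rfl
          hbw.right hrv.2 hf1 hf2 he1 he2 (fun t ht => hnd1 t (by
            rw [mem_states_append]; exact Or.inr ht))
        refine ⟨u' ++ v', hp.append hpv, ?_, ?_⟩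
        · rw [Run, path_append, ← foldl_perm _ hp]
          exact ⟨hr, hrv'⟩
        · intro t ht
          rw [mem_states_append, ← foldl_perm _ hp] at ht
          rcases ht with ht | ht
          · exact hs t ht
          · exact hsv t ht
      by_cases hx : (N.dl s l).1 ≤ D
      · by_cases hy : (N.dl s l).2 ≤ D
        · exact ih w.length hlw w (N.dl s l) rfl hbw hrw ⟨hnn1.1, hx⟩ ⟨hnn1.2, hy⟩
            (by simpa using he1) (by simpa using he2) hnd1
        · push Not at hy
          apply main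
          obtain ⟨u, u', v, huv, hu0, hp, hr, hs, hf1, hf2⟩ :=
            excursion (N := N.swap) (k := k) (E := E) (D := D) (s := (N.dl s l).swap) (w := w)
              hbw.swap ((run_swap _ _).2 hrw) (by
                intro t ht
                have h1 : t.swap ∈ states N.dl (N.dl s l) w := by
                  rw [← states_swap]; simpa using ht
                rcases hnd1 _ h1 with h | h
                · exact Or.inr h
                · exact Or.inl h) hy (by
                simp only [Prod.fst_swap, dl]; linarith) (by simpa using hnn1.1) (by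
                rw [foldl_swap]; simpa using he2) hD
          refine ⟨u, u', v, huv, hu0, hp, (run_swap _ _).1 hr, ?_, ?_, ?_⟩
          · intro t ht
            rw [← states_swap] at ht
            have := hs _ ht
            exact ⟨this.2, this.1⟩
          · rw [foldl_swap] at hf2; exact hf2
          · rw [foldl_swap] at hf1; exact hf1
      · push Not at hx
        apply main
        exact excursion hbw hrw hnd1 hx (by simp only [dl]; linarith) hnn1.2
          (by simpa using he1) hD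

/-! ### Runs that reach a doubly large state -/

/-- Extraction, when the first coordinate becomes large first. -/
theorem extract_aux {k E1 : ℕ} {E : ℤ} {s : ℤ × ℤ} {w : List α} (hb : N.Bd k w)
    (hrun : N.Run s w) (hs1 : E ≤ s.1) (hs2 : 0 ≤ s.2)
    (hE : (E1 : ℤ) + k * ((E1 + 1) ^ 2 + 1) ≤ E)
    (he2 : (E1 : ℤ) ≤ (w.foldl N.dl s).2) :
    ∃ u r, w.Perm (u ++ r) ∧ N.Run s u ∧ u.length ≤ (E1 + 1) ^ 2 + 1 ∧
      (E1 : ℤ) ≤ (u.foldl N.dl s).1 ∧ (E1 : ℤ) ≤ (u.foldl N.dl s).2 := by
  classical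
  have hk0 : (0 : ℤ) ≤ k := by positivity
  have hE10 : (0 : ℤ) ≤ E1 := by positivity
  have hp0 : (0 : ℤ) ≤ k * ((E1 + 1) ^ 2 + 1) := by positivity
  by_cases h : (E1 : ℤ) ≤ s.2
  · exact ⟨[], w, by simp, trivial, by simp, by simp only [List.foldl_nil]; linarith, by simpa using h⟩
  · obtain ⟨u, l, v, hw, hQ, hl⟩ := first_split (δ := N.dl) (fun t => (E1 : ℤ) ≤ t.2) s w h he2
    subst hw
    have hrun' := (path_append _ _ _).1 hrun
    have hnn := run2_of_run hrun'.1
    have hlev : ∀ y ∈ states N.d2 s.2 u, y ∈ Finset.Ico (0 : ℤ) E1 := by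
      intro y hy
      obtain ⟨t, ht, rfl⟩ := states_d2_of_states y hy
      rw [Finset.mem_Ico]
      have h1 := hQ t ht
      simp only [not_le] at h1
      refine ⟨?_, h1⟩
      have hnn2 : ∀ (w : List α) (y : ℤ), Path N.d2 N.ok2 y w → 0 ≤ y →
          ∀ z ∈ states N.d2 y w, 0 ≤ z := by
        intro w
        induction w with
        | nil =>
          intro y _ hy z hz
          simp only [states_nil, List.mem_singleton] at hz
          subst hz; exact hy
        | cons a w ih =>
          intro y hp hy z hz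
          simp only [states_cons, List.mem_cons] at hz
          rcases hz with rfl | hz
          · exact hy
          · refine ih _ hp.2 ?_ z hz
            have := hp.1
            simp only [ok2] at this
            simp only [d2, e2]; omega
      exact hnn2 u s.2 hnn hs2 _ (states_of_states_d2 t ht)
    obtain ⟨b, L, hp, hlb, hrb, hfb, -, -, -⟩ :=
      decompose (Finset.Ico (0 : ℤ) E1) s.2 u hnn hlev
    have hcardF : (Finset.Ico (0 : ℤ) (E1 : ℤ)).card = E1 := by simp
    rw [hcardF] at hlb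
    have hbb : N.Bd k b := (hb.left).mono (fun l hl => by
      rw [hp.mem_iff, List.mem_append]; exact Or.inl hl)
    have hkb : (k : ℤ) * b.length ≤ k * (E1 + 1) ^ 2 := by
      apply mul_le_mul_of_nonneg_left _ hk0; exact_mod_cast hlb
    have hkk : (k : ℤ) * ((E1 + 1) ^ 2 + 1) = k * (E1 + 1) ^ 2 + k := by ring
    have hbl : N.Bd k [l] := (hb.right).mono (fun l' hl' => by
      simp only [List.mem_singleton] at hl'; subst hl'; simp)
    have habl := abs_le.1 (hbl.abs1 l (by simp))
    have habs := abs_le.1 (abs_lsum_le b hbb.abs1)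
    have hp1l : (N.p1 l : ℤ) ≤ k := by exact_mod_cast (hbl l (by simp)).1
    have hrl := hrun'.2.1
    have hfb2 : s.2 + lsum N.e2 b = (u.foldl N.dl s).2 := by
      rw [foldl_d2, foldl_d2] at hfb
      rw [foldl_dl]; exact hfb
    refine ⟨b ++ [l], L.flatten ++ v, ?_, ?_, ?_, ?_, ?_⟩
    · have h1 : (u ++ l :: v).Perm ((b ++ L.flatten) ++ l :: v) := hp.append_right _
      refine h1.trans ?_
      simp only [List.append_assoc]
      refine List.Perm.append_left _ ?_
      have h2 : L.flatten ++ l :: v = (L.flatten ++ [l]) ++ v := by simp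
      have h3 : [l] ++ (L.flatten ++ v) = ([l] ++ L.flatten) ++ v := by simp
      rw [h2, h3]
      exact List.Perm.append_right _ List.perm_append_comm
    · rw [Run, path_append]
      refine ⟨run_of_run2 hbb hrb (by linarith), ?_, trivial⟩
      constructor
      · rw [foldl_dl]; simp only; linarith
      · rw [foldl_dl]; simp only; rw [hfb2]; exact hrl.2
    · rw [List.length_append]; simp only [List.length_cons, List.length_nil]; omega
    · rw [foldl_dl, lsum_append]; simp only [lsum_cons, lsum_nil]; linarith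
    · have h1 : ((u ++ [l]).foldl N.dl s).2 = (u.foldl N.dl s).2 + N.e2 l := by simp [dl]
      rw [h1] at hl
      rw [foldl_dl]; simp only [lsum_append, lsum_cons, lsum_nil]; linarith

/-- Extraction lemma: a run from `(0,0)` reaching a doubly large state contains (as a
sub-multiset) a short run from `(0,0)` reaching a doubly large state. -/
theorem extract {k E1 E : ℕ} {w : List α} (hb : N.Bd k w) (hrun : N.Run (0, 0) w) (hE1 : 1 ≤ E)
    (hE : E1 + k * ((E1 + 1) ^ 2 + 1) ≤ E)
    (he1 : (E : ℤ) ≤ (w.foldl N.dl (0, 0)).1) (he2 : (E : ℤ) ≤ (w.foldl N.dl (0, 0)).2) :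
    ∃ u r, w.Perm (u ++ r) ∧ N.Run (0, 0) u ∧
      u.length ≤ (E * E + 1) ^ 2 + 1 + ((E1 + 1) ^ 2 + 1) ∧
      (E1 : ℤ) ≤ (u.foldl N.dl (0, 0)).1 ∧ (E1 : ℤ) ≤ (u.foldl N.dl (0, 0)).2 := by
  classical
  have hE' : (E1 : ℤ) + k * ((E1 + 1) ^ 2 + 1) ≤ E := by exact_mod_cast hE
  have hp0 : (0 : ℤ) ≤ k * ((E1 + 1) ^ 2 + 1) := by positivity
  have hE1' : (1 : ℤ) ≤ E := by exact_mod_cast hE1
  obtain ⟨u, l, v, hw, hQ, hl⟩ := first_split (δ := N.dl)
    (fun t => (E : ℤ) ≤ t.1 ∨ (E : ℤ) ≤ t.2) (0, 0) w (by simp; omega) (Or.inl he1)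
  subst hw
  have hrun' := (path_append _ _ _).1 hrun
  have hnn := states_nonneg hrun le_rfl le_rfl
  have hbox : ∀ t ∈ states N.dl (0, 0) u, t ∈ (Finset.Ico (0 : ℤ) E) ×ˢ (Finset.Ico (0 : ℤ) E) := by
    intro t ht
    have h1 := hQ t ht
    have h2 := hnn t (by rw [mem_states_append]; exact Or.inl ht)
    push Not at h1
    rw [Finset.mem_product, Finset.mem_Ico, Finset.mem_Ico]
    exact ⟨⟨h2.1, h1.1⟩, h2.2, h1.2⟩
  obtain ⟨b, L, hp, hlb, hrb, hfb, -, -, -⟩ := decompose _ (0, 0) u hrun'.1 hbox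
  have hcardF : ((Finset.Ico (0 : ℤ) E) ×ˢ (Finset.Ico (0 : ℤ) E)).card = E * E := by simp
  rw [hcardF] at hlb
  set s1 := (u ++ [l]).foldl N.dl (0, 0) with hs1
  have hs1' : s1 = (b ++ [l]).foldl N.dl (0, 0) := by
    rw [hs1, List.foldl_append, List.foldl_append, hfb]
  have hrv : N.Run s1 v := by
    rw [hs1, List.foldl_append]; exact hrun'.2.2
  have hendv : v.foldl N.dl s1 = (u ++ l :: v).foldl N.dl (0, 0) := by
    rw [hs1, ← List.foldl_append]; simp
  have hs1n : 0 ≤ s1.1 ∧ 0 ≤ s1.2 := by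
    apply hnn
    rw [mem_states_iff]; exact ⟨u ++ [l], v, by simp, rfl⟩
  have hbv : N.Bd k v := (hb.right).mono (by intro l' hl'; simp [hl'])
  have hrbl : N.Run (0, 0) (b ++ [l]) := by
    rw [Run, path_append]
    refine ⟨hrb, ?_, trivial⟩
    rw [hfb]; exact hrun'.2.1
  -- get the second part
  have key : ∃ u' r', v.Perm (u' ++ r') ∧ N.Run s1 u' ∧ u'.length ≤ (E1 + 1) ^ 2 + 1 ∧
      (E1 : ℤ) ≤ (u'.foldl N.dl s1).1 ∧ (E1 : ℤ) ≤ (u'.foldl N.dl s1).2 := by
    rcases hl with hl | hl
    · exact extract_aux (E := (E : ℤ)) hbv hrv hl hs1n.2 hE' (by rw [hendv]; linarith)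
    · obtain ⟨u', r', h1, h2, h3, h4, h5⟩ := extract_aux (N := N.swap) (E := (E : ℤ)) hbv.swap
        ((run_swap s1 v).2 hrv) (by simpa using hl) (by simpa using hs1n.1) hE' (by
          rw [foldl_swap, hendv]; simp only [Prod.snd_swap]; linarith)
      rw [foldl_swap] at h4 h5
      exact ⟨u', r', h1, (run_swap _ _).1 h2, h3, h5, h4⟩
  obtain ⟨u', r', hpv, hru', hlu', h4, h5⟩ := key
  refine ⟨(b ++ [l]) ++ u', L.flatten ++ r', ?_, ?_, ?_, ?_, ?_⟩
  · have h6 : (u ++ l :: v).Perm ((b ++ L.flatten) ++ l :: (u' ++ r')) :=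
      hp.append (hpv.cons l)
    refine h6.trans ?_
    simp only [List.append_assoc]
    refine List.Perm.append_left _ ?_
    have h7 : L.flatten ++ l :: (u' ++ r') = (L.flatten ++ ([l] ++ u')) ++ r' := by simp
    have h8 : [l] ++ (u' ++ (L.flatten ++ r')) = (([l] ++ u') ++ L.flatten) ++ r' := by simp
    rw [h7, h8]
    exact List.Perm.append_right _ List.perm_append_comm
  · rw [Run, path_append, ← hs1']
    exact ⟨hrbl, hru'⟩
  · simp only [List.length_append, List.length_cons, List.length_nil]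
    omega
  · rw [List.foldl_append, ← hs1']; exact h4
  · rw [List.foldl_append, ← hs1']; exact h5

/-- Firing blocks whose sums move monotonically. -/
theorem blocks_run {k G : ℕ} (d1 d2 : ℤ) :
    ∀ (L : List (List α)) (s : ℤ × ℤ),
      (∀ B ∈ L, SignOK d1 (lsum N.e1 B) ∧ SignOK d2 (lsum N.e2 B) ∧ B.length ≤ G ∧ N.Bd k B) →
      (k : ℤ) * G ≤ s.1 → (k : ℤ) * G ≤ s.2 →
      (k : ℤ) * G ≤ s.1 + lsum N.e1 L.flatten → (k : ℤ) * G ≤ s.2 + lsum N.e2 L.flatten →
      N.Run s L.flatten ∧ ∀ t ∈ states N.dl s L.flatten,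
        t.1 ≤ max s.1 (s.1 + lsum N.e1 L.flatten) + k * G ∧
        t.2 ≤ max s.2 (s.2 + lsum N.e2 L.flatten) + k * G := by
  intro L
  have hkG : (0 : ℤ) ≤ k * G := by positivity
  have hsign : ∀ (f : α → ℤ) (d : ℤ) (M : List (List α)), (∀ B ∈ M, SignOK d (lsum f B)) →
      (0 ≤ d → 0 ≤ lsum f M.flatten) ∧ (d ≤ 0 → lsum f M.flatten ≤ 0) := by
    intro f d M hM
    induction M with
    | nil => simp
    | cons B M ih =>
      have h1 := hM B (by simp)
      have h2 := ih (fun B' hB' => hM B' (by simp [hB']))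
      simp only [List.flatten_cons, lsum_append]
      exact ⟨fun h => add_nonneg (h1.1 h) (h2.1 h), fun h => add_nonpos (h1.2 h) (h2.2 h)⟩
  induction L with
  | nil =>
    intro s _ h1 h2 _ _
    refine ⟨trivial, ?_⟩
    intro t ht
    simp only [List.flatten_nil, states_nil, List.mem_singleton] at ht
    subst ht
    simp only [List.flatten_nil, lsum_nil, add_zero, max_self]
    constructor <;> linarith
  | cons B L ih =>
    intro s hB h1 h2 h3 h4
    obtain ⟨hB1, hB2, hB3, hB4⟩ := hB B (by simp)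
    have hL1 := hsign N.e1 d1 L (fun B' hB' => (hB B' (by simp [hB'])).1)
    have hL2 := hsign N.e2 d2 L (fun B' hB' => (hB B' (by simp [hB'])).2.1)
    simp only [List.flatten_cons, lsum_append] at h3 h4
    have hBG : (k : ℤ) * B.length ≤ k * G := by
      apply mul_le_mul_of_nonneg_left _ (by positivity); exact_mod_cast hB3
    set s' := B.foldl N.dl s with hs'
    have hs'1 : s'.1 = s.1 + lsum N.e1 B := by rw [hs', foldl_dl]
    have hs'2 : s'.2 = s.2 + lsum N.e2 B := by rw [hs', foldl_dl]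
    have h5 : (k : ℤ) * G ≤ s'.1 := by
      rw [hs'1]
      rcases le_total 0 d1 with h | h
      · have := hB1.1 h; linarith
      · have := hL1.2 h; linarith
    have h6 : (k : ℤ) * G ≤ s'.2 := by
      rw [hs'2]
      rcases le_total 0 d2 with h | h
      · have := hB2.1 h; linarith
      · have := hL2.2 h; linarith
    obtain ⟨ih1, ih2⟩ := ih s' (fun B' hB' => hB B' (by simp [hB'])) h5 h6
      (by rw [hs'1]; linarith) (by rw [hs'2]; linarith)
    constructor
    · rw [List.flatten_cons, Run, path_append]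
      exact ⟨run_deep hB4 (by linarith) (by linarith), ih1⟩
    · intro t ht
      rw [List.flatten_cons, mem_states_append] at ht
      simp only [List.flatten_cons, lsum_append]
      rcases ht with ht | ht
      · have := states_near hB4 t ht
        have h7 := abs_le.1 this.1
        have h8 := abs_le.1 this.2
        constructor
        · have := le_max_left s.1 (s.1 + (lsum N.e1 B + lsum N.e1 L.flatten)); linarith
        · have := le_max_left s.2 (s.2 + (lsum N.e2 B + lsum N.e2 L.flatten)); linarith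
      · have h7 := ih2 t ht
        rw [hs'1, hs'2] at h7
        constructor
        · have hm : max (s.1 + lsum N.e1 B) (s.1 + lsum N.e1 B + lsum N.e1 L.flatten) ≤
              max s.1 (s.1 + (lsum N.e1 B + lsum N.e1 L.flatten)) := by
            rcases le_total 0 d1 with h | h
            · have h8 := hB1.1 h
              have h9 := hL1.1 h
              exact max_le (le_max_of_le_right (by linarith)) (le_max_of_le_right (by linarith))
            · have h8 := hB1.2 h
              have h9 := hL1.2 h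
              exact max_le (le_max_of_le_left (by linarith)) (le_max_of_le_right (by linarith))
          linarith [h7.1]
        · have hm : max (s.2 + lsum N.e2 B) (s.2 + lsum N.e2 B + lsum N.e2 L.flatten) ≤
              max s.2 (s.2 + (lsum N.e2 B + lsum N.e2 L.flatten)) := by
            rcases le_total 0 d2 with h | h
            · have h8 := hB2.1 h
              have h9 := hL2.1 h
              exact max_le (le_max_of_le_right (by linarith)) (le_max_of_le_right (by linarith))
            · have h8 := hB2.2 h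
              have h9 := hL2.2 h
              exact max_le (le_max_of_le_left (by linarith)) (le_max_of_le_right (by linarith))
          linarith [h7.2]

/-! ### The box theorem -/

/-- Constants of the box theorem. -/
def cE1 (k : ℕ) : ℕ := k * blk k + 1
def cE (k : ℕ) : ℕ := cE1 k + k * ((cE1 k + 1) ^ 2 + 1)
def cD (k : ℕ) : ℕ := 4 * k * (cE k + 1) ^ 2 + cE k + k
def cL (k : ℕ) : ℕ := (cE k * cE k + 1) ^ 2 + 1 + ((cE1 k + 1) ^ 2 + 1)
def cH (k : ℕ) : ℕ := cD k + k + 4 * k * (cE k + 1) ^ 2 + k * cL k + k * blk k + k * cL k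

/-- Every closed run at `(0,0)` can be rearranged into a closed run which stays in a box whose
size depends only on the size of the letters. -/
theorem box {k : ℕ} (hk : 1 ≤ k) {w : List α} (hb : N.Bd k w) (hrun : N.Run (0, 0) w)
    (hc : w.foldl N.dl (0, 0) = (0, 0)) :
    ∃ w', w.Perm w' ∧ N.Run (0, 0) w' ∧
      ∀ t ∈ states N.dl (0, 0) w', (0 ≤ t.1 ∧ t.1 ≤ cH k) ∧ (0 ≤ t.2 ∧ t.2 ≤ cH k) := by
  classical
  have hk0 : (0 : ℤ) ≤ k := by positivity
  suffices h : ∃ w', w.Perm w' ∧ N.Run (0, 0) w' ∧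
      ∀ t ∈ states N.dl (0, 0) w', t.1 ≤ cH k ∧ t.2 ≤ cH k by
    obtain ⟨w', h1, h2, h3⟩ := h
    refine ⟨w', h1, h2, fun t ht => ?_⟩
    have := states_nonneg h2 le_rfl le_rfl t ht
    exact ⟨⟨this.1, (h3 t ht).1⟩, this.2, (h3 t ht).2⟩
  by_cases hdeep : ∃ t ∈ states N.dl (0, 0) w, (cE k : ℤ) ≤ t.1 ∧ (cE k : ℤ) ≤ t.2
  · obtain ⟨t, ht, ht1, ht2⟩ := hdeep
    obtain ⟨u, v, rfl, rfl⟩ := (mem_states_iff _ _ _).1 ht
    have hrun' := (path_append _ _ _).1 hrun
    have hcE : 1 ≤ cE k := by unfold cE cE1; omega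
    obtain ⟨u1, r1, hp1, hr1, hl1, ha1, hb1⟩ := extract (E1 := cE1 k) (E := cE k) hb.left hrun'.1
      hcE le_rfl ht1 ht2
    -- the reversed suffix
    have hend : v.foldl N.dl (u.foldl N.dl (0, 0)) = (0, 0) := by
      rw [← List.foldl_append]; exact hc
    have hrv : N.rev.Run (0, 0) v.reverse := by
      have := (run_rev (N := N) (u.foldl N.dl (0, 0)) v).2 hrun'.2
      rwa [hend] at this
    have hfv : v.reverse.foldl N.rev.dl (0, 0) = u.foldl N.dl (0, 0) := by
      have := foldl_rev (N := N) (u.foldl N.dl (0, 0)) v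
      rwa [hend] at this
    have hbv : N.rev.Bd k v.reverse := (hb.right).rev.mono (by intro l hl; simpa using hl)
    obtain ⟨u2, r2, hp2, hr2, hl2, ha2, hb2⟩ := extract (N := N.rev) (E1 := cE1 k) (E := cE k) hbv
      hrv hcE le_rfl (by rw [hfv]; exact ht1) (by rw [hfv]; exact ht2)
    set p := u1.foldl N.dl (0, 0) with hp
    set q := u2.foldl N.rev.dl (0, 0) with hq
    -- the final part
    have hfq : u2.reverse.foldl N.dl q = (0, 0) := by
      have := foldl_rev (N := N.rev) (0, 0) u2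
      rwa [rev_rev] at this
    have hrq : N.Run q u2.reverse := by
      have := (run_rev (N := N.rev) (0, 0) u2).2 hr2
      rwa [rev_rev] at this
    -- the middle part
    set mid := r1 ++ r2 with hmid
    have hbmid : N.Bd k mid := by
      intro l hl
      rcases List.mem_append.1 hl with hl | hl
      · exact hb l (by rw [List.mem_append, hp1.mem_iff, List.mem_append]; exact Or.inl (Or.inr hl))
      · exact hb l (by
          rw [List.mem_append]; refine Or.inr ?_
          rw [← List.mem_reverse, hp2.mem_iff, List.mem_append]; exact Or.inr hl)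
    have hpu : (u ++ v).Perm (u1 ++ (mid ++ u2.reverse)) := by
      have h1 : v.Perm (u2 ++ r2) := (List.reverse_perm v).symm.trans hp2
      have h2 := hp1.append h1
      refine h2.trans ?_
      simp only [hmid, List.append_assoc]
      refine List.Perm.append_left _ (List.Perm.append_left _ ?_)
      exact List.perm_append_comm.trans (List.Perm.append_left _ (List.reverse_perm u2).symm)
    obtain ⟨L, hL, hLB⟩ := exists_blocks_sign N.e1 N.e2 k hk mid hbmid.abs1 hbmid.abs2
    have hLB' : ∀ B ∈ L, SignOK (lsum N.e1 mid) (lsum N.e1 B) ∧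
        SignOK (lsum N.e2 mid) (lsum N.e2 B) ∧ B.length ≤ blk k ∧ N.Bd k B := by
      intro B hB
      obtain ⟨h1, h2, h3⟩ := hLB B hB
      refine ⟨h1, h2, h3, hbmid.mono ?_⟩
      intro l hl
      rw [hL.mem_iff, List.mem_flatten]; exact ⟨B, hB, hl⟩
    have hbu1 : N.Bd k u1 := (hb.left).mono (fun l hl => by
      rw [hp1.mem_iff, List.mem_append]; exact Or.inl hl)
    have hbu2 : N.rev.Bd k u2 := hbv.mono (fun l hl => by
      rw [hp2.mem_iff, List.mem_append]; exact Or.inl hl)
    -- q = p + sums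
    have hsum : (lsum N.e1 (u ++ v) = 0) ∧ (lsum N.e2 (u ++ v) = 0) := by
      rw [foldl_dl] at hc
      have h1 := congrArg Prod.fst hc
      have h2 := congrArg Prod.snd hc
      simp only [zero_add] at h1 h2
      exact ⟨h1, h2⟩
    have hp1' : p.1 = lsum N.e1 u1 := by rw [hp, foldl_dl]; simp
    have hp2' : p.2 = lsum N.e2 u1 := by rw [hp, foldl_dl]; simp
    have hq1' : q.1 = -lsum N.e1 u2 := by rw [hq, foldl_dl, lsum_e1_rev]; simp
    have hq2' : q.2 = -lsum N.e2 u2 := by rw [hq, foldl_dl, lsum_e2_rev]; simp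
    have hmid1 : p.1 + lsum N.e1 L.flatten = q.1 := by
      have h1 := hsum.1
      rw [lsum_perm _ hpu, lsum_append, lsum_append, lsum_perm _ (List.reverse_perm u2)] at h1
      rw [← lsum_perm _ hL, hp1', hq1']; linarith
    have hmid2 : p.2 + lsum N.e2 L.flatten = q.2 := by
      have h1 := hsum.2
      rw [lsum_perm _ hpu, lsum_append, lsum_append, lsum_perm _ (List.reverse_perm u2)] at h1
      rw [← lsum_perm _ hL, hp2', hq2']; linarith
    have hE1k : (k : ℤ) * blk k ≤ cE1 k := by
      have : k * blk k ≤ cE1 k := by unfold cE1; omega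
      exact_mod_cast this
    obtain ⟨hbr, hbs⟩ := blocks_run (N := N) (k := k) (G := blk k) (lsum N.e1 mid)
      (lsum N.e2 mid) L p hLB' (hE1k.trans ha1) (hE1k.trans hb1)
      (by rw [hmid1]; exact hE1k.trans ha2) (by rw [hmid2]; exact hE1k.trans hb2)
    have hfm : L.flatten.foldl N.dl p = q := by
      rw [foldl_dl, hmid1, hmid2]
    rw [hmid1, hmid2] at hbs
    -- bounds
    have hcL1 : (k : ℤ) * u1.length ≤ k * cL k := by
      apply mul_le_mul_of_nonneg_left _ hk0; exact_mod_cast hl1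
    have hcL2 : (k : ℤ) * u2.length ≤ k * cL k := by
      apply mul_le_mul_of_nonneg_left _ hk0; exact_mod_cast hl2
    have hpb := states_near hbu1 p (by rw [hp]; exact end_mem_states _ _)
    have hqb := states_near hbu2 q (by rw [hq]; exact end_mem_states _ _)
    have hp1b := abs_le.1 hpb.1
    have hp2b := abs_le.1 hpb.2
    have hq1b := abs_le.1 hqb.1
    have hq2b := abs_le.1 hqb.2
    simp only [sub_zero] at hp1b hp2b hq1b hq2b
    have hH : (cH k : ℤ) = cD k + k + 4 * k * (cE k + 1) ^ 2 + k * cL k + k * blk k + k * cL k := by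
      unfold cH; push_cast; ring
    have hpos1 : (0 : ℤ) ≤ 4 * k * (cE k + 1) ^ 2 := by positivity
    have hpos2 : (0 : ℤ) ≤ k * cL k := by positivity
    have hpos3 : (0 : ℤ) ≤ k * blk k := by positivity
    have hpos4 : (0 : ℤ) ≤ cD k := by positivity
    refine ⟨u1 ++ (L.flatten ++ u2.reverse), ?_, ?_, ?_⟩
    · refine hpu.trans (List.Perm.append_left _ (List.Perm.append_right _ hL))
    · rw [Run, path_append, path_append, ← hp, hfm]
      exact ⟨hr1, hbr, hrq⟩
    · intro t ht
      rw [mem_states_append, mem_states_append, ← hp, hfm] at ht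
      rcases ht with ht | ht | ht
      · have := states_near hbu1 t ht
        have h3 := abs_le.1 this.1
        have h4 := abs_le.1 this.2
        simp only [sub_zero] at h3 h4
        rw [hH]
        constructor <;> linarith
      · obtain ⟨h3, h4⟩ := hbs t ht
        have h5 : max p.1 q.1 ≤ k * cL k := max_le (by linarith) (by linarith)
        have h6 : max p.2 q.2 ≤ k * cL k := max_le (by linarith) (by linarith)
        rw [hH]
        constructor <;> linarith
      · have hbu2' : N.Bd k u2.reverse := by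
          intro l hl
          have := hbu2 l (by simpa using hl)
          exact ⟨this.2.1, this.1, this.2.2.2, this.2.2.1⟩
        have := states_near hbu2' t ht
        rw [List.length_reverse] at this
        have h3 := abs_le.1 this.1
        have h4 := abs_le.1 this.2
        rw [hH]
        constructor <;> linarith
  · push Not at hdeep
    have hD : 4 * (k : ℤ) * (cE k + 1) ^ 2 + cE k + k ≤ cD k := by
      unfold cD; push_cast; linarith
    have hcD0 : (0 : ℤ) ≤ cD k := by positivity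
    obtain ⟨w', h1, h2, h3⟩ := caseB (N := N) (E := cE k) (D := cD k) hD w.length w (0, 0) rfl hb
      hrun ⟨le_rfl, hcD0⟩ ⟨le_rfl, hcD0⟩ (by rw [hc]; exact hcD0) (by rw [hc]; exact hcD0) (by
        intro t ht
        by_cases h : (cE k : ℤ) ≤ t.1
        · exact Or.inr (hdeep t ht h)
        · exact Or.inl (by linarith [not_le.1 h]))
    refine ⟨w', h1, h2, ?_⟩
    intro t ht
    obtain ⟨h4, h5⟩ := h3 t ht
    have hH : (cH k : ℤ) = cD k + k + 4 * k * (cE k + 1) ^ 2 + k * cL k + k * blk k + k * cL k := by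
      unfold cH; push_cast; ring
    have hpos2 : (0 : ℤ) ≤ k * cL k := by positivity
    have hpos3 : (0 : ℤ) ≤ k * blk k := by positivity
    rw [hH]
    constructor <;> linarith

end Net

end Pool.Agent.Helper77
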