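import Pool.Agent.Helper77.Paths

set_option autoImplicit false

/-!
# Ordering lemmas (weak forms of the Steinitz lemma)
-/

namespace Pool.Agent.Helper77

section Order

variable {ι : Type*}

/-- Sum of a function over a list. -/
def lsum (f : ι → ℤ) (l : List ι) : ℤ := (l.map f).sum

@[simp] theorem lsum_nil (f : ι → ℤ) : lsum f [] = 0 := rfl

@[simp] theorem lsum_cons (f : ι → ℤ) (i : ι) (l : List ι) :
    lsum f (i :: l) = f i + lsum f l := by simp [lsum]

@[simp] theorem lsum_append (f : ι → ℤ) (l m : List ι) :
    lsum f (l ++ m) = lsum f l + lsum f m := by simp [lsum]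

theorem lsum_perm (f : ι → ℤ) {l m : List ι} (h : l.Perm m) : lsum f l = lsum f m :=
  (h.map f).sum_eq

theorem lsum_flatten (f : ι → ℤ) (L : List (List ι)) :
    lsum f L.flatten = lsum (lsum f) L := by
  induction L with
  | nil => rfl
  | cons B L ih => simp [ih]

theorem lsum_le {f : ι → ℤ} {κ : ℤ} (l : List ι) (h : ∀ i ∈ l, f i ≤ κ) :
    lsum f l ≤ κ * l.length := by
  induction l with
  | nil => simp
  | cons i l ih =>
    have h1 := h i (by simp)
    have h2 := ih (fun j hj => h j (by simp [hj]))
    simp only [lsum_cons, List.length_cons, Nat.cast_add, Nat.cast_one]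
    linarith [mul_add κ (l.length : ℤ) 1]

theorem le_lsum {f : ι → ℤ} {κ : ℤ} (l : List ι) (h : ∀ i ∈ l, -κ ≤ f i) :
    -(κ * l.length) ≤ lsum f l := by
  induction l with
  | nil => simp
  | cons i l ih =>
    have h1 := h i (by simp)
    have h2 := ih (fun j hj => h j (by simp [hj]))
    simp only [lsum_cons, List.length_cons, Nat.cast_add, Nat.cast_one]
    linarith [mul_add κ (l.length : ℤ) 1]

/-- All partial sums, started at `s`, stay in `[lo, hi]`. -/
def InWin (lo hi : ℤ) (f : ι → ℤ) : ℤ → List ι → Prop
  | s, [] => lo ≤ s ∧ s ≤ hi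
  | s, i :: l => (lo ≤ s ∧ s ≤ hi) ∧ InWin lo hi f (s + f i) l

/-- One-dimensional ordering lemma. -/
theorem exists_order (f : ι → ℤ) (κ lo hi t : ℤ)
    (hlo : lo + κ ≤ t) (hhi : t + κ ≤ hi) :
    ∀ (n : ℕ) (l : List ι), l.length = n → (∀ i ∈ l, |f i| ≤ κ) →
      ∀ s, lo ≤ s → s ≤ hi → s + lsum f l = t →
      ∃ l', l.Perm l' ∧ InWin lo hi f s l' := by
  classical
  intro n
  induction n with
  | zero =>
    intro l hl _ s h1 h2 _
    have : l = [] := List.length_eq_zero_iff.1 hl
    subst this
    exact ⟨[], List.Perm.refl _, h1, h2⟩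
  | succ n ih =>
    intro l hl hκ s h1 h2 hs
    have hne : l ≠ [] := by rintro rfl; simp at hl
    have hex : ∃ i ∈ l, lo ≤ s + f i ∧ s + f i ≤ hi := by
      by_cases hst : s ≤ t
      · -- need an element with `f i ≥ 0`
        have : ∃ i ∈ l, 0 ≤ f i := by
          by_contra hcon
          push Not at hcon
          have h3 : lsum f l ≤ (-1) * l.length := lsum_le l (fun i hi' => by
            have := hcon i hi'; omega)
          have h4 : (0 : ℤ) < l.length := by
            exact_mod_cast List.length_pos_iff.2 hne
          linarith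
        obtain ⟨i, hi', hfi⟩ := this
        have := abs_le.1 (hκ i hi')
        exact ⟨i, hi', by linarith, by linarith [this.2]⟩
      · have : ∃ i ∈ l, f i ≤ 0 := by
          by_contra hcon
          push Not at hcon
          have h3 : -((-1 : ℤ) * l.length) ≤ lsum f l := le_lsum l (fun i hi' => by
            have := hcon i hi'; omega)
          have h4 : (0 : ℤ) < l.length := by
            exact_mod_cast List.length_pos_iff.2 hne
          push Not at hst
          linarith
        obtain ⟨i, hi', hfi⟩ := this
        have := abs_le.1 (hκ i hi')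
        push Not at hst
        exact ⟨i, hi', by linarith [this.1], by linarith⟩
    obtain ⟨i, hi', hfl, hfh⟩ := hex
    obtain ⟨l₁, l₂, rfl⟩ := List.append_of_mem hi'
    have hperm : (l₁ ++ i :: l₂).Perm (i :: (l₁ ++ l₂)) := List.perm_middle
    have hlen : (l₁ ++ l₂).length = n := by
      have := hperm.length_eq
      simp only [List.length_cons] at this
      omega
    have hsum : s + f i + lsum f (l₁ ++ l₂) = t := by
      rw [lsum_perm f hperm, lsum_cons] at hs
      linarith
    obtain ⟨l', hp, hw⟩ := ih (l₁ ++ l₂) hlen (fun j hj => hκ j (by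
      rw [hperm.mem_iff]; exact List.mem_cons_of_mem _ hj)) (s + f i) hfl hfh hsum
    exact ⟨i :: l', hperm.trans (hp.cons i), ⟨h1, h2⟩, hw⟩

theorem InWin.states {lo hi : ℤ} {f : ι → ℤ} {s : ℤ} {l : List ι} (h : InWin lo hi f s l) :
    ∀ t ∈ states (fun s i => s + f i) s l, lo ≤ t ∧ t ≤ hi := by
  induction l generalizing s with
  | nil =>
    intro t ht
    simp only [states_nil, List.mem_singleton] at ht
    subst ht; exact h
  | cons i l ih =>
    intro t ht
    simp only [states_cons, List.mem_cons] at ht
    rcases ht with rfl | ht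
    · exact h.1
    · exact ih h.2 t ht

theorem foldl_add_eq (f : ι → ℤ) (s : ℤ) (l : List ι) :
    l.foldl (fun s i => s + f i) s = s + lsum f l := by
  induction l generalizing s with
  | nil => simp
  | cons i l ih => simp [ih, add_assoc]

/-- A zero-sum list is, up to permutation, a concatenation of short zero-sum lists. -/
theorem exists_blocks (f : ι → ℤ) (κ : ℕ) :
    ∀ (n : ℕ) (l : List ι), l.length = n → (∀ i ∈ l, |f i| ≤ κ) → lsum f l = 0 →
      ∃ L : List (List ι), l.Perm L.flatten ∧
        ∀ B ∈ L, lsum f B = 0 ∧ B.length ≤ 2 * κ + 1 := by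
  classical
  intro n
  induction n using Nat.strong_induction_on with
  | _ n ih =>
    intro l hl hκ hs
    by_cases hlen : l.length ≤ 2 * κ + 1
    · refine ⟨[l], by simp, ?_⟩
      intro B hB
      rw [List.mem_singleton] at hB
      subst hB
      exact ⟨hs, hlen⟩
    · obtain ⟨l', hp, hw⟩ := exists_order f κ (-κ) κ 0 (by omega) (by omega) l.length l rfl hκ 0
        (by omega) (by omega) (by simpa using hs)
      have hcard : (Finset.Icc (-(κ : ℤ)) κ).card = 2 * κ + 1 := by
        rw [Int.card_Icc]; omega
      obtain ⟨u, c, v, huv, hc0, hclen, hcl⟩ := exists_loop (δ := fun s i => s + f i)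
        (Finset.Icc (-(κ : ℤ)) κ) 0 l' (fun t ht => by
          rw [Finset.mem_Icc]; exact hw.states t ht) (by
          rw [hcard, ← hp.length_eq]; omega)
      rw [foldl_add_eq, foldl_add_eq, lsum_append] at hcl
      have hcz : lsum f c = 0 := by linarith
      rw [hcard] at hclen
      have hperm : l.Perm (c ++ (u ++ v)) := by
        refine hp.trans ?_
        rw [huv, ← List.append_assoc, ← List.append_assoc]
        exact List.Perm.append_right _ List.perm_append_comm
      have hlt : (u ++ v).length < n := by
        have h1 := hperm.length_eq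
        have h2 : 0 < c.length := List.length_pos_iff.2 hc0
        rw [List.length_append] at h1
        omega
      have hsum : lsum f (u ++ v) = 0 := by
        rw [lsum_perm f hperm, lsum_append, hcz, zero_add] at hs
        exact hs
      obtain ⟨L, hL, hB⟩ := ih _ hlt (u ++ v) rfl (fun i hi => hκ i (by
        rw [hperm.mem_iff, List.mem_append]; exact Or.inr hi)) hsum
      refine ⟨c :: L, ?_, ?_⟩
      · rw [List.flatten_cons]
        exact hperm.trans (List.Perm.append_left _ hL)
      · intro B hBm
        rcases List.mem_cons.1 hBm with rfl | hBm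
        · exact ⟨hcz, hclen⟩
        · exact hB B hBm

theorem abs_lsum_le {f : ι → ℤ} {κ : ℤ} (l : List ι) (h : ∀ i ∈ l, |f i| ≤ κ) :
    |lsum f l| ≤ κ * l.length := by
  rw [abs_le]
  exact ⟨le_lsum l (fun i hi => (abs_le.1 (h i hi)).1), lsum_le l (fun i hi => (abs_le.1 (h i hi)).2)⟩

/-- Block size of the two-dimensional block lemma. -/
def blk (κ : ℕ) : ℕ := (2 * (κ * (2 * κ + 1)) + 1) * (2 * κ + 1)

/-- Two-dimensional block lemma. -/
theorem exists_blocks₂ (f g : ι → ℤ) (κ : ℕ) (l : List ι) (hf : ∀ i ∈ l, |f i| ≤ κ)
    (hg : ∀ i ∈ l, |g i| ≤ κ) (hfs : lsum f l = 0) (hgs : lsum g l = 0) :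
    ∃ L : List (List ι), l.Perm L.flatten ∧
        ∀ B ∈ L, lsum f B = 0 ∧ lsum g B = 0 ∧ B.length ≤ blk κ := by
  obtain ⟨L, hL, hB⟩ := exists_blocks f κ l.length l rfl hf hfs
  have hmem : ∀ B ∈ L, ∀ i ∈ B, i ∈ l := by
    intro B hBL i hi
    rw [hL.mem_iff, List.mem_flatten]
    exact ⟨B, hBL, hi⟩
  have hg' : ∀ B ∈ L, |lsum g B| ≤ ((κ * (2 * κ + 1) : ℕ) : ℤ) := by
    intro B hBL
    have h1 : |lsum g B| ≤ κ * B.length := abs_lsum_le B (fun i hi => hg i (hmem B hBL i hi))
    have h2 : B.length ≤ 2 * κ + 1 := (hB B hBL).2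
    have h3 : κ * B.length ≤ κ * (2 * κ + 1) := Nat.mul_le_mul_left _ h2
    calc |lsum g B| ≤ κ * B.length := h1
      _ = ((κ * B.length : ℕ) : ℤ) := by push_cast; ring
      _ ≤ _ := by exact_mod_cast h3
  have hgs' : lsum (lsum g) L = 0 := by
    rw [← lsum_flatten, ← lsum_perm g hL]; exact hgs
  obtain ⟨M, hM, hMB⟩ := exists_blocks (lsum g) (κ * (2 * κ + 1)) L.length L rfl hg' hgs'
  refine ⟨M.map List.flatten, ?_, ?_⟩
  · refine hL.trans ?_
    have h1 : L.flatten.Perm M.flatten.flatten := hM.flatten
    refine h1.trans ?_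
    rw [List.flatten_flatten]
  · intro B hBm
    rw [List.mem_map] at hBm
    obtain ⟨N, hN, rfl⟩ := hBm
    have hNL : ∀ B ∈ N, B ∈ L := by
      intro B hBN
      rw [hM.mem_iff, List.mem_flatten]
      exact ⟨N, hN, hBN⟩
    refine ⟨?_, ?_, ?_⟩
    · rw [lsum_flatten]
      have : ∀ N' : List (List ι), (∀ B ∈ N', B ∈ L) → lsum (lsum f) N' = 0 := by
        intro N' hN'
        induction N' with
        | nil => rfl
        | cons B N' ih =>
          rw [lsum_cons, (hB B (hN' B (by simp))).1, ih (fun B' hB' => hN' B' (by simp [hB']))]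
          rfl
      exact this N hNL
    · rw [lsum_flatten]; exact (hMB N hN).1
    · have h1 := (hMB N hN).2
      have h2 : ∀ N' : List (List ι), (∀ B ∈ N', B ∈ L) →
          N'.flatten.length ≤ N'.length * (2 * κ + 1) := by
        intro N' hN'
        induction N' with
        | nil => simp
        | cons B N' ih =>
          have h3 := (hB B (hN' B (by simp))).2
          have h4 := ih (fun B' hB' => hN' B' (by simp [hB']))
          simp only [List.flatten_cons, List.length_append, List.length_cons]
          rw [Nat.add_mul]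
          omega
      refine (h2 N hNL).trans ?_
      exact Nat.mul_le_mul_right _ h1

/-- Signs of block sums: the block sum never has the sign opposite to that of `d`. -/
def SignOK (d x : ℤ) : Prop := (0 ≤ d → 0 ≤ x) ∧ (d ≤ 0 → x ≤ 0)

/-- Two-dimensional arrangement lemma: a list of bounded vectors is, up to permutation, a
concatenation of short blocks whose sums move monotonically towards the total sum. -/
theorem exists_blocks_sign (f g : ι → ℤ) (κ : ℕ) (hκ : 1 ≤ κ) (l : List ι)
    (hf : ∀ i ∈ l, |f i| ≤ κ) (hg : ∀ i ∈ l, |g i| ≤ κ) :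
    ∃ L : List (List ι), l.Perm L.flatten ∧
        ∀ B ∈ L, SignOK (lsum f l) (lsum f B) ∧ SignOK (lsum g l) (lsum g B) ∧
          B.length ≤ blk κ := by
  classical
  set a := lsum f l with ha
  set b := lsum g l with hb
  let f' : ι ⊕ Bool → ℤ := fun x => match x with
    | Sum.inl i => f i
    | Sum.inr true => -a.sign
    | Sum.inr false => 0
  let g' : ι ⊕ Bool → ℤ := fun x => match x with
    | Sum.inl i => g i
    | Sum.inr true => 0
    | Sum.inr false => -b.sign
  let l' : List (ι ⊕ Bool) := l.map Sum.inl ++
    (List.replicate a.natAbs (Sum.inr true) ++ List.replicate b.natAbs (Sum.inr false))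
  have hsgn : ∀ z : ℤ, |(-z.sign)| ≤ (κ : ℤ) := by
    intro z
    have h1 : (1 : ℤ) ≤ κ := by exact_mod_cast hκ
    rcases lt_trichotomy z 0 with h | h | h
    · rw [Int.sign_eq_neg_one_of_neg h]; simpa using h1
    · subst h; simp
    · rw [Int.sign_eq_one_of_pos h]; simpa using h1
  have hf' : ∀ x ∈ l', |f' x| ≤ κ := by
    intro x hx
    rcases x with i | c
    · simp only [l', List.mem_append, List.mem_map, Sum.inl.injEq, exists_eq_right,
        List.mem_replicate, reduceCtorEq, and_false, or_false] at hx
      exact hf i hx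
    · cases c
      · simp [f']
      · exact hsgn a
  have hg' : ∀ x ∈ l', |g' x| ≤ κ := by
    intro x hx
    rcases x with i | c
    · simp only [l', List.mem_append, List.mem_map, Sum.inl.injEq, exists_eq_right,
        List.mem_replicate, reduceCtorEq, and_false, or_false] at hx
      exact hg i hx
    · cases c
      · exact hsgn b
      · simp [g']
  have hmap : ∀ (h : ι ⊕ Bool → ℤ) (m : List ι), lsum h (m.map Sum.inl) =
      lsum (fun i => h (Sum.inl i)) m := by
    intro h m; simp [lsum, Function.comp_def]
  have hrep : ∀ (h : ι ⊕ Bool → ℤ) (n : ℕ) (x : ι ⊕ Bool),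
      lsum h (List.replicate n x) = n * h x := by
    intro h n x; simp [lsum]
  have hfs : lsum f' l' = 0 := by
    simp only [l', lsum_append, hmap, hrep, f']
    have : lsum (fun i => f i) l = a := rfl
    rw [this]
    have h1 : (a.natAbs : ℤ) * -a.sign = -a := by
      rw [mul_neg, mul_comm, Int.sign_mul_natAbs]
    rw [h1]; ring
  have hgs : lsum g' l' = 0 := by
    simp only [l', lsum_append, hmap, hrep, g']
    have : lsum (fun i => g i) l = b := rfl
    rw [this]
    have h1 : (b.natAbs : ℤ) * -b.sign = -b := by
      rw [mul_neg, mul_comm, Int.sign_mul_natAbs]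
    rw [h1]; ring
  obtain ⟨L, hL, hB⟩ := exists_blocks₂ f' g' κ l' hf' hg' hfs hgs
  -- real part of a block
  let re : List (ι ⊕ Bool) → List ι := fun B => B.filterMap Sum.getLeft?
  refine ⟨L.map re, ?_, ?_⟩
  · have h1 : (l'.filterMap Sum.getLeft?).Perm (L.flatten.filterMap Sum.getLeft?) :=
      hL.filterMap _
    have h2 : l'.filterMap Sum.getLeft? = l := by
      simp only [l', List.filterMap_append, List.filterMap_map]
      have h3 : (List.replicate a.natAbs (Sum.inr true : ι ⊕ Bool)).filterMap Sum.getLeft? = [] := by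
        rw [List.filterMap_eq_nil_iff]
        intro x hx
        rw [List.eq_of_mem_replicate hx]; rfl
      have h4 : (List.replicate b.natAbs (Sum.inr false : ι ⊕ Bool)).filterMap Sum.getLeft? = [] := by
        rw [List.filterMap_eq_nil_iff]
        intro x hx
        rw [List.eq_of_mem_replicate hx]; rfl
      rw [h3, h4]
      have h5 : ((Sum.getLeft? : ι ⊕ Bool → Option ι) ∘ Sum.inl) = some := by
        funext i; rfl
      rw [h5, List.filterMap_some]
      simp
    rw [h2] at h1
    refine h1.trans ?_
    have h3 : L.flatten.filterMap Sum.getLeft? = (L.map re).flatten := by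
      rw [List.filterMap_flatten]
    rw [h3]
  · intro B hBm
    rw [List.mem_map] at hBm
    obtain ⟨B', hB', rfl⟩ := hBm
    obtain ⟨h1, h2, h3⟩ := hB B' hB'
    have key1 : ∀ B : List (ι ⊕ Bool), ∃ n : ℕ, lsum f' B = lsum f (re B) + n * -a.sign := by
      intro B
      induction B with
      | nil => exact ⟨0, by simp [re]⟩
      | cons x B ih =>
        obtain ⟨n, hn⟩ := ih
        rcases x with i | c
        · refine ⟨n, ?_⟩
          have : re (Sum.inl i :: B) = i :: re B := rfl
          rw [this, lsum_cons, lsum_cons, hn]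
          simp only [f']; ring
        · have : re (Sum.inr c :: B) = re B := rfl
          rw [this, lsum_cons, hn]
          cases c
          · exact ⟨n, by simp [f']⟩
          · exact ⟨n + 1, by simp only [f']; push_cast; ring⟩
    have key2 : ∀ B : List (ι ⊕ Bool), ∃ n : ℕ, lsum g' B = lsum g (re B) + n * -b.sign := by
      intro B
      induction B with
      | nil => exact ⟨0, by simp [re]⟩
      | cons x B ih =>
        obtain ⟨n, hn⟩ := ih
        rcases x with i | c
        · refine ⟨n, ?_⟩
          have : re (Sum.inl i :: B) = i :: re B := rfl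
          rw [this, lsum_cons, lsum_cons, hn]
          simp only [g']; ring
        · have : re (Sum.inr c :: B) = re B := rfl
          rw [this, lsum_cons, hn]
          cases c
          · exact ⟨n + 1, by simp only [g']; push_cast; ring⟩
          · exact ⟨n, by simp [g']⟩
    have sgn : ∀ (d x : ℤ) (n : ℕ), x + n * -d.sign = 0 → SignOK d x := by
      intro d x n hx
      have hx' : x = n * d.sign := by linarith
      constructor
      · intro hd
        rw [hx']
        have : 0 ≤ d.sign := by
          rcases lt_or_eq_of_le hd with h | h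
          · rw [Int.sign_eq_one_of_pos h]; omega
          · rw [← h]; simp
        exact mul_nonneg (by positivity) this
      · intro hd
        rw [hx']
        have : d.sign ≤ 0 := by
          rcases lt_or_eq_of_le hd with h | h
          · rw [Int.sign_eq_neg_one_of_neg h]; omega
          · subst h; simp
        exact mul_nonpos_of_nonneg_of_nonpos (by positivity) this
    refine ⟨?_, ?_, ?_⟩
    · obtain ⟨n, hn⟩ := key1 B'
      exact sgn _ _ n (by rw [← hn]; exact h1)
    · obtain ⟨n, hn⟩ := key2 B'
      exact sgn _ _ n (by rw [← hn]; exact h2)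
    · exact (List.length_filterMap_le _ _).trans h3

end Order

end Pool.Agent.Helper77
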