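import Mathlib

set_option autoImplicit false

/-!
# Paths in deterministic labelled graphs, and loop erasure

`Path δ V s w`: starting from the state `s`, the word `w` can be read; reading a letter `l` in the
state `t` requires `V t l` and leads to the state `δ t l`.
-/

namespace Pool.Agent.Helper77

section Path

variable {σ α : Type*} (δ : σ → α → σ) (V : σ → α → Prop)

/-- All letters of the word are allowed along the way. -/
def Path : σ → List α → Prop
  | _, [] => True
  | s, l :: w => V s l ∧ Path (δ s l) w

/-- The list of visited states, start and end included. -/
def states : σ → List α → List σ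
  | s, [] => [s]
  | s, l :: w => s :: states (δ s l) w

variable {δ V}

@[simp] theorem path_nil (s : σ) : Path δ V s [] := trivial

@[simp] theorem path_cons (s : σ) (l : α) (w : List α) :
    Path δ V s (l :: w) ↔ V s l ∧ Path δ V (δ s l) w := Iff.rfl

theorem path_append (s : σ) (u w : List α) :
    Path δ V s (u ++ w) ↔ Path δ V s u ∧ Path δ V (u.foldl δ s) w := by
  induction u generalizing s with
  | nil => simp
  | cons l u ih => simp [ih, and_assoc]

@[simp] theorem states_nil (s : σ) : states δ s [] = [s] := rfl

@[simp] theorem states_cons (s : σ) (l : α) (w : List α) :
    states δ s (l :: w) = s :: states δ (δ s l) w := rfl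

theorem start_mem_states (s : σ) (w : List α) : s ∈ states δ s w := by
  cases w <;> simp

theorem end_mem_states (s : σ) (w : List α) : w.foldl δ s ∈ states δ s w := by
  induction w generalizing s with
  | nil => simp
  | cons l w ih => simp only [List.foldl_cons, states_cons]; exact List.mem_cons_of_mem _ (ih _)

theorem mem_states_append (s t : σ) (u w : List α) :
    t ∈ states δ s (u ++ w) ↔ t ∈ states δ s u ∨ t ∈ states δ (u.foldl δ s) w := by
  induction u generalizing s with
  | nil =>
    simp only [List.nil_append, states_nil, List.mem_singleton, List.foldl_nil]
    constructor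
    · exact fun h => Or.inr h
    · rintro (rfl | h)
      · exact start_mem_states _ _
      · exact h
  | cons l u ih =>
    simp only [List.cons_append, states_cons, List.mem_cons, List.foldl_cons, ih, or_assoc]

theorem mem_states_iff (s t : σ) (w : List α) :
    t ∈ states δ s w ↔ ∃ u v, w = u ++ v ∧ u.foldl δ s = t := by
  induction w generalizing s with
  | nil =>
    simp only [states_nil, List.mem_singleton]
    constructor
    · rintro rfl; exact ⟨[], [], rfl, rfl⟩
    · rintro ⟨u, v, h, rfl⟩
      have : u = [] := by
        rcases u with _ | ⟨a, u⟩
        · rfl
        · simp at h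
      subst this; rfl
  | cons l w ih =>
    simp only [states_cons, List.mem_cons, ih]
    constructor
    · rintro (rfl | ⟨u, v, rfl, rfl⟩)
      · exact ⟨[], l :: w, rfl, rfl⟩
      · exact ⟨l :: u, v, rfl, rfl⟩
    · rintro ⟨u, v, h, rfl⟩
      rcases u with _ | ⟨a, u⟩
      · exact Or.inl rfl
      · simp only [List.cons_append, List.cons.injEq] at h
        obtain ⟨rfl, rfl⟩ := h
        exact Or.inr ⟨u, v, rfl, rfl⟩

theorem length_states (s : σ) (w : List α) : (states δ s w).length = w.length + 1 := by
  induction w generalizing s with
  | nil => rfl
  | cons l w ih => simp [ih]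

/-- Splitting a word at the first time a property becomes true. -/
theorem first_split (Q : σ → Prop) (s : σ) (w : List α) (h0 : ¬ Q s) (h1 : Q (w.foldl δ s)) :
    ∃ u l v, w = u ++ l :: v ∧ (∀ t ∈ states δ s u, ¬ Q t) ∧ Q ((u ++ [l]).foldl δ s) := by
  classical
  induction w generalizing s with
  | nil => exact absurd h1 h0
  | cons a w ih =>
    by_cases h : Q (δ s a)
    · refine ⟨[], a, w, rfl, ?_, ?_⟩
      · intro t ht
        simp only [states_nil, List.mem_singleton] at ht
        subst ht; exact h0
      · simpa using h
    · obtain ⟨u, l, v, hw, hu, hl⟩ := ih (δ s a) h (by simpa using h1)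
      refine ⟨a :: u, l, v, by simp [hw], ?_, by simpa using hl⟩
      intro t ht
      simp only [states_cons, List.mem_cons] at ht
      rcases ht with rfl | ht
      · exact h0
      · exact hu t ht

/-- Pigeonhole: a long word whose visited states lie in a finite set contains a short loop. -/
theorem exists_loop (F : Finset σ) (s : σ) (w : List α) (hF : ∀ t ∈ states δ s w, t ∈ F)
    (hlen : F.card ≤ w.length) :
    ∃ u c v, w = u ++ (c ++ v) ∧ c ≠ [] ∧ c.length ≤ F.card ∧
      (u ++ c).foldl δ s = u.foldl δ s := by
  classical
  have hmaps : ∀ i ∈ Finset.range (F.card + 1), (w.take i).foldl δ s ∈ F := by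
    intro i _
    apply hF
    rw [mem_states_iff]
    exact ⟨w.take i, w.drop i, (List.take_append_drop i w).symm, rfl⟩
  obtain ⟨i, hi, j, hj, hij, he⟩ := Finset.exists_ne_map_eq_of_card_lt_of_maps_to
    (by simp) hmaps
  -- we may assume `i < j`
  wlog hlt : i < j generalizing i j
  · exact this j hj i hi (Ne.symm hij) he.symm (by omega)
  have hj' : j ≤ F.card := by
    have := Finset.mem_range.1 hj; omega
  refine ⟨w.take i, (w.take j).drop i, w.drop j, ?_, ?_, ?_, ?_⟩
  · rw [← List.append_assoc]
    have h1 : w.take i = (w.take j).take i := by
      rw [List.take_take, min_eq_left hlt.le]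
    rw [h1, List.take_append_drop, List.take_append_drop]
  · intro h
    have := congrArg List.length h
    simp only [List.length_drop, List.length_take, List.length_nil] at this
    omega
  · simp only [List.length_drop, List.length_take]
    omega
  · have h1 : w.take i = (w.take j).take i := by
      rw [List.take_take, min_eq_left hlt.le]
    rw [h1, List.take_append_drop, ← h1]
    exact he.symm

/-- Loop erasure with covering: a word whose visited states lie in a finite set `F` is, up to
permutation, a short word visiting the same states together with short loops based at
visited states. -/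
theorem decompose (F : Finset σ) (s : σ) (w : List α) (hP : Path δ V s w)
    (hF : ∀ t ∈ states δ s w, t ∈ F) :
    ∃ (b : List α) (L : List (List α)), w.Perm (b ++ L.flatten) ∧
      b.length ≤ (F.card + 1) ^ 2 ∧ Path δ V s b ∧ b.foldl δ s = w.foldl δ s ∧
      (∀ t ∈ states δ s w, t ∈ states δ s b) ∧ (∀ t ∈ states δ s b, t ∈ states δ s w) ∧
      ∀ c ∈ L, c ≠ [] ∧ c.length ≤ F.card ∧
        ∃ t ∈ states δ s b, Path δ V t c ∧ c.foldl δ t = t := by
  classical
  -- the invariant of the online algorithm
  have key : ∀ w : List α, Path δ V s w → (∀ t ∈ states δ s w, t ∈ F) →
      ∃ (h r : List α) (L : List (List α)), w.Perm ((h ++ r) ++ L.flatten) ∧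
        h.length + (F.card + 1) ≤ (states δ s h).toFinset.card * (F.card + 1) ∧
        r.length ≤ F.card ∧ Path δ V s (h ++ r) ∧ (h ++ r).foldl δ s = w.foldl δ s ∧
        (∀ t ∈ states δ s w, t ∈ states δ s h) ∧
        (∀ t ∈ states δ s (h ++ r), t ∈ states δ s w) ∧
        ∀ c ∈ L, c ≠ [] ∧ c.length ≤ F.card ∧
          ∃ t ∈ states δ s h, Path δ V t c ∧ c.foldl δ t = t := by
    intro w
    induction w using List.reverseRecOn with
    | nil =>
      intro _ _
      refine ⟨[], [], [], by simp, by simp, by simp, by simp, rfl, ?_, ?_, ?_⟩
      · intro t ht; exact ht
      · intro t ht; exact ht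
      · intro c hc; simp at hc
    | append_singleton w l ih =>
      intro hP hF
      have hPw := ((path_append s w [l]).1 hP).1
      have hPl := ((path_append s w [l]).1 hP).2
      have hsub : ∀ t ∈ states δ s w, t ∈ states δ s (w ++ [l]) := by
        intro t ht; rw [mem_states_append]; exact Or.inl ht
      have hFw : ∀ t ∈ states δ s w, t ∈ F := fun t ht => hF t (hsub t ht)
      obtain ⟨h, r, L, hperm, hh, hr, hpath, hend, hcov, hvis, hL⟩ := ih hPw hFw
      have hend' : (h ++ r ++ [l]).foldl δ s = (w ++ [l]).foldl δ s := by
        simp only [List.foldl_append, List.foldl_cons, List.foldl_nil] at hend ⊢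
        rw [hend]
      have hpath' : Path δ V s (h ++ r ++ [l]) := by
        rw [path_append]
        refine ⟨hpath, ?_⟩
        rw [hend]; exact hPl
      have hperm' : (w ++ [l]).Perm ((h ++ r ++ [l]) ++ L.flatten) := by
        have h1 : (w ++ [l]).Perm (((h ++ r) ++ L.flatten) ++ [l]) := hperm.append_right [l]
        refine h1.trans ?_
        rw [List.append_assoc, List.append_assoc (h ++ r) [l]]
        exact List.Perm.append_left _ List.perm_append_comm
      have hvis' : ∀ t ∈ states δ s (h ++ r ++ [l]), t ∈ states δ s (w ++ [l]) := by
        intro t ht
        rw [mem_states_append] at ht ⊢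
        rcases ht with ht | ht
        · exact Or.inl (hvis t ht)
        · rw [hend] at ht; exact Or.inr ht
      by_cases hnew : (w ++ [l]).foldl δ s ∈ states δ s h
      · -- old state: extend the tail, and cut a loop if it gets too long
        have hcov' : ∀ t ∈ states δ s (w ++ [l]), t ∈ states δ s h := by
          intro t ht
          rw [mem_states_append] at ht
          rcases ht with ht | ht
          · exact hcov t ht
          · simp only [states_cons, states_nil, List.mem_cons, List.not_mem_nil, or_false] at ht
            rcases ht with rfl | rfl
            · exact hcov _ (end_mem_states _ _)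
            · simpa using hnew
        by_cases hlen : (r ++ [l]).length ≤ F.card
        · refine ⟨h, r ++ [l], L, ?_, hh, hlen, ?_, ?_, hcov', ?_, hL⟩
          · rw [← List.append_assoc]; exact hperm'
          · rw [← List.append_assoc]; exact hpath'
          · rw [← List.append_assoc]; exact hend'
          · rw [← List.append_assoc]; exact hvis'
        · have hFr : ∀ t ∈ states δ (h.foldl δ s) (r ++ [l]), t ∈ F := by
            intro t ht
            apply hF
            apply hvis'
            rw [List.append_assoc, mem_states_append]
            exact Or.inr ht
          obtain ⟨u, c, v, huv, hc0, hclen, hcl⟩ :=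
            exists_loop (δ := δ) F (h.foldl δ s) (r ++ [l]) hFr (by omega)
          have hrl : h ++ r ++ [l] = h ++ (u ++ (c ++ v)) := by
            rw [List.append_assoc, huv]
          have hp2 : Path δ V s (h ++ (u ++ (c ++ v))) := hrl ▸ hpath'
          have hp3 := (path_append s h _).1 hp2
          have hp4 := (path_append _ u _).1 hp3.2
          have hp5 := (path_append _ c _).1 hp4.2
          have hcl' : c.foldl δ (u.foldl δ (h.foldl δ s)) = u.foldl δ (h.foldl δ s) := by
            rw [← List.foldl_append]; exact hcl
          have hlenuv : (u ++ v).length ≤ F.card := by
            have h1 : (r ++ [l]).length = (u ++ (c ++ v)).length := by rw [huv]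
            have h2 : 0 < c.length := List.length_pos_iff.2 hc0
            simp only [List.length_append, List.length_cons, List.length_nil] at h1 hlen ⊢
            omega
          refine ⟨h, u ++ v, c :: L, ?_, hh, hlenuv, ?_, ?_, hcov', ?_, ?_⟩
          · refine hperm'.trans ?_
            rw [hrl]
            simp only [List.flatten_cons, List.append_assoc]
            refine List.Perm.append_left _ (List.Perm.append_left _ ?_)
            rw [← List.append_assoc, ← List.append_assoc]
            exact List.Perm.append_right _ List.perm_append_comm
          · rw [path_append, path_append]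
            refine ⟨hp3.1, hp4.1, ?_⟩
            rw [hcl'] at hp5
            exact hp5.2
          · rw [← hend', hrl]
            simp only [List.foldl_append]
            rw [hcl']
          · intro t ht
            apply hvis'
            rw [hrl]
            rw [mem_states_append, mem_states_append] at ht ⊢
            rcases ht with ht | ht | ht
            · exact Or.inl ht
            · exact Or.inr (Or.inl ht)
            · refine Or.inr (Or.inr ?_)
              rw [mem_states_append, hcl']
              exact Or.inr ht
          · intro c' hc'
            rcases List.mem_cons.1 hc' with rfl | hc'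
            · refine ⟨hc0, hclen, u.foldl δ (h.foldl δ s), ?_, hp5.1, hcl'⟩
              apply hcov'
              apply hvis'
              rw [hrl, mem_states_append, mem_states_append]
              exact Or.inr (Or.inl (end_mem_states _ _))
            · exact hL c' hc'
      · -- new state: the tail becomes part of the head
        refine ⟨h ++ r ++ [l], [], L, ?_, ?_, by simp, ?_, ?_, ?_, ?_, ?_⟩
        · simpa using hperm'
        · have hsubset : insert ((w ++ [l]).foldl δ s) (states δ s h).toFinset ⊆
              (states δ s (h ++ r ++ [l])).toFinset := by
            intro t ht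
            rw [Finset.mem_insert] at ht
            rw [List.mem_toFinset]
            rcases ht with rfl | ht
            · rw [← hend']; exact end_mem_states _ _
            · rw [List.mem_toFinset] at ht
              rw [List.append_assoc, mem_states_append]
              exact Or.inl ht
          have hcard := Finset.card_le_card hsubset
          rw [Finset.card_insert_of_notMem (by rw [List.mem_toFinset]; exact hnew)] at hcard
          have h1 : (states δ s h).toFinset.card * (F.card + 1) + (F.card + 1) ≤
              (states δ s (h ++ r ++ [l])).toFinset.card * (F.card + 1) := by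
            calc (states δ s h).toFinset.card * (F.card + 1) + (F.card + 1)
                = ((states δ s h).toFinset.card + 1) * (F.card + 1) := by ring
              _ ≤ _ := Nat.mul_le_mul_right _ hcard
          simp only [List.length_append, List.length_cons, List.length_nil]
          omega
        · simpa using hpath'
        · simpa using hend'
        · intro t ht
          rw [mem_states_append] at ht
          rcases ht with ht | ht
          · rw [List.append_assoc, mem_states_append]
            exact Or.inl (hcov t ht)
          · simp only [states_cons, states_nil, List.mem_cons, List.not_mem_nil, or_false] at ht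
            rcases ht with rfl | rfl
            · rw [List.append_assoc, mem_states_append]
              exact Or.inl (hcov _ (end_mem_states _ _))
            · have : δ (w.foldl δ s) l = (h ++ r ++ [l]).foldl δ s := by
                rw [hend']; simp
              rw [this]
              exact end_mem_states _ _
        · simpa using hvis'
        · intro c hc
          obtain ⟨h1, h2, t, ht, h3⟩ := hL c hc
          refine ⟨h1, h2, t, ?_, h3⟩
          rw [List.append_assoc, mem_states_append]
          exact Or.inl ht
  obtain ⟨h, r, L, hperm, hh, hr, hpath, hend, hcov, hvis, hL⟩ := key w hP hF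
  refine ⟨h ++ r, L, hperm, ?_, hpath, hend, ?_, hvis, ?_⟩
  · have h1 : (states δ s h).toFinset.card ≤ F.card := by
      apply Finset.card_le_card
      intro t ht
      rw [List.mem_toFinset] at ht
      apply hF
      apply hvis
      rw [mem_states_append]
      exact Or.inl ht
    have h2 : (states δ s h).toFinset.card * (F.card + 1) ≤ F.card * (F.card + 1) :=
      Nat.mul_le_mul_right _ h1
    rw [List.length_append]
    nlinarith
  · intro t ht
    rw [mem_states_append]
    exact Or.inl (hcov t ht)
  · intro c hc
    obtain ⟨h1, h2, t, ht, h3⟩ := hL c hc
    refine ⟨h1, h2, t, ?_, h3⟩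
    rw [mem_states_append]
    exact Or.inl ht

end Path

end Pool.Agent.Helper77
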