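import Pool.Agent.Helper77.RunA

set_option autoImplicit false

/-!
# The control is primitive recursive
-/

namespace Pool.Agent.Helper77

open Net

section arith

variable {α : Type*} [Primcodable α] {f g : α → ℕ}

theorem p_add (hf : Primrec f) (hg : Primrec g) : Primrec (fun a => f a + g a) :=
  Primrec.nat_add.comp hf hg
theorem p_mul (hf : Primrec f) (hg : Primrec g) : Primrec (fun a => f a * g a) :=
  Primrec.nat_mul.comp hf hg
theorem p_sub (hf : Primrec f) (hg : Primrec g) : Primrec (fun a => f a - g a) :=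
  Primrec.nat_sub.comp hf hg
theorem p_pow (hf : Primrec f) (hg : Primrec g) : Primrec (fun a => f a ^ g a) := by
  have h : Primrec₂ (fun a b : ℕ => a ^ b) := Primrec₂.unpaired'.1 Nat.Primrec.pow
  exact h.comp hf hg
theorem p_pair (hf : Primrec f) (hg : Primrec g) : Primrec (fun a => Nat.pair (f a) (g a)) :=
  Primrec₂.natPair.comp hf hg
theorem p_u1 (hf : Primrec f) : Primrec (fun a => (f a).unpair.1) :=
  Primrec.fst.comp (Primrec.unpair.comp hf)
theorem p_u2 (hf : Primrec f) : Primrec (fun a => (f a).unpair.2) :=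
  Primrec.snd.comp (Primrec.unpair.comp hf)
theorem p_eqc (hf : Primrec f) (c : ℕ) : PrimrecPred (fun a => f a = c) :=
  Primrec.eq.comp hf (Primrec.const c)
theorem p_ltc (hf : Primrec f) (c : ℕ) : PrimrecPred (fun a => f a < c) :=
  Primrec.nat_lt.comp hf (Primrec.const c)

end arith

/-! ### Letters -/

theorem p_la : Primrec la := by
  have h : Primrec (fun l : ℕ => l) := Primrec.id
  exact Primrec.ite (p_eqc h 0) (Primrec.const 1) (Primrec.ite (p_ltc h 3) (Primrec.const 0)
    (p_u1 (p_sub h (Primrec.const 3))))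

theorem p_lb : Primrec lb := by
  have h : Primrec (fun l : ℕ => l) := Primrec.id
  exact Primrec.ite (p_eqc h 1) (Primrec.const 1) (Primrec.ite (p_ltc h 3) (Primrec.const 0)
    (p_u1 (p_u2 (p_sub h (Primrec.const 3)))))

theorem p_lc : Primrec lc := by
  have h : Primrec (fun l : ℕ => l) := Primrec.id
  exact Primrec.ite (p_eqc h 2) (Primrec.const 1) (Primrec.ite (p_ltc h 3) (Primrec.const 0)
    (p_u2 (p_u2 (p_sub h (Primrec.const 3)))))

theorem p_labl : Primrec labl := by
  have h : Primrec (fun l : ℕ => l) := Primrec.id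
  refine Primrec.ite (p_eqc h 0) (Primrec.const [0]) (Primrec.ite (p_ltc h 3)
    (Primrec.const []) ?_)
  refine Primrec.list_cons.comp (p_sub h (Primrec.const 2)) ?_
  exact Primrec.list_map (Primrec.list_range.comp (p_u1 (p_sub h (Primrec.const 3))))
    (Primrec.const 0).to₂

/-! ### Words and subsets -/

theorem p_words {β : Type*} [Primcodable β] : Primrec₂ (words : List β → ℕ → List (List β)) := by
  have h : Primrec (fun p : List β × ℕ => Nat.rec (motive := fun _ => List (List β)) [[]]
      (fun _ IH => [] :: p.1.flatMap (fun a => IH.map (fun w => a :: w))) p.2) := by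
    have hs : Primrec (fun t : (List β × ℕ) × (ℕ × List (List β)) =>
        ([] : List β) :: t.1.1.flatMap (fun a => t.2.2.map (fun w => a :: w))) := by
      refine Primrec.list_cons.comp (Primrec.const []) ?_
      refine Primrec.list_flatMap (Primrec.fst.comp Primrec.fst) ?_
      refine Primrec.list_map (Primrec.snd.comp (Primrec.snd.comp Primrec.fst)) ?_
      exact (Primrec.list_cons.comp (Primrec.snd.comp Primrec.fst) Primrec.snd).to₂
    exact Primrec.nat_rec' (f := fun p : List β × ℕ => p.2) (g := fun _ => [[]])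
      (h := fun p q => ([] : List β) :: p.1.flatMap (fun a => q.2.map (fun w => a :: w)))
      Primrec.snd (Primrec.const [[]]) hs
  have h' : Primrec (fun p : List β × ℕ => words p.1 p.2) := ?_
  · exact h'.to₂
  refine h.of_eq (fun p => ?_)
  have : ∀ n, (Nat.rec (motive := fun _ => List (List β)) [[]]
      (fun _ IH => [] :: p.1.flatMap (fun a => IH.map (fun w => a :: w))) n : List (List β)) =
      words p.1 n := by
    intro n
    induction n with
    | zero => rfl
    | succ n ih =>
      show _ = [] :: p.1.flatMap (fun a => (words p.1 n).map (fun w => a :: w))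
      rw [← ih]
  exact this p.2

theorem p_subs : Primrec subs := by
  have h : Primrec (fun n : ℕ => Nat.rec (motive := fun _ => List (List ℕ)) [[]]
      (fun m IH => IH ++ IH.map (fun P => m :: P)) n) := by
    have hs : Primrec (fun t : ℕ × (ℕ × List (List ℕ)) =>
        t.2.2 ++ t.2.2.map (fun P => t.2.1 :: P)) := by
      refine Primrec.list_append.comp (Primrec.snd.comp Primrec.snd) ?_
      refine Primrec.list_map (Primrec.snd.comp Primrec.snd) ?_
      exact (Primrec.list_cons.comp (Primrec.fst.comp (Primrec.snd.comp Primrec.fst))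
        Primrec.snd).to₂
    exact Primrec.nat_rec' (f := fun n : ℕ => n) (g := fun _ => [[]])
      (h := fun _ q => q.2 ++ q.2.map (fun P => q.1 :: P))
      Primrec.id (Primrec.const [[]]) hs
  refine h.of_eq (fun n => ?_)
  induction n with
  | zero => rfl
  | succ n ih =>
    show _ = subs n ++ (subs n).map (fun P => n :: P)
    rw [← ih]

/-! ### The brute force procedure -/

theorem p_fstep : Primrec₂ fstep := by
  have s1 : Primrec (fun p : (ℕ × ℕ × ℕ) × ℕ => p.1.1) := Primrec.fst.comp Primrec.fst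
  have s2 : Primrec (fun p : (ℕ × ℕ × ℕ) × ℕ => p.1.2.1) :=
    Primrec.fst.comp (Primrec.snd.comp Primrec.fst)
  have s3 : Primrec (fun p : (ℕ × ℕ × ℕ) × ℕ => p.1.2.2) :=
    Primrec.snd.comp (Primrec.snd.comp Primrec.fst)
  have a : Primrec (fun p : (ℕ × ℕ × ℕ) × ℕ => la p.2) := p_la.comp Primrec.snd
  have b : Primrec (fun p : (ℕ × ℕ × ℕ) × ℕ => lb p.2) := p_lb.comp Primrec.snd
  have c : Primrec (fun p : (ℕ × ℕ × ℕ) × ℕ => lc p.2) := p_lc.comp Primrec.snd
  exact (Primrec.ite ((Primrec.nat_le.comp a s1).and ((Primrec.nat_le.comp b s2).and (p_eqc s3 0)))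
    ((p_add (p_sub s1 a) b).pair ((p_add (p_sub s2 b) c).pair (Primrec.const 0)))
    (Primrec.const (0, 0, 1))).to₂

theorem p_fold : Primrec (fun w : List ℕ => w.foldl fstep (0, 0, 0)) :=
  Primrec.list_foldl Primrec.id (Primrec.const (0, 0, 0))
    (p_fstep.comp (Primrec.fst.comp Primrec.snd) (Primrec.snd.comp Primrec.snd)).to₂

theorem p_count : Primrec₂ (fun (i : ℕ) (l : List ℕ) => l.count i) := by
  have h1 : Primrec₂ (fun (l : List ℕ) (i : ℕ) => l.filter (fun a => a = i)) :=
    PrimrecRel.listFilter (R := fun a b : ℕ => a = b) Primrec.eq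
  have h2 : Primrec (fun p : ℕ × List ℕ => (p.2.filter (fun a => a = p.1)).length) :=
    Primrec.list_length.comp (h1.comp Primrec.snd Primrec.fst)
  have h' : Primrec (fun p : ℕ × List ℕ => p.2.count p.1) := ?_
  · exact h'.to₂
  refine h2.of_eq (fun p => ?_)
  rw [List.count_eq_length_filter]
  congr 1

theorem p_flat : Primrec (fun w : List ℕ => w.flatMap labl) :=
  Primrec.list_flatMap Primrec.id (p_labl.comp Primrec.snd).to₂

theorem p_sdec : PrimrecRel sdec := by
  have h1 : PrimrecRel (fun (i : ℕ) (p : List ℕ × List ℕ) =>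
      (p.1.flatMap labl).count i = p.2.count i) := by
    have a : Primrec (fun t : ℕ × (List ℕ × List ℕ) => (t.2.1.flatMap labl).count t.1) :=
      p_count.comp Primrec.fst (p_flat.comp (Primrec.fst.comp Primrec.snd))
    have b : Primrec (fun t : ℕ × (List ℕ × List ℕ) => t.2.2.count t.1) :=
      p_count.comp Primrec.fst (Primrec.snd.comp Primrec.snd)
    exact Primrec.eq.comp a b
  have h2 : PrimrecRel (fun (w : List ℕ) (p : ℕ × List ℕ) =>
      w.foldl fstep (0, 0, 0) = (0, 0, 0) ∧
        ∀ i ∈ List.range p.1, (w.flatMap labl).count i = p.2.count i) := by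
    have c : PrimrecPred (fun t : List ℕ × (ℕ × List ℕ) =>
        t.1.foldl fstep (0, 0, 0) = (0, 0, 0)) :=
      Primrec.eq.comp (p_fold.comp Primrec.fst) (Primrec.const (0, 0, 0))
    have d : PrimrecPred (fun t : List ℕ × (ℕ × List ℕ) =>
        ∀ i ∈ List.range t.2.1, (t.1.flatMap labl).count i = t.2.2.count i) :=
      h1.forall_mem_list.comp (Primrec.list_range.comp (Primrec.fst.comp Primrec.snd))
        (Primrec.fst.pair (Primrec.snd.comp Primrec.snd))
    exact c.and d
  have h3 : Primrec (fun t : ℕ × List ℕ => words (List.range (t.1 + 2)) (3 * t.2.length)) :=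
    p_words.comp (Primrec.list_range.comp (p_add Primrec.fst (Primrec.const 2)))
      (p_mul (Primrec.const 3) (Primrec.list_length.comp Primrec.snd))
  exact h2.exists_mem_list.comp h3 Primrec.id

/-! ### Reduction -/

theorem p_lrun : Primrec₂ lrun := by
  refine Primrec.list_foldl (f := fun p : List ℕ × List (List ℕ) => p.2)
    (g := fun p => p.1) (h := fun _ q => q.1 ++ (q.1 ++ q.2)) Primrec.snd Primrec.fst ?_
  exact (Primrec.list_append.comp (Primrec.fst.comp Primrec.snd)
    (Primrec.list_append.comp (Primrec.fst.comp Primrec.snd)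
      (Primrec.snd.comp Primrec.snd))).to₂

theorem p_NN : Primrec NN := by
  have i1 : Primrec (fun M : ℕ => M) := Primrec.id
  have c1' : ∀ c : ℕ, Primrec (fun _ : ℕ => c) := fun c => Primrec.const c
  have hblk : Primrec blk :=
    p_mul (p_add (p_mul (c1' 2) (p_mul i1 (p_add (p_mul (c1' 2) i1) (c1' 1)))) (c1' 1))
      (p_add (p_mul (c1' 2) i1) (c1' 1))
  have hE1 : Primrec cE1 := p_add (p_mul i1 hblk) (c1' 1)
  have hE : Primrec cE :=
    p_add hE1 (p_mul i1 (p_add (p_pow (p_add hE1 (c1' 1)) (c1' 2)) (c1' 1)))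
  have hD : Primrec cD :=
    p_add (p_add (p_mul (p_mul (c1' 4) i1) (p_pow (p_add hE (c1' 1)) (c1' 2))) hE) i1
  have hL : Primrec cL :=
    p_add (p_add (p_pow (p_add (p_mul hE hE) (c1' 1)) (c1' 2)) (c1' 1))
      (p_add (p_pow (p_add hE1 (c1' 1)) (c1' 2)) (c1' 1))
  have hH : Primrec cH :=
    p_add (p_add (p_add (p_add (p_add hD i1)
      (p_mul (p_mul (c1' 4) i1) (p_pow (p_add hE (c1' 1)) (c1' 2)))) (p_mul i1 hL))
      (p_mul i1 hblk)) (p_mul i1 hL)
  have hB : Primrec cB :=
    p_pow (p_add (p_mul (p_add hH (c1' 1)) (p_add hH (c1' 1))) (c1' 1)) (c1' 2)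
  have hc0 : Primrec c0 := p_mul hB (p_add i1 (c1' 1))
  have hs : Primrec (fun M : ℕ => M + 1) := p_add i1 (c1' 1)
  have h0 : Primrec (fun M : ℕ => c0 (M + 1)) := hc0.comp hs
  have h1 : Primrec (fun M : ℕ => c1 (M + 1) M) :=
    p_add h0 (p_mul (p_pow (c1' 2) (p_mul h0 i1)) h0)
  exact p_pow (c1' 2) (p_mul (p_pow (c1' 2) (p_pow (c1' 2) (p_mul h0 i1)))
    (p_pow (c1' 2) (p_mul h1 i1)))

theorem p_eqvTest : PrimrecRel (fun (h : List ℕ) (p : ℕ × List ℕ) => eqvTest p.1 h p.2) := by
  have h1 : PrimrecRel (fun (q : List (List ℕ)) (t : ℕ × List ℕ × List ℕ) =>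
      (sdec t.1 (lrun t.2.1 q) ↔ sdec t.1 (lrun t.2.2 q))) := by
    have a : PrimrecPred (fun s : List (List ℕ) × (ℕ × List ℕ × List ℕ) =>
        sdec s.2.1 (lrun s.2.2.1 s.1)) :=
      p_sdec.comp (Primrec.fst.comp Primrec.snd)
        (p_lrun.comp (Primrec.fst.comp (Primrec.snd.comp Primrec.snd)) Primrec.fst)
    have b : PrimrecPred (fun s : List (List ℕ) × (ℕ × List ℕ × List ℕ) =>
        sdec s.2.1 (lrun s.2.2.2 s.1)) :=
      p_sdec.comp (Primrec.fst.comp Primrec.snd)
        (p_lrun.comp (Primrec.snd.comp (Primrec.snd.comp Primrec.snd)) Primrec.fst)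
    refine ((a.and b).or (a.not.and b.not)).of_eq (fun s => ?_)
    tauto
  have h2 : PrimrecRel (fun (L : List (List (List ℕ))) (t : ℕ × List ℕ × List ℕ) =>
      ∀ q ∈ L, (sdec t.1 (lrun t.2.1 q) ↔ sdec t.1 (lrun t.2.2 q))) := h1.forall_mem_list
  have h3 : Primrec (fun s : List ℕ × (ℕ × List ℕ) =>
      words (subs s.2.1) (NN s.2.1 * NN s.2.1)) := by
    have e : Primrec (fun s : List ℕ × (ℕ × List ℕ) => s.2.1) := Primrec.fst.comp Primrec.snd
    exact p_words.comp (p_subs.comp e) (p_mul (p_NN.comp e) (p_NN.comp e))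
  exact h2.comp h3 ((Primrec.fst.comp Primrec.snd).pair
    (Primrec.fst.pair (Primrec.snd.comp Primrec.snd)))

theorem p_cands : Primrec cands := by
  have h : Primrec (fun M : ℕ => words (subs M) (NN M)) := p_words.comp p_subs p_NN
  exact Primrec.list_map h (p_lrun.comp (Primrec.const []) Primrec.snd).to₂

theorem p_red : Primrec₂ red := by
  have h1 : Primrec₂ (fun (L : List (List ℕ)) (p : ℕ × List ℕ) =>
      L.filter (fun h => decide (eqvTest p.1 h p.2))) :=
    PrimrecRel.listFilter (R := fun (h : List ℕ) (p : ℕ × List ℕ) => eqvTest p.1 h p.2) p_eqvTest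
  have h2 : Primrec (fun p : ℕ × List ℕ =>
      (cands p.1).filter (fun h => decide (eqvTest p.1 h p.2))) :=
    h1.comp (p_cands.comp Primrec.fst) Primrec.id
  exact (Primrec.option_getD.comp (Primrec.list_head?.comp h2) (Primrec.const [])).to₂

end Pool.Agent.Helper77
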