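import Pool.Agent.Helper77.Nets

set_option autoImplicit false

/-!
# Pumping decomposition and finite index
-/

namespace Pool.Agent.Helper77

open Net

section Pump

variable {α : Type*} (N : Net α)

/-- Closed runs at `(0,0)`. -/
def Closed (w : List α) : Prop := N.Run (0, 0) w ∧ w.foldl N.dl (0, 0) = (0, 0)

/-- `c` is a loop at a state visited by `W`. -/
def IsPump (W c : List α) : Prop :=
  ∃ t ∈ states N.dl (0, 0) W, N.Run t c ∧ c.foldl N.dl t = t

variable {N}

theorem pump_insert {W : List α} (hW : Closed N W) (cs : List (List α))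
    (hcs : ∀ c ∈ cs, IsPump N W c) :
    ∃ w', (W ++ cs.flatten).Perm w' ∧ Closed N w' ∧
      ∀ t ∈ states N.dl (0, 0) W, t ∈ states N.dl (0, 0) w' := by
  induction cs with
  | nil => exact ⟨W, by simp, hW, fun t ht => ht⟩
  | cons c cs ih =>
    obtain ⟨w', hp, ⟨hr, he⟩, hs⟩ := ih (fun c' hc' => hcs c' (by simp [hc']))
    obtain ⟨t, ht, hrc, hec⟩ := hcs c (by simp)
    obtain ⟨u, v, rfl, hu⟩ := (mem_states_iff _ _ _).1 (hs t ht)
    have hr' := (path_append _ _ _).1 hr
    rw [hu] at hr'
    refine ⟨u ++ (c ++ v), ?_, ⟨?_, ?_⟩, ?_⟩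
    · rw [List.flatten_cons]
      have h1 : (W ++ (c ++ cs.flatten)).Perm (c ++ (W ++ cs.flatten)) := by
        rw [← List.append_assoc, ← List.append_assoc]
        exact List.Perm.append_right _ List.perm_append_comm
      refine h1.trans ((List.Perm.append_left c hp).trans ?_)
      rw [← List.append_assoc, ← List.append_assoc]
      exact List.Perm.append_right _ List.perm_append_comm
    · rw [Run, path_append, hu, path_append, hec]
      exact ⟨hr'.1, hrc, hr'.2⟩
    · rw [List.foldl_append, hu, List.foldl_append, hec, ← hu, ← List.foldl_append]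
      exact he
    · intro t' ht'
      have h1 := hs t' ht'
      rw [mem_states_append, hu] at h1 ⊢
      rcases h1 with h1 | h1
      · exact Or.inl h1
      · refine Or.inr ?_
        rw [mem_states_append, hec]; exact Or.inr h1

/-- Bound for cores and pumps. -/
def cB (k : ℕ) : ℕ := ((cH k + 1) * (cH k + 1) + 1) ^ 2

theorem core {k : ℕ} (hk : 1 ≤ k) {w : List α} (hb : N.Bd k w) (hw : Closed N w) :
    ∃ (W : List α) (L : List (List α)), w.Perm (W ++ L.flatten) ∧ Closed N W ∧
      W.length ≤ cB k ∧ ∀ c ∈ L, c.length ≤ cB k ∧ IsPump N W c := by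
  classical
  obtain ⟨w', hp, hr, hs⟩ := box hk hb hw.1 hw.2
  set F := (Finset.Icc (0 : ℤ) (cH k)) ×ˢ (Finset.Icc (0 : ℤ) (cH k)) with hF
  have hcard : F.card = (cH k + 1) * (cH k + 1) := by
    rw [hF, Finset.card_product, Int.card_Icc]
    have : ((cH k : ℤ) + 1 - 0).toNat = cH k + 1 := by omega
    rw [this]
  obtain ⟨b, L, hpb, hlb, hrb, heb, _, _, hL⟩ := decompose F (0, 0) w' hr (fun t ht => by
    rw [hF, Finset.mem_product, Finset.mem_Icc, Finset.mem_Icc]
    exact hs t ht)
  rw [hcard] at hlb
  refine ⟨b, L, hp.trans hpb, ⟨hrb, ?_⟩, hlb, ?_⟩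
  · rw [heb, ← foldl_perm _ hp]; exact hw.2
  · intro c hc
    obtain ⟨_, hcl, t, ht, h1, h2⟩ := hL c hc
    rw [hcard] at hcl
    refine ⟨?_, t, ht, h1, h2⟩
    unfold cB
    nlinarith

variable (N) (lab : α → Multiset ℕ)

/-- The label of a word. -/
def psi (w : List α) : Multiset ℕ := (w.map lab).sum

@[simp] theorem psi_nil : psi lab [] = 0 := rfl
@[simp] theorem psi_cons (l : α) (w : List α) : psi lab (l :: w) = lab l + psi lab w := by
  simp [psi]
@[simp] theorem psi_append (u w : List α) : psi lab (u ++ w) = psi lab u + psi lab w := by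
  simp [psi]

theorem psi_perm {u w : List α} (h : u.Perm w) : psi lab u = psi lab w := (h.map lab).sum_eq

theorem psi_flatten (L : List (List α)) : psi lab L.flatten = (L.map (psi lab)).sum := by
  induction L with
  | nil => rfl
  | cons c L ih => simp [ih]

/-- The set of labels of closed runs. -/
def Feas (x : Multiset ℕ) : Prop := ∃ w, Closed N w ∧ psi lab w = x

/-- Multisets of numbers `< M` in which every number occurs at most `c` times. -/
def mbox (c M : ℕ) : Finset (Multiset ℕ) := (c • Multiset.range M).powerset.toFinset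

theorem mem_mbox {c M : ℕ} {x : Multiset ℕ} :
    x ∈ mbox c M ↔ (∀ i ∈ x, i < M) ∧ ∀ i, x.count i ≤ c := by
  classical
  unfold mbox
  rw [Multiset.mem_toFinset, Multiset.mem_powerset, Multiset.le_iff_count]
  constructor
  · intro h
    constructor
    · intro i hi
      have h1 := h i
      have h2 : 0 < x.count i := Multiset.count_pos.2 hi
      rw [Multiset.count_nsmul] at h1
      have h3 : 0 < (Multiset.range M).count i := by
        rcases Nat.eq_zero_or_pos ((Multiset.range M).count i) with h4 | h4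
        · rw [h4, mul_zero] at h1; omega
        · exact h4
      rwa [Multiset.count_pos, Multiset.mem_range] at h3
    · intro i
      refine (h i).trans ?_
      rw [Multiset.count_nsmul]
      have h3 : (Multiset.range M).count i ≤ 1 :=
        Multiset.nodup_iff_count_le_one.1 (Multiset.nodup_range M) i
      calc c * (Multiset.range M).count i ≤ c * 1 := Nat.mul_le_mul_left _ h3
        _ = c := by simp
  · rintro ⟨h1, h2⟩ i
    rw [Multiset.count_nsmul]
    by_cases hi : i ∈ x
    · have h3 : i ∈ Multiset.range M := Multiset.mem_range.2 (h1 i hi)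
      rw [Multiset.count_eq_one_of_mem (Multiset.nodup_range M) h3]
      simpa using h2 i
    · rw [Multiset.count_eq_zero_of_notMem hi]; exact Nat.zero_le _

theorem card_mbox (c M : ℕ) : (mbox c M).card ≤ 2 ^ (c * M) := by
  unfold mbox
  refine (Multiset.toFinset_card_le _).trans ?_
  rw [Multiset.card_powerset, Multiset.card_nsmul, Multiset.card_range]

/-- Constants for the finite-index lemma. -/
def c0 (k : ℕ) : ℕ := cB k * (k + 1)
def c1 (k M : ℕ) : ℕ := c0 k + 2 ^ (c0 k * M) * c0 k
def cN (k M : ℕ) : ℕ := 2 ^ (2 ^ 2 ^ (c0 k * M) * 2 ^ (c1 k M * M))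

open Classical in
/-- The finite information about `h` that determines the residual. -/
noncomputable def dat (k M : ℕ) (h : Multiset ℕ) : Finset (Finset (Multiset ℕ) × Multiset ℕ) :=
  ((mbox (c0 k) M).powerset ×ˢ mbox (c1 k M) M).filter
    (fun p => ∃ f : Multiset ℕ → ℕ, h = ∑ v ∈ p.1, f v • v + p.2)

theorem dat_mem (k M : ℕ) (h : Multiset ℕ) :
    dat k M h ∈ ((mbox (c0 k) M).powerset ×ˢ mbox (c1 k M) M).powerset := by
  classical
  rw [Finset.mem_powerset]
  exact Finset.filter_subset _ _

theorem card_dat (k M : ℕ) :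
    (((mbox (c0 k) M).powerset ×ˢ mbox (c1 k M) M).powerset).card ≤ cN k M := by
  rw [Finset.card_powerset, Finset.card_product, Finset.card_powerset]
  unfold cN
  apply Nat.pow_le_pow_right (by norm_num)
  apply Nat.mul_le_mul
  · exact Nat.pow_le_pow_right (by norm_num) (card_mbox _ _)
  · exact card_mbox _ _

variable {N lab}

/-- Local linear representation. -/
theorem feas_linear {k M : ℕ} (hk : 1 ≤ k)
    (hlab : ∀ l, (∀ i ∈ lab l, i < M) →
      (N.p1 l ≤ k ∧ N.q1 l ≤ k ∧ N.p2 l ≤ k ∧ N.q2 l ≤ k) ∧ (lab l).card ≤ k + 1)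
    {x : Multiset ℕ} (hx : Feas N lab x) (hM : ∀ i ∈ x, i < M) :
    ∃ (β : Multiset ℕ) (V : Finset (Multiset ℕ)), β ∈ mbox (c0 k) M ∧ V ⊆ mbox (c0 k) M ∧
      (∃ f : Multiset ℕ → ℕ, x = β + ∑ v ∈ V, f v • v) ∧
      ∀ f : Multiset ℕ → ℕ, Feas N lab (β + ∑ v ∈ V, f v • v) := by
  classical
  obtain ⟨w, hw, rfl⟩ := hx
  have hletter : ∀ l ∈ w, ∀ i ∈ lab l, i < M := by
    intro l hl i hi
    apply hM
    have : ∀ w : List α, l ∈ w → i ∈ psi lab w := by
      intro w
      induction w with
      | nil => intro h; simp at h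
      | cons a w ih =>
        intro h
        rw [psi_cons, Multiset.mem_add]
        rcases List.mem_cons.1 h with rfl | h
        · exact Or.inl hi
        · exact Or.inr (ih h)
    exact this w hl
  have hb : N.Bd k w := fun l hl => (hlab l (hletter l hl)).1
  obtain ⟨W, L, hp, hW, hlW, hL⟩ := core hk hb hw
  have hsmall : ∀ c : List α, (∀ l ∈ c, l ∈ w) → c.length ≤ cB k → psi lab c ∈ mbox (c0 k) M := by
    intro c hc hl
    rw [mem_mbox]
    constructor
    · intro i hi
      have : ∀ c : List α, (∀ l ∈ c, l ∈ w) → i ∈ psi lab c → i < M := by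
        intro c
        induction c with
        | nil => intro _ h; simp at h
        | cons a c ih =>
          intro hc h
          rw [psi_cons, Multiset.mem_add] at h
          rcases h with h | h
          · exact hletter a (hc a (by simp)) i h
          · exact ih (fun l hl => hc l (by simp [hl])) h
      exact this c hc hi
    · intro i
      refine (Multiset.count_le_card _ _).trans ?_
      have : ∀ c : List α, (∀ l ∈ c, l ∈ w) → (psi lab c).card ≤ c.length * (k + 1) := by
        intro c
        induction c with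
        | nil => intro _; simp
        | cons a c ih =>
          intro hc
          rw [psi_cons, Multiset.card_add, List.length_cons, Nat.add_mul, one_mul]
          have h1 := (hlab a (hletter a (hc a (by simp)))).2
          have h2 := ih (fun l hl => hc l (by simp [hl]))
          omega
      refine (this c hc).trans ?_
      exact Nat.mul_le_mul_right _ hl
  have hWw : ∀ l ∈ W, l ∈ w := fun l hl => by
    rw [hp.mem_iff, List.mem_append]; exact Or.inl hl
  have hLw : ∀ c ∈ L, ∀ l ∈ c, l ∈ w := fun c hc l hl => by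
    rw [hp.mem_iff, List.mem_append]; exact Or.inr (List.mem_flatten.2 ⟨c, hc, hl⟩)
  set V : Finset (Multiset ℕ) := (mbox (c0 k) M).filter (fun v => ∃ c, IsPump N W c ∧ psi lab c = v)
    with hV
  refine ⟨psi lab W, V, hsmall W hWw hlW, Finset.filter_subset _ _, ?_, ?_⟩
  · refine ⟨fun v => (L.map (psi lab)).count v, ?_⟩
    rw [psi_perm lab hp, psi_append, psi_flatten]
    congr 1
    rw [Finset.sum_list_count]
    apply Finset.sum_subset
    · intro v hv
      rw [List.mem_toFinset, List.mem_map] at hv
      obtain ⟨c, hc, rfl⟩ := hv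
      rw [hV, Finset.mem_filter]
      exact ⟨hsmall c (hLw c hc) (hL c hc).1, c, (hL c hc).2, rfl⟩
    · intro v _ hv
      rw [List.mem_toFinset] at hv
      rw [List.count_eq_zero_of_not_mem hv, zero_smul]
  · intro f
    have hch : ∀ v : Multiset ℕ, ∃ c, v ∈ V → IsPump N W c ∧ psi lab c = v := by
      intro v
      by_cases hv : v ∈ V
      · rw [hV, Finset.mem_filter] at hv
        obtain ⟨_, c, hc⟩ := hv
        exact ⟨c, fun _ => hc⟩
      · exact ⟨[], fun h => absurd h hv⟩
    choose pc hpc using hch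
    obtain ⟨w', hp', hw', _⟩ := pump_insert hW (V.toList.flatMap (fun v => List.replicate (f v) (pc v)))
      (by
        intro c hc
        rw [List.mem_flatMap] at hc
        obtain ⟨v, hv, hc⟩ := hc
        rw [Finset.mem_toList] at hv
        rw [List.eq_of_mem_replicate hc]
        exact (hpc v hv).1)
    refine ⟨w', hw', ?_⟩
    rw [← psi_perm lab hp', psi_append, psi_flatten]
    congr 1
    have key : ∀ l : List (Multiset ℕ), (∀ v ∈ l, v ∈ V) →
        ((l.flatMap (fun v => List.replicate (f v) (pc v))).map (psi lab)).sum =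
          (l.map (fun v => f v • v)).sum := by
      intro l
      induction l with
      | nil => intro _; rfl
      | cons v l ih =>
        intro hl
        rw [List.flatMap_cons, List.map_append, List.sum_append, List.map_cons, List.sum_cons,
          ih (fun v' hv' => hl v' (by simp [hv']))]
        congr 1
        rw [List.map_replicate, List.sum_replicate, (hpc v (hl v (by simp))).2]
    rw [key _ (fun v hv => by simpa using hv), Finset.sum_map_toList]

/-- The finite-index lemma. -/
theorem dat_residual {k M : ℕ} (hk : 1 ≤ k)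
    (hlab : ∀ l, (∀ i ∈ lab l, i < M) →
      (N.p1 l ≤ k ∧ N.q1 l ≤ k ∧ N.p2 l ≤ k ∧ N.q2 l ≤ k) ∧ (lab l).card ≤ k + 1)
    {h1 h2 : Multiset ℕ} (hM1 : ∀ i ∈ h1, i < M) (hd : dat k M h1 = dat k M h2)
    {j : ℕ} {l : Multiset ℕ} (hMl : ∀ i ∈ l, i < M) (hl : ∀ i, l.count i < 2 ^ j)
    (hx : Feas N lab (2 ^ j • h1 + l)) : Feas N lab (2 ^ j • h2 + l) := by
  classical
  have hpow : 0 < 2 ^ j := by positivity
  obtain ⟨β, V, hβ, hV, ⟨m, hm⟩, hall⟩ := feas_linear hk hlab hx (by
    intro i hi
    rw [Multiset.mem_add] at hi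
    rcases hi with hi | hi
    · exact hM1 i (Multiset.mem_of_mem_nsmul hi)
    · exact hMl i hi)
  set g := ∑ v ∈ V, (m v / 2 ^ j) • v with hg
  set r := ∑ v ∈ V, (m v % 2 ^ j) • v with hr
  have hsplit : ∑ v ∈ V, m v • v = 2 ^ j • g + r := by
    rw [hg, hr, Finset.smul_sum, ← Finset.sum_add_distrib]
    apply Finset.sum_congr rfl
    intro v _
    rw [smul_smul, ← add_smul, Nat.div_add_mod]
  rw [hsplit] at hm
  -- `g ≤ h1`
  have hgle : g ≤ h1 := by
    rw [Multiset.le_iff_count]
    intro i
    have h3 := congrArg (Multiset.count i) hm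
    simp only [Multiset.count_add, Multiset.count_nsmul] at h3
    have h4 := hl i
    by_contra hcon
    push Not at hcon
    have h5 : 2 ^ j * (h1.count i + 1) ≤ 2 ^ j * g.count i := Nat.mul_le_mul_left _ hcon
    rw [mul_add, mul_one] at h5
    omega
  obtain ⟨κ, hκ⟩ := Multiset.le_iff_exists_add.1 hgle
  have hκeq : 2 ^ j • κ + l = β + r := by
    rw [hκ, smul_add] at hm
    have h3 : 2 ^ j • g + (2 ^ j • κ + l) = 2 ^ j • g + (β + r) := by
      rw [← add_assoc, hm]; abel
    exact add_left_cancel h3
  have hκbox : κ ∈ mbox (c1 k M) M := by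
    rw [mem_mbox]
    constructor
    · intro i hi
      apply hM1
      rw [hκ, Multiset.mem_add]; exact Or.inr hi
    · intro i
      have h3 := congrArg (Multiset.count i) hκeq
      simp only [Multiset.count_add, Multiset.count_nsmul] at h3
      have h4 : β.count i ≤ c0 k := (mem_mbox.1 hβ).2 i
      have h5 : r.count i ≤ 2 ^ (c0 k * M) * (2 ^ j * c0 k) := by
        rw [hr, Multiset.count_sum']
        calc ∑ v ∈ V, Multiset.count i ((m v % 2 ^ j) • v)
            ≤ ∑ v ∈ V, 2 ^ j * c0 k := by
              apply Finset.sum_le_sum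
              intro v hv
              rw [Multiset.count_nsmul]
              exact Nat.mul_le_mul (Nat.mod_lt _ hpow).le ((mem_mbox.1 (hV hv)).2 i)
          _ = V.card * (2 ^ j * c0 k) := by rw [Finset.sum_const, smul_eq_mul]
          _ ≤ _ := Nat.mul_le_mul_right _ ((Finset.card_le_card hV).trans (card_mbox _ _))
      have h6 : 2 ^ j * κ.count i ≤ 2 ^ j * c1 k M := by
        calc 2 ^ j * κ.count i ≤ c0 k + 2 ^ (c0 k * M) * (2 ^ j * c0 k) := by omega
          _ ≤ 2 ^ j * c0 k + 2 ^ (c0 k * M) * (2 ^ j * c0 k) := by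
              have : c0 k ≤ 2 ^ j * c0 k := Nat.le_mul_of_pos_left _ hpow
              omega
          _ = 2 ^ j * c1 k M := by unfold c1; ring
      exact Nat.le_of_mul_le_mul_left h6 hpow
  have hmem : (V, κ) ∈ dat k M h1 := by
    unfold dat
    rw [Finset.mem_filter, Finset.mem_product, Finset.mem_powerset]
    exact ⟨⟨hV, hκbox⟩, fun v => m v / 2 ^ j, hκ⟩
  rw [hd] at hmem
  unfold dat at hmem
  rw [Finset.mem_filter] at hmem
  obtain ⟨_, f2, hf2⟩ := hmem
  simp only at hf2
  have hfin : 2 ^ j • h2 + l = β + ∑ v ∈ V, (2 ^ j * f2 v + m v % 2 ^ j) • v := by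
    have h7 : ∑ v ∈ V, (2 ^ j * f2 v + m v % 2 ^ j) • v = 2 ^ j • (∑ v ∈ V, f2 v • v) + r := by
      rw [hr, Finset.smul_sum, ← Finset.sum_add_distrib]
      apply Finset.sum_congr rfl
      intro v _
      rw [add_smul, smul_smul]
    rw [h7, hf2, smul_add, add_assoc, hκeq]; abel
  rw [hfin]
  exact hall _

end Pump

end Pool.Agent.Helper77
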