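import Pool.Agent.Helper77.RunL

set_option autoImplicit false

/-!
# The complete run of the flow shop machine
-/

namespace Pool.Agent.Helper77

open Net

theorem bits_eq (js : List (Fin 3 → ℕ)) :
    ((js.map (fun f => List.ofFn (fun i : Fin 3 => f i))).flatten).flatMap
      (fun m => List.replicate m true ++ [false]) = jbits js := by
  induction js with
  | nil => rfl
  | cons f js ih =>
    have h1 : List.ofFn (fun i : Fin 3 => f i) = [f 0, f 1, f 2] := by
      simp [List.ofFn_succ]
    rw [List.map_cons, List.flatten_cons, List.flatMap_append, ih, h1]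
    simp [jbits, un]

theorem length_jbits (js : List (Fin 3 → ℕ)) : 3 * js.length ≤ (jbits js).length := by
  induction js with
  | nil => simp
  | cons f js ih =>
    have hblen : (jbits (f :: js)).length = f 0 + f 1 + f 2 + 3 + (jbits js).length := by
      simp [jbits, un]; ring
    rw [hblen, List.length_cons]; omega

theorem run_all {B k n : ℕ} (p : Fin n → Fin 3 → ℕ) (T : ℕ) (hk : ∀ j i, p j i ≤ k)
    (hB : Bnd B (Nat.pair k (Nat.pair k k) + 2)) (w : List Bool)
    (hw : w = (T :: (List.ofFn (fun j : Fin n => List.ofFn (fun i : Fin 3 => p j i))).flatten).flatMap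
            (fun m => List.replicate m true ++ [false])) :
    ∃ (m : ℕ) (c' : OC) (b : Bool), ORun CC B m ⟨.ri, 0, w, fun _ => []⟩ c' ∧ c'.dir = .hl b ∧
      c'.I = [] ∧ (b = true ↔ ∃ s, IsSched n p T s) ∧ m ≤ 7 * (w.length + 1) ^ 2 := by
  set K := Nat.pair k (Nat.pair k k) + 2 with hK
  set js := List.ofFn p with hjs
  have hw' : w = List.replicate T true ++ (false :: jbits js) := by
    rw [hw, List.flatMap_cons]
    have h1 : (List.ofFn (fun j : Fin n => List.ofFn (fun i : Fin 3 => p j i))) =
        js.map (fun f => List.ofFn (fun i : Fin 3 => f i)) := by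
      rw [hjs, List.map_ofFn]; rfl
    rw [h1, bits_eq]; simp
  have hlen : js.length = n := by rw [hjs, List.length_ofFn]
  have hjf : ∀ f ∈ js, ∀ i, f i ≤ k := by
    intro f hf i
    rw [hjs, List.mem_ofFn] at hf
    obtain ⟨j, rfl⟩ := hf
    exact hk j i
  -- parse `T`
  obtain ⟨n1, q1, j1, L1, a1, a2, a3, a4, a5, a6, a7⟩ := run_T hB (by omega)
    (false :: jbits js) (T + n) T [] (by intro P hP; simp at hP) (by simp) 0 rfl (Nat.zero_le _) 0
  have e1 : F (bitv (false :: jbits js)) (stq q1) = ((true, 0), (1, 1, 0, [])) := by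
    rw [a3]; simp [F, bitv]
  have hq1 : eq' (1, 1, 0, []) ≤ B :=
    hB.sta _ (by omega) _ (by omega) _ (by omega) [] (by simp) (by simp)
  have b1 : ORun CC B 1 ⟨.ri, q1, false :: jbits js, sv (L1.map ecl) (List.replicate j1 0)⟩
      ⟨.ri, eq' (1, 1, 0, []), jbits js ++ [], sv (L1.map ecl) (List.replicate (j1 + 1) 0)⟩ := by
    refine ORun.one (by simp) ?_ a4 ?_
    · have hx : OC.x ⟨.ri, q1, false :: jbits js,
        sv (L1.map ecl) (List.replicate j1 0)⟩ = 1 := rfl
      rw [hx]; have := hB.two; omega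
    · rw [step_I e1, List.append_nil]; rfl
  -- parse the jobs
  simp only [List.length_nil, Nat.zero_add] at a6
  obtain ⟨n2, q2, j2, M, L2, c1, c2, c3, c4, c5, c6, c7, c8, c9⟩ := run_jobs hB hK [] (T + n) js
    hjf 1 (by omega) L1 a5 (by rw [hlen]; omega) (eq' (1, 1, 0, [])) (stq_eq _) hq1 (j1 + 1)
  have e2 : F (bitv []) (stq q2) = ((true, 0), (6, M, 0, [])) := by
    rw [c3]; simp [F, bitv]
  have hq2 : eq' (6, M, 0, []) ≤ B :=
    hB.sta _ (by omega) _ c6 _ (by omega) [] (by simp) (by simp)
  have b2 : ORun CC B 1 ⟨.ri, q2, [], sv (L2.map ecl) (List.replicate j2 0)⟩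
      ⟨.rv false, eq' (6, M, 0, []), [], sv (L2.map ecl) (List.replicate (j2 + 1) 0)⟩ := by
    refine ORun.one (by simp) (Nat.zero_le _) c4 ?_
    rw [step_I e2]; rfl
  -- reversal
  obtain ⟨q3, d1, d2, d3⟩ := run_rev hB c6 [] L2 c7 (eq' (6, M, 0, [])) (stq_eq _) hq2
    (List.replicate (j2 + 1) 0)
  -- fold
  have hLr : LOK M L2.reverse := fun P hP => c7 P (by simpa using hP)
  obtain ⟨q4, h', V', W', f1, f2, f3⟩ := run_fold hB c6 c5 [] (j2 + 1) L2.reverse hLr []
    (nil_mem_cands M) [] (by intro P hP; simp at hP) (Eqv.refl _ _) q3 d2 d3 [0]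
  have hrun := ((((a2.trans b1).trans c2).trans b2).trans d1).trans f1
  have hstart : (⟨.ri, 0, w, fun _ => []⟩ : OC) =
      ⟨.ri, 0, List.replicate T true ++ (false :: jbits js), sv (([] : List (List ℕ)).map ecl)
        (List.replicate 0 0)⟩ := by
    rw [hw']
    congr 1
    funext b; cases b <;> rfl
  rw [← hstart] at hrun
  refine ⟨_, _, decide (sdec M h'), hrun, rfl, rfl, ?_, ?_⟩
  · rw [decide_eq_true_iff, sdec_iff c5 (cands_lt f2), sched_iff]
    have g1 := f3 [] (by intro P hP; simp at hP)
    rw [mrun_nil, mrun_nil, List.nil_append] at g1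
    have g2 : mrun 0 (L2.reverse.map Multiset.ofList) = lval L2 := rfl
    rw [g1, g2, c9, a7, lval_nil, add_zero]
    have g3 : ((js.map (fun f => jc f + 1) : List ℕ) : Multiset ℕ) + Multiset.replicate T 0 =
        (inst n p T : Multiset ℕ) := by
      unfold inst
      rw [← Multiset.coe_add, Multiset.coe_replicate, hjs, List.map_ofFn, add_comm]
      rfl
    rw [g3]
  · have hL2 : L2.length ≤ T + n := by omega
    have hwl : w.length = T + 1 + (jbits js).length := by
      rw [hw', List.length_append, List.length_replicate, List.length_cons]; ring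
    have hj3 := length_jbits js
    rw [hlen] at hj3 c1
    have hX : T + n ≤ w.length := by omega
    rw [List.length_reverse]
    have h1 : T * (2 * (T + n) + 4) + n * (2 * (T + n) + 3) ≤ (T + n) * (2 * (T + n) + 4) := by
      nlinarith
    have h2 : (T + n) * (2 * (T + n) + 4) ≤ w.length * (2 * w.length + 4) :=
      Nat.mul_le_mul hX (by omega)
    nlinarith

end Pool.Agent.Helper77
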