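import Pool.Agent.Helper77.Ctrl

set_option autoImplicit false

/-!
# Runs of the flow shop machine
-/

namespace Pool.Agent.Helper77

open Net

theorem ORun.one {C : Ctl} {B : ℕ} {c c' : OC} (h : ∀ b, c.dir ≠ .hl b) (hx : c.x ≤ B)
    (hq : c.q ≤ B) (h' : ostep C c = c') : ORun C B 1 c c' := by
  subst h'
  exact ORun.step 0 _ _ h hx hq (ORun.refl _)

theorem pair_mono {a b c d : ℕ} (h : a ≤ c) (h' : b ≤ d) : Nat.pair a b ≤ Nat.pair c d := by
  have h1 : Nat.pair a b ≤ Nat.pair c b := by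
    rcases h.lt_or_eq with h | rfl
    · exact (Nat.pair_lt_pair_left b h).le
    · exact le_rfl
  have h2 : Nat.pair c b ≤ Nat.pair c d := by
    rcases h'.lt_or_eq with h' | rfl
    · exact (Nat.pair_lt_pair_right c h').le
    · exact le_rfl
  exact h1.trans h2

theorem headI_replicate (j : ℕ) : (List.replicate j 0).headI = 0 := by
  cases j <;> rfl

theorem cons_tail_replicate (j : ℕ) : ∃ j', 0 :: (List.replicate j 0).tail = List.replicate j' 0 := by
  cases j with
  | zero => exact ⟨1, rfl⟩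
  | succ j => exact ⟨j + 1, rfl⟩

theorem run_add {B K M a r : ℕ} (hB : Bnd B K) (hM : M ≤ K) (ha : a < M) (hr : r = 2 ∨ r = 3)
    (I : List Bool) : ∀ (L : List (List ℕ)) (_ : LOK M L) (q : ℕ) (_ : stq q = (r, M, a, []))
      (_ : q ≤ B) (Wt : List ℕ), ∃ (n : ℕ) (U V : List ℕ) (q' : ℕ), n ≤ L.length + 1 ∧
        ORun CC B n ⟨.rv false, q, I, sv (L.map ecl) Wt⟩ ⟨.rv true, q', I, sv V (U ++ Wt)⟩ ∧
        stq q' = (r + 2, M, 0, []) ∧ q' ≤ B ∧ U.length ≤ L.length + 1 ∧
        U.reverse ++ V = (addL a L).map ecl := by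
  have hd1 : dirOf true (dtab (r + 2)) (etab (r + 2)) = .rv true := by
    rcases hr with rfl | rfl <;> rfl
  have hd2 : dirOf true (dtab r) (etab r) = .rv false := by
    rcases hr with rfl | rfl <;> rfl
  have hr0 : ¬ r = 0 := by omega
  have hr1 : ¬ r = 1 := by omega
  have hr4 : r < 4 := by omega
  have hq2 : eq' (r + 2, M, 0, []) ≤ B := hB.sta _ (by omega) _ hM _ (by omega) [] (by simp) (by simp)
  have hq1 : eq' (r, M, a, []) ≤ B := hB.sta _ (by omega) _ hM _ (by omega) [] (by simp) (by simp)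
  intro L
  induction L with
  | nil =>
    intro _ q hq hqB Wt
    have h1 : F ([] : List ℕ).headI (stq q) = ((true, ecl [a]), (r + 2, M, 0, [])) := by
      rw [hq]; simp [F, hr0, hr1, hr4, dcl]
    refine ⟨1, [ecl [a]], [], eq' (r + 2, M, 0, []), by simp,
      ORun.one (by simp) (Nat.zero_le _) hqB ?_, stq_eq _, hq2, by simp, by simp [addL]⟩
    rw [List.map_nil, step_V h1, hd1]; rfl
  | cons P L ih =>
    intro hL q hq hqB Wt
    have hx : OC.x ⟨.rv false, q, I, sv ((P :: L).map ecl) Wt⟩ = ecl P := rfl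
    have hxB : ecl P ≤ B := hB.lev P (hL P (by simp)).1
      (fun i hi => ((hL P (by simp)).2 i hi).trans_le hM)
    by_cases hm : a ∈ P
    · have h1 : F ((P :: L).map ecl).headI (stq q) =
          ((true, ecl (P.erase a)), (r, M, a, [])) := by
        rw [hq, (hL P (by simp)).1.erase_eq_filter]
        have hf : P.filter (fun b => decide (b ≠ a)) = P.filter (fun x => x != a) := by
          apply List.filter_congr
          intro x _
          by_cases h : x = a <;> simp [h]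
        rw [← hf]
        simp only [F, hr0, hr1, hr4, List.map_cons, List.headI_cons, dcl_ecl, hm, if_true, if_false]
      obtain ⟨n, U, V, q', g1, g2, g3, g4, g5, g6⟩ := ih (fun Q hQ => hL Q (by simp [hQ]))
        (eq' (r, M, a, [])) (stq_eq _) hq1 (ecl (P.erase a) :: Wt)
      refine ⟨n + 1, U ++ [ecl (P.erase a)], V, q', by simpa using g1, ?_, g3, g4,
        by simpa using g5, ?_⟩
      · refine ORun.step _ _ _ (by simp) (by rw [hx]; exact hxB) hqB ?_
        rw [step_V h1, hd2]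
        simpa using g2
      · simp [addL, hm, g6]
    · have h1 : F ((P :: L).map ecl).headI (stq q) =
          ((true, ecl (a :: P)), (r + 2, M, 0, [])) := by
        rw [hq]; simp [F, hr0, hr1, hr4, dcl_ecl, hm]
      refine ⟨1, [ecl (a :: P)], L.map ecl, eq' (r + 2, M, 0, []), by simp,
        ORun.one (by simp) (by rw [hx]; exact hxB) hqB ?_, stq_eq _, hq2, by simp,
        by simp [addL, hm]⟩
      rw [step_V h1, hd1]; rfl

theorem run_unw {B K M r : ℕ} (hB : Bnd B K) (hM : M ≤ K) (hr : r = 4 ∨ r = 5)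
    (I : List Bool) (j : ℕ) : ∀ (U : List ℕ) (_ : ∀ u ∈ U, u ≠ 0 ∧ u ≤ B) (q : ℕ)
      (_ : stq q = (r, M, 0, [])) (_ : q ≤ B) (V : List ℕ), ∃ (q' j' : ℕ),
        ORun CC B (U.length + 1) ⟨.rv true, q, I, sv V (U ++ List.replicate j 0)⟩
          ⟨.ri, q', I, sv (U.reverse ++ V) (List.replicate j' 0)⟩ ∧
        stq q' = (r - 4, M, 0, []) ∧ q' ≤ B := by
  have hd1 : dirOf true (dtab (r - 4)) (etab (r - 4)) = .ri := by
    rcases hr with rfl | rfl <;> rfl
  have hd2 : dirOf false (dtab r) (etab r) = .rv true := by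
    rcases hr with rfl | rfl <;> rfl
  have hr0 : ¬ r = 0 := by omega
  have hr1 : ¬ r = 1 := by omega
  have hr4 : ¬ r < 4 := by omega
  have hr6 : r < 6 := by omega
  have hq1 : eq' (r - 4, M, 0, []) ≤ B :=
    hB.sta _ (by omega) _ hM _ (by omega) [] (by simp) (by simp)
  have hq2 : eq' (r, M, 0, []) ≤ B := hB.sta _ (by omega) _ hM _ (by omega) [] (by simp) (by simp)
  intro U
  induction U with
  | nil =>
    intro _ q hq hqB V
    obtain ⟨j', hj'⟩ := cons_tail_replicate j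
    have h1 : F (List.replicate j 0).headI (stq q) = ((true, 0), (r - 4, M, 0, [])) := by
      rw [hq, headI_replicate]; simp [F, hr0, hr1, hr4, hr6]
    have hx : OC.x ⟨.rv true, q, I, sv V ([] ++ List.replicate j 0)⟩ = 0 := headI_replicate j
    refine ⟨eq' (r - 4, M, 0, []), j', ORun.one (by simp) (by rw [hx]; exact Nat.zero_le _) hqB ?_,
      stq_eq _, hq1⟩
    rw [List.nil_append, step_W h1, hd1]
    simp only [cond_true, hj', List.reverse_nil, List.nil_append]
  | cons u U ih =>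
    intro hU q hq hqB V
    have hu := hU u (by simp)
    have h1 : F ((u :: U) ++ List.replicate j 0).headI (stq q) = ((false, u), (r, M, 0, [])) := by
      rw [hq]; simp [F, hr0, hr1, hr4, hr6, hu.1]
    have hx : OC.x ⟨.rv true, q, I, sv V ((u :: U) ++ List.replicate j 0)⟩ = u := rfl
    obtain ⟨q', j', g1, g2, g3⟩ := ih (fun v hv => hU v (by simp [hv])) (eq' (r, M, 0, []))
      (stq_eq _) hq2 (u :: V)
    refine ⟨q', j', ORun.step _ _ _ (by simp) (by rw [hx]; exact hu.2) hqB ?_, g2, g3⟩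
    rw [step_W h1, hd2]
    simpa using g1

theorem run_item {B K M a r : ℕ} (hB : Bnd B K) (hM : M ≤ K) (ha : a < M) (hr : r = 0 ∨ r = 1)
    (I : List Bool) (j : ℕ) (L : List (List ℕ)) (hL : LOK M L) (q : ℕ)
    (hq : stq q = (r + 2, M, a, [])) (hqB : q ≤ B) : ∃ (n q' j' : ℕ), n ≤ 2 * L.length + 3 ∧
      ORun CC B n ⟨.rv false, q, I, sv (L.map ecl) (List.replicate j 0)⟩
        ⟨.ri, q', I, sv ((addL a L).map ecl) (List.replicate j' 0)⟩ ∧
      stq q' = (r, M, 0, []) ∧ q' ≤ B := by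
  obtain ⟨n, U, V, q1, g1, g2, g3, g4, g5, g6⟩ := run_add hB hM ha (r := r + 2) (by omega) I L hL
    q hq hqB (List.replicate j 0)
  have hU : ∀ u ∈ U, u ≠ 0 ∧ u ≤ B := by
    intro u hu
    have h1 : u ∈ (addL a L).map ecl := by
      rw [← g6]; simp [hu]
    rw [List.mem_map] at h1
    obtain ⟨P, hP, rfl⟩ := h1
    have h2 := hL.addL ha P hP
    exact ⟨ecl_ne P, hB.lev P h2.1 (fun i hi => (h2.2 i hi).trans_le hM)⟩
  obtain ⟨q', j', k1, k2, k3⟩ := run_unw hB hM (r := r + 2 + 2) (by omega) I j U hU q1 g3 g4 V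
  refine ⟨n + (U.length + 1), q', j', by omega, ?_, ?_, k3⟩
  · rw [← g6]; exact g2.trans k1
  · rw [k2]
    congr 1

theorem run_T {B K : ℕ} (hB : Bnd B K) (hK : 1 ≤ K) (I : List Bool) (X : ℕ) :
    ∀ (T : ℕ) (L : List (List ℕ)) (_ : LOK 1 L) (_ : L.length + T ≤ X) (q : ℕ)
      (_ : stq q = (0, 1, 0, [])) (_ : q ≤ B) (j : ℕ), ∃ (n q' j' : ℕ) (L' : List (List ℕ)),
        n ≤ T * (2 * X + 4) ∧
        ORun CC B n ⟨.ri, q, List.replicate T true ++ I, sv (L.map ecl) (List.replicate j 0)⟩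
          ⟨.ri, q', I, sv (L'.map ecl) (List.replicate j' 0)⟩ ∧
        stq q' = (0, 1, 0, []) ∧ q' ≤ B ∧ LOK 1 L' ∧ L'.length ≤ L.length + T ∧
        lval L' = Multiset.replicate T 0 + lval L := by
  intro T
  induction T with
  | zero =>
    intro L hL _ q hq hqB j
    exact ⟨0, q, j, L, by simp, ORun.refl _, hq, hqB, hL, by simp, by simp⟩
  | succ T ih =>
    intro L hL hX q hq hqB j
    have h1 : F (bitv (true :: (List.replicate T true ++ I))) (stq q) =
        ((true, 0), (2, 1, 0, [])) := by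
      rw [hq]; simp [F, bitv]
    have hq1 : eq' (2, 1, 0, []) ≤ B := hB.sta _ (by omega) _ hK _ (by omega) [] (by simp) (by simp)
    obtain ⟨n1, q1, j1, g1, g2, g3, g4⟩ := run_item hB hK (a := 0) (by omega) (r := 0) (by omega)
      (List.replicate T true ++ I) (j + 1) L hL (eq' (2, 1, 0, [])) (stq_eq _) hq1
    have hlen := length_addL 0 L
    obtain ⟨n2, q2, j2, L', k1, k2, k3, k4, k5, k6, k7⟩ := ih (addL 0 L)
      (hL.addL (by omega)) (by omega) q1 g3 g4 j1
    refine ⟨n1 + n2 + 1, q2, j2, L', ?_, ?_, k3, k4, k5, by omega, ?_⟩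
    · rw [Nat.add_mul, one_mul]; omega
    · refine ORun.step _ _ _ (by simp) ?_ hqB ?_
      · have hx : OC.x ⟨.ri, q, List.replicate (T + 1) true ++ I,
          sv (L.map ecl) (List.replicate j 0)⟩ = 2 := rfl
        rw [hx]; exact hB.two
      · rw [List.replicate_succ, List.cons_append, step_I h1]
        exact g2.trans k2
    · rw [k7, lval_addL, Multiset.replicate_succ, ← Multiset.singleton_add]; abel

theorem run_ones {B K M : ℕ} (hB : Bnd B K) (hM : M ≤ K) (I : List Bool) (V : List ℕ)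
    (l : List ℕ) (hl : l.length ≤ 2) (hlK : ∀ i ∈ l, i ≤ K) :
    ∀ (p a : ℕ) (_ : a + p ≤ K) (q : ℕ) (_ : stq q = (1, M, a, l)) (_ : q ≤ B) (j : ℕ),
      ∃ (q' j' : ℕ),
        ORun CC B p ⟨.ri, q, List.replicate p true ++ I, sv V (List.replicate j 0)⟩
          ⟨.ri, q', I, sv V (List.replicate j' 0)⟩ ∧
        stq q' = (1, M, a + p, l) ∧ q' ≤ B := by
  intro p
  induction p with
  | zero =>
    intro a _ q hq hqB j
    exact ⟨q, j, ORun.refl _, by simpa using hq, hqB⟩
  | succ p ih =>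
    intro a ha q hq hqB j
    have h1 : F (bitv (true :: (List.replicate p true ++ I))) (stq q) =
        ((true, 0), (1, M, a + 1, l)) := by
      rw [hq]; simp [F, bitv]
    have hq1 : eq' (1, M, a + 1, l) ≤ B := hB.sta _ (by omega) _ hM _ (by omega) l hl hlK
    obtain ⟨q', j', g1, g2, g3⟩ := ih (a + 1) (by omega) (eq' (1, M, a + 1, l)) (stq_eq _) hq1
      (j + 1)
    refine ⟨q', j', ORun.step _ _ _ (by simp) ?_ hqB ?_, by rw [g2, Nat.add_right_comm, Nat.add_assoc], g3⟩
    · have hx : OC.x ⟨.ri, q, List.replicate (p + 1) true ++ I, sv V (List.replicate j 0)⟩ = 2 :=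
        rfl
      rw [hx]; exact hB.two
    · rw [List.replicate_succ, List.cons_append, step_I h1]
      exact g1

/-- Unary code of a number. -/
def un (m : ℕ) : List Bool := List.replicate m true ++ [false]

/-- Reading a number which is not the last one of a job. -/
theorem run_num {B K M : ℕ} (hB : Bnd B K) (hM : M ≤ K) (I : List Bool) (V : List ℕ)
    (l : List ℕ) (hl : l.length < 2) (hlK : ∀ i ∈ l, i ≤ K) (p : ℕ) (hp : p ≤ K) (q : ℕ)
    (hq : stq q = (1, M, 0, l)) (hqB : q ≤ B) (j : ℕ) : ∃ (q' j' : ℕ),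
      ORun CC B (p + 1) ⟨.ri, q, un p ++ I, sv V (List.replicate j 0)⟩
        ⟨.ri, q', I, sv V (List.replicate j' 0)⟩ ∧
      stq q' = (1, M, 0, l ++ [p]) ∧ q' ≤ B := by
  obtain ⟨q1, j1, g1, g2, g3⟩ := run_ones hB hM (false :: I) V l (by omega) hlK p 0 (by omega) q hq
    hqB j
  have h1 : F (bitv (false :: I)) (stq q1) = ((true, 0), (1, M, 0, l ++ [p])) := by
    have h2 : ¬ l.length = 2 := by omega
    rw [g2]; simp [F, bitv, h2]
  refine ⟨eq' (1, M, 0, l ++ [p]), j1 + 1, ?_, stq_eq _, ?_⟩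
  · have h3 : un p ++ I = List.replicate p true ++ (false :: I) := by simp [un]
    rw [h3]
    refine g1.trans (ORun.one (by simp) ?_ g3 ?_)
    · have hx : OC.x ⟨.ri, q1, false :: I, sv V (List.replicate j1 0)⟩ = 1 := rfl
      rw [hx]; have := hB.two; omega
    · rw [step_I h1]; rfl
  · refine hB.sta _ (by omega) _ hM _ (by omega) _ (by simp; omega) ?_
    intro i hi
    rw [List.mem_append, List.mem_singleton] at hi
    rcases hi with hi | rfl
    · exact hlK i hi
    · exact hp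

theorem run_job {B K M k : ℕ} (hB : Bnd B K) (hK : K = Nat.pair k (Nat.pair k k) + 2)
    (hM : M ≤ K) (I : List Bool) (L : List (List ℕ)) (hL : LOK M L) (f : Fin 3 → ℕ)
    (hf : ∀ i, f i ≤ k) (q : ℕ) (hq : stq q = (1, M, 0, [])) (hqB : q ≤ B) (j : ℕ) :
    ∃ (n q' j' M' : ℕ), n ≤ f 0 + f 1 + f 2 + 3 + (2 * L.length + 3) ∧
      ORun CC B n ⟨.ri, q, un (f 0) ++ (un (f 1) ++ (un (f 2) ++ I)),
          sv (L.map ecl) (List.replicate j 0)⟩
        ⟨.ri, q', I, sv ((addL (jc f + 1) L).map ecl) (List.replicate j' 0)⟩ ∧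
      stq q' = (1, M', 0, []) ∧ q' ≤ B ∧ M ≤ M' ∧ M' ≤ K ∧ LOK M' (addL (jc f + 1) L) := by
  have hkK : k ≤ K := by
    have := Nat.left_le_pair k (Nat.pair k k)
    omega
  have hjc : jc f + 2 ≤ K := by
    have h1 : jc f ≤ Nat.pair k (Nat.pair k k) := by
      unfold jc
      have h2 : Nat.pair (f 1) (f 2) ≤ Nat.pair k k := pair_mono (hf 1) (hf 2)
      exact pair_mono (hf 0) h2
    omega
  have h0 := (hf 0).trans hkK
  have h1 := (hf 1).trans hkK
  have h2 := (hf 2).trans hkK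
  obtain ⟨q1, j1, g1, g2, g3⟩ := run_num hB hM (un (f 1) ++ (un (f 2) ++ I)) (L.map ecl) []
    (by simp) (by simp) (f 0) h0 q hq hqB j
  obtain ⟨q2, j2, k1, k2, k3⟩ := run_num hB hM (un (f 2) ++ I) (L.map ecl) [f 0]
    (by simp) (by simpa using h0) (f 1) h1 q1 g2 g3 j1
  obtain ⟨q3, j3, l1, l2, l3⟩ := run_ones hB hM (false :: I) (L.map ecl) [f 0, f 1] (by simp)
    (by simpa using ⟨h0, h1⟩) (f 2) 0 (by omega) q2 k2 k3 j2
  have e1 : F (bitv (false :: I)) (stq q3) =
      ((true, 0), (3, max M (jc f + 2), jc f + 1, [])) := by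
    rw [l2]; simp [F, bitv, jc]
  have hM' : max M (jc f + 2) ≤ K := max_le hM hjc
  have hq4 : eq' (3, max M (jc f + 2), jc f + 1, []) ≤ B :=
    hB.sta _ (by omega) _ hM' _ (by omega) [] (by simp) (by simp)
  have hL' : LOK (max M (jc f + 2)) L := hL.mono (le_max_left _ _)
  have ha : jc f + 1 < max M (jc f + 2) := lt_max_of_lt_right (by omega)
  obtain ⟨n5, q5, j5, m1, m2, m3, m4⟩ := run_item hB hM' ha (r := 1) (by omega) I (j3 + 1) L hL'
    (eq' (3, max M (jc f + 2), jc f + 1, [])) (stq_eq _) hq4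
  refine ⟨f 0 + 1 + (f 1 + 1) + f 2 + 1 + n5, q5, j5, max M (jc f + 2), by omega, ?_, m3, m4,
    le_max_left _ _, hM', hL'.addL ha⟩
  have e3 : un (f 2) ++ I = List.replicate (f 2) true ++ (false :: I) := by simp [un]
  rw [e3] at k1 g1 ⊢
  refine (((g1.trans k1).trans l1).trans (ORun.one (by simp) ?_ l3 ?_)).trans m2
  · have hx : OC.x ⟨.ri, q3, false :: I, sv (L.map ecl) (List.replicate j3 0)⟩ = 1 := rfl
    rw [hx]; have := hB.two; omega
  · rw [step_I e1]; rfl

/-- The bits of a list of jobs. -/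
def jbits (js : List (Fin 3 → ℕ)) : List Bool :=
  js.flatMap (fun f => un (f 0) ++ (un (f 1) ++ un (f 2)))

theorem run_jobs {B K k : ℕ} (hB : Bnd B K) (hK : K = Nat.pair k (Nat.pair k k) + 2)
    (I : List Bool) (X : ℕ) : ∀ (js : List (Fin 3 → ℕ)) (_ : ∀ f ∈ js, ∀ i, f i ≤ k) (M : ℕ)
      (_ : M ≤ K) (L : List (List ℕ)) (_ : LOK M L) (_ : L.length + js.length ≤ X) (q : ℕ)
      (_ : stq q = (1, M, 0, [])) (_ : q ≤ B) (j : ℕ),
      ∃ (n q' j' M' : ℕ) (L' : List (List ℕ)), n ≤ (jbits js).length + js.length * (2 * X + 3) ∧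
      ORun CC B n ⟨.ri, q, jbits js ++ I, sv (L.map ecl) (List.replicate j 0)⟩
        ⟨.ri, q', I, sv (L'.map ecl) (List.replicate j' 0)⟩ ∧
      stq q' = (1, M', 0, []) ∧ q' ≤ B ∧ M ≤ M' ∧ M' ≤ K ∧ LOK M' L' ∧
      L'.length ≤ L.length + js.length ∧
      lval L' = ((js.map (fun f => jc f + 1) : List ℕ) : Multiset ℕ) + lval L := by
  intro js
  induction js with
  | nil =>
    intro _ M hM L hL _ q hq hqB j
    exact ⟨0, q, j, M, L, by simp, ORun.refl _, hq, hqB, le_rfl, hM, hL, by simp, by simp⟩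
  | cons f js ih =>
    intro hf M hM L hL hX q hq hqB j
    simp only [List.length_cons] at hX
    obtain ⟨n1, q1, j1, M1, g1, g2, g3, g4, g5, g6, g7⟩ := run_job hB hK hM (jbits js ++ I) L hL f
      (hf f (by simp)) q hq hqB j
    have hlen := length_addL (jc f + 1) L
    obtain ⟨n2, q2, j2, M2, L2, k1, k2, k3, k4, k5, k6, k7, k8, k9⟩ := ih
      (fun f' hf' => hf f' (by simp [hf'])) M1 g6 (addL (jc f + 1) L) g7 (by omega) q1 g3 g4 j1
    have hbits : jbits (f :: js) ++ I =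
        un (f 0) ++ (un (f 1) ++ (un (f 2) ++ (jbits js ++ I))) := by
      simp [jbits]
    have hblen : (jbits (f :: js)).length = f 0 + f 1 + f 2 + 3 + (jbits js).length := by
      simp [jbits, un]; ring
    refine ⟨n1 + n2, q2, j2, M2, L2, ?_, ?_, k3, k4, g5.trans k5, k6, k7, ?_, ?_⟩
    · rw [hblen, List.length_cons, Nat.add_mul, one_mul]; omega
    · rw [hbits]; exact g2.trans k2
    · rw [List.length_cons]; omega
    · rw [k9, lval_addL, List.map_cons, ← Multiset.cons_coe, ← Multiset.singleton_add]; abel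

theorem run_rev {B K M : ℕ} (hB : Bnd B K) (hM : M ≤ K) (I : List Bool) :
    ∀ (L : List (List ℕ)) (_ : LOK M L) (q : ℕ) (_ : stq q = (6, M, 0, [])) (_ : q ≤ B)
      (Wt : List ℕ), ∃ q', ORun CC B (L.length + 1) ⟨.rv false, q, I, sv (L.map ecl) Wt⟩
        ⟨.rv true, q', I, sv [0] (L.reverse.map ecl ++ Wt)⟩ ∧ stq q' = (7, M, 0, []) ∧ q' ≤ B := by
  have hq6 : eq' (6, M, 0, []) ≤ B := hB.sta _ (by omega) _ hM _ (by omega) [] (by simp) (by simp)
  have hq7 : eq' (7, M, 0, []) ≤ B := hB.sta _ (by omega) _ hM _ (by omega) [] (by simp) (by simp)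
  intro L
  induction L with
  | nil =>
    intro _ q hq hqB Wt
    have h1 : F ([] : List ℕ).headI (stq q) = ((false, 0), (7, M, 0, [])) := by
      rw [hq]; simp [F]
    refine ⟨eq' (7, M, 0, []), ORun.one (by simp) (Nat.zero_le _) hqB ?_, stq_eq _, hq7⟩
    rw [List.map_nil, step_V h1]; rfl
  | cons P L ih =>
    intro hL q hq hqB Wt
    have hx : OC.x ⟨.rv false, q, I, sv ((P :: L).map ecl) Wt⟩ = ecl P := rfl
    have hxB : ecl P ≤ B := hB.lev P (hL P (by simp)).1
      (fun i hi => ((hL P (by simp)).2 i hi).trans_le hM)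
    have h1 : F ((P :: L).map ecl).headI (stq q) = ((true, ecl P), (6, M, 0, [])) := by
      rw [hq]; simp [F, ecl_ne]
    obtain ⟨q', g1, g2, g3⟩ := ih (fun Q hQ => hL Q (by simp [hQ])) (eq' (6, M, 0, [])) (stq_eq _)
      hq6 (ecl P :: Wt)
    refine ⟨q', ORun.step _ _ _ (by simp) (by rw [hx]; exact hxB) hqB ?_, g2, g3⟩
    rw [step_V h1]
    simpa using! g1

theorem run_fold {B K M : ℕ} (hB : Bnd B K) (hM : M ≤ K) (hM1 : 1 ≤ M) (I : List Bool) (j : ℕ) :
    ∀ (R : List (List ℕ)) (_ : LOK M R) (h : List ℕ) (_ : h ∈ cands M) (pr : List (Multiset ℕ))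
      (_ : Good M pr) (_ : EqvF M (h : Multiset ℕ) (mrun 0 pr)) (q : ℕ)
      (_ : stq q = (7, M, 0, h)) (_ : q ≤ B) (V : List ℕ), ∃ (q' : ℕ) (h' V' W' : List ℕ),
      ORun CC B (R.length + 1) ⟨.rv true, q, I, sv V (R.map ecl ++ List.replicate j 0)⟩
        ⟨.hl (decide (sdec M h')), q', I, sv V' W'⟩ ∧ h' ∈ cands M ∧
      EqvF M (h' : Multiset ℕ) (mrun 0 (pr ++ R.map Multiset.ofList)) := by
  intro R
  induction R with
  | nil =>
    intro _ h hh pr _ he q hq hqB V
    have h1 : F (List.replicate j 0).headI (stq q) =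
        ((decide (sdec M h), 0), (8, M, 0, [])) := by
      rw [hq, headI_replicate]; simp [F]
    have hx : OC.x ⟨.rv true, q, I, sv V (List.map ecl [] ++ List.replicate j 0)⟩ = 0 :=
      headI_replicate j
    refine ⟨eq' (8, M, 0, []), h, cond (decide (sdec M h)) V (0 :: V),
      cond (decide (sdec M h)) (0 :: (List.replicate j 0).tail) (List.replicate j 0).tail,
      ORun.one (by simp) (by rw [hx]; exact Nat.zero_le _) hqB ?_, hh, by simpa using he⟩
    rw [List.map_nil, List.nil_append, step_W h1]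
    rfl
  | cons P R ih =>
    intro hR h hh pr hpr he q hq hqB V
    have hP := hR P (by simp)
    have hxB : ecl P ≤ B := hB.lev P hP.1 (fun i hi => (hP.2 i hi).trans_le hM)
    have hx : OC.x ⟨.rv true, q, I, sv V ((P :: R).map ecl ++ List.replicate j 0)⟩ = ecl P := rfl
    have hPg : GoodD M (P : Multiset ℕ) := ⟨by simpa using hP.1, by simpa using hP.2⟩
    have hPg1 : Good M [(P : Multiset ℕ)] := by
      intro Q hQ
      rw [List.mem_singleton] at hQ
      rw [hQ]; exact hPg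
    set v := h ++ (h ++ P) with hv
    have hvlt : ∀ i ∈ v, i < M := by
      intro i hi
      rw [hv, List.mem_append, List.mem_append] at hi
      rcases hi with hi | hi | hi
      · exact cands_lt hh i hi
      · exact cands_lt hh i hi
      · exact hP.2 i hi
    have hev : EqvF M (v : Multiset ℕ) (mrun 0 (pr ++ [(P : Multiset ℕ)])) := by
      have h2 := Eqv.mrun he hPg1
      rw [← mrun_append] at h2
      have h3 : mrun (h : Multiset ℕ) [(P : Multiset ℕ)] = (v : Multiset ℕ) := by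
        rw [mrun_cons, mrun_nil, hv, ← Multiset.coe_add, ← Multiset.coe_add, add_assoc]
      rw [h3] at h2
      exact h2
    have hgood : Good M (pr ++ [(P : Multiset ℕ)]) := hpr.append hPg1
    obtain ⟨s1, s2⟩ := red_spec hM1 hvlt ⟨_, hgood, hev⟩
    have h1 : F ((P :: R).map ecl ++ List.replicate j 0).headI (stq q) =
        ((false, 0), (7, M, 0, red M v)) := by
      rw [hq]; simp [F, ecl_ne, dcl_ecl, hv]
    obtain ⟨q', h', V', W', g1, g2, g3⟩ := ih (fun Q hQ => hR Q (by simp [hQ])) (red M v) s1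
      (pr ++ [(P : Multiset ℕ)]) hgood (s2.trans hev) (eq' (7, M, 0, red M v)) (stq_eq _)
      (hB.cnd M hM _ s1) (0 :: V)
    refine ⟨q', h', V', W', ORun.step _ _ _ (by simp) (by rw [hx]; exact hxB) hqB ?_, g2, ?_⟩
    · rw [step_W h1]
      exact g1
    · simpa using g3

end Pool.Agent.Helper77
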