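import Pool.Agent.Helper77.Pump

set_option autoImplicit false

/-!
# Binary expansions, short distinguishing words and short representatives
-/

namespace Pool.Agent.Helper77

open Net

/-- Read a list of digits (most significant first), starting with `h`. -/
def mrun (h : Multiset ℕ) (p : List (Multiset ℕ)) : Multiset ℕ :=
  p.foldl (fun h P => h + h + P) h

@[simp] theorem mrun_nil (h : Multiset ℕ) : mrun h [] = h := rfl

@[simp] theorem mrun_cons (h P : Multiset ℕ) (p : List (Multiset ℕ)) :
    mrun h (P :: p) = mrun (h + h + P) p := rfl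

theorem mrun_append (h : Multiset ℕ) (p q : List (Multiset ℕ)) :
    mrun h (p ++ q) = mrun (mrun h p) q := by
  unfold mrun; rw [List.foldl_append]

theorem mrun_eq (h : Multiset ℕ) (p : List (Multiset ℕ)) :
    mrun h p = 2 ^ p.length • h + mrun 0 p := by
  induction p generalizing h with
  | nil => simp
  | cons P p ih =>
    rw [mrun_cons, mrun_cons, ih, ih (0 + 0 + P), List.length_cons, pow_succ, mul_smul]
    rw [← add_assoc]
    congr 1
    rw [← smul_add]
    congr 1
    rw [zero_add, zero_add, two_smul]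

/-- Admissible digits. -/
def GoodD (M : ℕ) (P : Multiset ℕ) : Prop := P.Nodup ∧ ∀ i ∈ P, i < M

def Good (M : ℕ) (p : List (Multiset ℕ)) : Prop := ∀ P ∈ p, GoodD M P

theorem Good.left {M : ℕ} {p q : List (Multiset ℕ)} (h : Good M (p ++ q)) : Good M p :=
  fun P hP => h P (List.mem_append.2 (Or.inl hP))

theorem Good.right {M : ℕ} {p q : List (Multiset ℕ)} (h : Good M (p ++ q)) : Good M q :=
  fun P hP => h P (List.mem_append.2 (Or.inr hP))

theorem Good.append {M : ℕ} {p q : List (Multiset ℕ)} (h : Good M p) (h' : Good M q) :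
    Good M (p ++ q) := fun P hP => (List.mem_append.1 hP).elim (h P) (h' P)

theorem mrun_lt {M : ℕ} {h : Multiset ℕ} (hh : ∀ i ∈ h, i < M) {p : List (Multiset ℕ)}
    (hp : Good M p) : ∀ i ∈ mrun h p, i < M := by
  induction p generalizing h with
  | nil => exact hh
  | cons P p ih =>
    refine ih ?_ (fun Q hQ => hp Q (by simp [hQ]))
    intro i hi
    rw [Multiset.mem_add, Multiset.mem_add] at hi
    rcases hi with (hi | hi) | hi
    · exact hh i hi
    · exact hh i hi
    · exact (hp P (by simp)).2 i hi

theorem count_mrun_zero {M : ℕ} (i : ℕ) (p : List (Multiset ℕ)) (hp : Good M p) :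
    (mrun 0 p).count i < 2 ^ p.length := by
  induction p with
  | nil => simp
  | cons P p ih =>
    have h1 := ih (fun Q hQ => hp Q (by simp [hQ]))
    have h2 : P.count i ≤ 1 := Multiset.nodup_iff_count_le_one.1 (hp P (by simp)).1 i
    rw [mrun_cons, mrun_eq, Multiset.count_add, Multiset.count_nsmul, zero_add, zero_add,
      List.length_cons, pow_succ]
    have h3 : 2 ^ p.length * P.count i ≤ 2 ^ p.length * 1 := Nat.mul_le_mul_left _ h2
    omega

section

variable {α : Type*} (N : Net α) (lab : α → Multiset ℕ)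

/-- The standing assumption on labels. -/
def LabOK (k M : ℕ) : Prop := ∀ l, (∀ i ∈ lab l, i < M) →
  (N.p1 l ≤ k ∧ N.q1 l ≤ k ∧ N.p2 l ≤ k ∧ N.q2 l ≤ k) ∧ (lab l).card ≤ k + 1

/-- Nerode equivalence. -/
def Eqv (M : ℕ) (h1 h2 : Multiset ℕ) : Prop :=
  ∀ p, Good M p → (Feas N lab (mrun h1 p) ↔ Feas N lab (mrun h2 p))

variable {N lab}

theorem Eqv.refl (M : ℕ) (h : Multiset ℕ) : Eqv N lab M h h := fun _ _ => Iff.rfl

theorem Eqv.symm {M : ℕ} {h1 h2 : Multiset ℕ} (h : Eqv N lab M h1 h2) : Eqv N lab M h2 h1 :=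
  fun p hp => (h p hp).symm

theorem Eqv.trans {M : ℕ} {h1 h2 h3 : Multiset ℕ} (h : Eqv N lab M h1 h2)
    (h' : Eqv N lab M h2 h3) : Eqv N lab M h1 h3 := fun p hp => (h p hp).trans (h' p hp)

theorem Eqv.mrun {M : ℕ} {h1 h2 : Multiset ℕ} (h : Eqv N lab M h1 h2) {q : List (Multiset ℕ)}
    (hq : Good M q) : Eqv N lab M (mrun h1 q) (mrun h2 q) := by
  intro p hp
  rw [← mrun_append, ← mrun_append]
  exact h _ (hq.append hp)

theorem eqv_of_dat {k M : ℕ} (hk : 1 ≤ k) (hlab : LabOK N lab k M) {h1 h2 : Multiset ℕ}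
    (hM1 : ∀ i ∈ h1, i < M) (hM2 : ∀ i ∈ h2, i < M) (hd : dat k M h1 = dat k M h2) :
    Eqv N lab M h1 h2 := by
  intro p hp
  rw [mrun_eq h1, mrun_eq h2]
  have h3 : ∀ i ∈ mrun 0 p, i < M := mrun_lt (by simp) hp
  have h4 : ∀ i, (mrun 0 p).count i < 2 ^ p.length := fun i => count_mrun_zero i p hp
  exact ⟨dat_residual hk hlab hM1 hd h3 h4, dat_residual hk hlab hM2 hd.symm h3 h4⟩

/-- Short words suffice to distinguish. -/
theorem eqv_of_short {k M : ℕ} (hk : 1 ≤ k) (hlab : LabOK N lab k M) {h1 h2 : Multiset ℕ}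
    (hM1 : ∀ i ∈ h1, i < M) (hM2 : ∀ i ∈ h2, i < M)
    (h : ∀ p, Good M p → p.length ≤ cN k M * cN k M →
      (Feas N lab (mrun h1 p) ↔ Feas N lab (mrun h2 p))) : Eqv N lab M h1 h2 := by
  classical
  have key : ∀ n, ∀ p, p.length = n → Good M p →
      (Feas N lab (mrun h1 p) ↔ Feas N lab (mrun h2 p)) := by
    intro n
    induction n using Nat.strong_induction_on with
    | _ n ih =>
      intro p hn hp
      by_cases hlen : p.length ≤ cN k M * cN k M
      · exact h p hp hlen
      · push Not at hlen
        set D := ((mbox (c0 k) M).powerset ×ˢ mbox (c1 k M) M).powerset with hD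
        have hcard : (D ×ˢ D).card < (Finset.range (cN k M * cN k M + 1)).card := by
          rw [Finset.card_product, Finset.card_range]
          exact Nat.lt_succ_of_le (Nat.mul_le_mul (card_dat k M) (card_dat k M))
        obtain ⟨i, hi, j, hj, hij, he⟩ := Finset.exists_ne_map_eq_of_card_lt_of_maps_to hcard
          (f := fun i => (dat k M (mrun h1 (p.take i)), dat k M (mrun h2 (p.take i))))
          (fun i _ => Finset.mem_product.2 ⟨dat_mem _ _ _, dat_mem _ _ _⟩)
        wlog hlt : i < j generalizing i j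
        · exact this j hj i hi (Ne.symm hij) he.symm (by omega)
        have hjl : j ≤ p.length := by
          have := Finset.mem_range.1 hj; omega
        simp only [Prod.mk.injEq] at he
        have hgt : ∀ m, Good M (p.take m) := fun m Q hQ => hp Q (List.mem_of_mem_take hQ)
        have hgd : ∀ m, Good M (p.drop m) := fun m Q hQ => hp Q (List.mem_of_mem_drop hQ)
        have hshort : (p.take i ++ p.drop j).length < n := by
          rw [List.length_append, List.length_take, List.length_drop]; omega
        have h5 := ih _ hshort (p.take i ++ p.drop j) rfl ((hgt i).append (hgd j))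
        have h6 : ∀ h0 : Multiset ℕ, mrun h0 p = mrun (mrun h0 (p.take j)) (p.drop j) := by
          intro h0; rw [← mrun_append, List.take_append_drop]
        rw [h6 h1, h6 h2]
        rw [mrun_append, mrun_append] at h5
        have h7 := eqv_of_dat hk hlab (mrun_lt hM1 (hgt i)) (mrun_lt hM1 (hgt j)) he.1 _ (hgd j)
        have h8 := eqv_of_dat hk hlab (mrun_lt hM2 (hgt i)) (mrun_lt hM2 (hgt j)) he.2 _ (hgd j)
        exact h7.symm.trans (h5.trans h8)
  exact fun p hp => key _ p rfl hp

/-- Every word has a short equivalent word. -/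
theorem short_rep {k M : ℕ} (hk : 1 ≤ k) (hlab : LabOK N lab k M) :
    ∀ (n : ℕ) (q : List (Multiset ℕ)), q.length = n → Good M q →
      ∃ q', Good M q' ∧ q'.length ≤ cN k M ∧ Eqv N lab M (mrun 0 q') (mrun 0 q) := by
  classical
  intro n
  induction n using Nat.strong_induction_on with
  | _ n ih =>
    intro q hn hq
    by_cases hlen : q.length ≤ cN k M
    · exact ⟨q, hq, hlen, Eqv.refl _ _⟩
    · push Not at hlen
      obtain ⟨i, hi, j, hj, hij, he⟩ := Finset.exists_ne_map_eq_of_card_lt_of_maps_to
        (s := Finset.range (cN k M + 1))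
        (t := ((mbox (c0 k) M).powerset ×ˢ mbox (c1 k M) M).powerset)
        (f := fun i => dat k M (mrun 0 (q.take i)))
        (by rw [Finset.card_range]; exact Nat.lt_succ_of_le (card_dat k M))
        (fun i _ => dat_mem _ _ _)
      wlog hlt : i < j generalizing i j
      · exact this j hj i hi (Ne.symm hij) he.symm (by omega)
      have hjl : j ≤ q.length := by
        have := Finset.mem_range.1 hj; omega
      have hgt : ∀ m, Good M (q.take m) := fun m Q hQ => hq Q (List.mem_of_mem_take hQ)
      have hgd : ∀ m, Good M (q.drop m) := fun m Q hQ => hq Q (List.mem_of_mem_drop hQ)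
      have hshort : (q.take i ++ q.drop j).length < n := by
        rw [List.length_append, List.length_take, List.length_drop]; omega
      obtain ⟨q', h1, h2, h3⟩ := ih _ hshort (q.take i ++ q.drop j) rfl ((hgt i).append (hgd j))
      refine ⟨q', h1, h2, h3.trans ?_⟩
      have h6 : mrun 0 q = mrun (mrun 0 (q.take j)) (q.drop j) := by
        rw [← mrun_append, List.take_append_drop]
      rw [h6, mrun_append]
      exact (eqv_of_dat hk hlab (mrun_lt (by simp) (hgt i)) (mrun_lt (by simp) (hgt j)) he).mrun
        (hgd j)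

end

end Pool.Agent.Helper77
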