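import Mathlib

set_option autoImplicit false

/-!
# Counting steps; black boxes for computable functions
-/

namespace Pool.Agent.Helper77

open Turing Turing.PartrecToTM2 Turing.ToPartrec

/-- `b` is reached from `a` in exactly `n` steps. -/
def Stp {σ : Type*} (f : σ → Option σ) (n : ℕ) (a b : σ) : Prop :=
  (flip bind f)^[n] (some a) = some b

section

variable {σ τ : Type*} {f : σ → Option σ}

theorem Stp.zero (a : σ) : Stp f 0 a a := rfl

theorem Stp.head {a b c : σ} {n : ℕ} (h : f a = some b) (h' : Stp f n b c) :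
    Stp f (n + 1) a c := by
  unfold Stp at *
  rw [Function.iterate_succ_apply]
  have : flip bind f (some a) = some b := h
  rw [this]; exact h'

theorem Stp.one {a b : σ} (h : f a = some b) : Stp f 1 a b := Stp.head h (Stp.zero b)

theorem Stp.trans {a b c : σ} {m n : ℕ} (h : Stp f m a b) (h' : Stp f n b c) :
    Stp f (m + n) a c := by
  unfold Stp at *
  rw [Nat.add_comm, Function.iterate_add_apply, h, h']

theorem iterate_none (f : σ → Option σ) (n : ℕ) :
    (flip bind f)^[n] none = none := by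
  induction n with
  | zero => rfl
  | succ n ih => rw [Function.iterate_succ_apply]; exact ih

theorem Stp.cons_inv {a c : σ} {n : ℕ} (h : Stp f (n + 1) a c) :
    ∃ b, f a = some b ∧ Stp f n b c := by
  unfold Stp at h
  rw [Function.iterate_succ_apply] at h
  have h1 : flip bind f (some a) = f a := rfl
  rw [h1] at h
  rcases hb : f a with _ | b
  · rw [hb, iterate_none] at h; simp at h
  · exact ⟨b, rfl, by rw [hb] at h; exact h⟩

theorem stp_of_reaches {a b : σ} (h : StateTransition.Reaches f a b) : ∃ n, Stp f n a b := by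
  induction h using Relation.ReflTransGen.head_induction_on with
  | refl => exact ⟨0, rfl⟩
  | head h _ ih =>
    obtain ⟨n, hn⟩ := ih
    exact ⟨n + 1, Stp.head h hn⟩

/-- Simulation in lock step. -/
theorem Stp.map {g : τ → Option τ} (φ : τ → σ) (hφ : ∀ a, (g a).map φ = f (φ a)) :
    ∀ {n : ℕ} {a : τ} {b : σ}, Stp f n (φ a) b → ∃ b', Stp g n a b' ∧ φ b' = b := by
  intro n
  induction n with
  | zero =>
    intro a b h
    refine ⟨a, Stp.zero a, ?_⟩
    unfold Stp at h; simpa using h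
  | succ n ih =>
    intro a b h
    obtain ⟨c, h1, h2⟩ := h.cons_inv
    have h3 := hφ a
    rw [h1] at h3
    rcases hg : g a with _ | a'
    · rw [hg] at h3; simp at h3
    · rw [hg] at h3
      simp only [Option.map_some, Option.some.injEq] at h3
      subst h3
      obtain ⟨b', h4, h5⟩ := ih h2
      exact ⟨b', Stp.head hg h4, h5⟩

end

/-! ### Codes with several outputs -/

theorem exists_code₂ {f : ℕ → ℕ → ℕ} (hf : Computable₂ f) :
    ∃ c : Code, ∀ x q : ℕ, c.eval [x, q] = pure [f x q] := by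
  have h1 : Partrec₂ (fun x q => (Part.some (f x q) : Part ℕ)) := hf
  have h2 := Nat.Partrec'.part_iff₂.2 h1
  obtain ⟨c, hc⟩ := Code.exists_code h2
  refine ⟨c, fun x q => ?_⟩
  have h3 := hc ⟨[x, q], rfl⟩
  have h4 : (pure <$> Part.some (f x q) : Part (List ℕ)) = pure [f x q] := by simp
  exact h3.trans h4

theorem exists_code₅ {f₁ f₂ f₃ f₄ f₅ : ℕ → ℕ → ℕ} (h₁ : Computable₂ f₁) (h₂ : Computable₂ f₂)
    (h₃ : Computable₂ f₃) (h₄ : Computable₂ f₄) (h₅ : Computable₂ f₅) :
    ∃ c : Code, ∀ x q : ℕ,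
      c.eval [x, q] = pure [f₁ x q, f₂ x q, f₃ x q, f₄ x q, f₅ x q] := by
  obtain ⟨c₁, e₁⟩ := exists_code₂ h₁
  obtain ⟨c₂, e₂⟩ := exists_code₂ h₂
  obtain ⟨c₃, e₃⟩ := exists_code₂ h₃
  obtain ⟨c₄, e₄⟩ := exists_code₂ h₄
  obtain ⟨c₅, e₅⟩ := exists_code₂ h₅
  refine ⟨.cons c₁ (.cons c₂ (.cons c₃ (.cons c₄ c₅))), fun x q => ?_⟩
  simp [Code.cons_eval, e₁, e₂, e₃, e₄, e₅]

/-! ### Changing the labels of a machine -/

section

variable {K : Type*} [DecidableEq K] {Γ : K → Type*} {Λ Λ₂ σ : Type*}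

/-- Change the labels of a statement. -/
def mapS (α : Λ → Λ₂) : TM2.Stmt Γ Λ σ → TM2.Stmt Γ Λ₂ σ
  | .push k f q => .push k f (mapS α q)
  | .peek k f q => .peek k f (mapS α q)
  | .pop k f q => .pop k f (mapS α q)
  | .load f q => .load f (mapS α q)
  | .branch f q₁ q₂ => .branch f (mapS α q₁) (mapS α q₂)
  | .goto f => .goto (fun v => α (f v))
  | .halt => .halt

/-- Change the label of a configuration. -/
def mapC (β : Λ₂ → Λ) (c : TM2.Cfg Γ Λ₂ σ) : TM2.Cfg Γ Λ σ := ⟨c.l.map β, c.var, c.stk⟩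

theorem stepAux_mapS {α : Λ → Λ₂} {β : Λ₂ → Λ} {S : Finset Λ} (h : ∀ q ∈ S, β (α q) = q)
    (q : TM2.Stmt Γ Λ σ) (hq : TM2.SupportsStmt S q) (v : σ) (T : ∀ k, List (Γ k)) :
    mapC β (TM2.stepAux (mapS α q) v T) = TM2.stepAux q v T := by
  induction q generalizing v T with
  | push k f q ih => simp only [mapS, TM2.stepAux]; exact ih hq _ _
  | peek k f q ih => simp only [mapS, TM2.stepAux]; exact ih hq _ _
  | pop k f q ih => simp only [mapS, TM2.stepAux]; exact ih hq _ _
  | load f q ih => simp only [mapS, TM2.stepAux]; exact ih hq _ _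
  | branch f q₁ q₂ ih₁ ih₂ =>
    simp only [mapS, TM2.stepAux]
    cases f v
    · exact ih₂ hq.2 _ _
    · exact ih₁ hq.1 _ _
  | goto f =>
    simp only [mapS, TM2.stepAux, mapC, Option.map_some, h _ (hq v)]
  | halt => rfl

end

end Pool.Agent.Helper77
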