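import Pool.Agent.Helper77.TmA

set_option autoImplicit false

/-!
# The black box machine
-/

namespace Pool.Agent.Helper77

open Turing Turing.PartrecToTM2 Turing.ToPartrec

/-- Statements of black box machines. -/
abbrev BStmt (Λ : Type) := TM2.Stmt (fun _ : K' => Γ') Λ (Option Γ')
/-- Configurations of black box machines. -/
abbrev BCfg (Λ : Type) := TM2.Cfg (fun _ : K' => Γ') Λ (Option Γ')

/-- The initial configuration. -/
def bInit {Λ : Type} (st : Λ) (v : List ℕ) : BCfg Λ :=
  ⟨some st, none, K'.elim (trList v) [] [] []⟩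
/-- The final configuration. -/
def bHalt {Λ : Type} (w : List ℕ) : BCfg Λ := ⟨none, none, K'.elim (trList w) [] [] []⟩

theorem exists_machine (c : Code) : ∃ (N : ℕ) (M : Fin N → BStmt (Fin N)) (st : Fin N),
    ∀ v w, c.eval v = pure w → ∃ n, Stp (TM2.step M) n (bInit st v) (bHalt w) := by
  classical
  set S := codeSupp c Cont'.halt with hS
  have hsup := tr_supports c Cont'.halt
  have h0 : trNormal c Cont'.halt ∈ S := hsup.1
  have h1 : ∀ q ∈ S, TM2.SupportsStmt S (tr q) := hsup.2
  let e : ↥S ≃ Fin S.card := S.equivFin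
  let α : Λ' → Fin S.card := fun q => if h : q ∈ S then e ⟨q, h⟩ else e ⟨_, h0⟩
  let β : Fin S.card → Λ' := fun i => (e.symm i).1
  have hβ : ∀ i, β i ∈ S := fun i => (e.symm i).2
  have hαβ : ∀ q ∈ S, β (α q) = q := by
    intro q hq
    simp only [α, β, dif_pos hq, Equiv.symm_apply_apply]
  refine ⟨S.card, fun i => mapS α (tr (β i)), e ⟨_, h0⟩, ?_⟩
  intro v w hvw
  have h2 := tr_eval c v
  rw [hvw] at h2
  have h3 : halt w ∈ StateTransition.eval (TM2.step tr) (init c v) := by
    rw [h2]
    have h20 : (halt <$> pure w : Part Cfg') = Part.some (halt w) := by simp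
    rw [h20]
    exact Part.mem_some _
  have h4 := (StateTransition.mem_eval.1 h3).1
  obtain ⟨n, hn⟩ := stp_of_reaches h4
  have h5 : ∀ a : BCfg (Fin S.card),
      (TM2.step (fun i => mapS α (tr (β i))) a).map (mapC β) = TM2.step tr (mapC β a) := by
    intro a
    rcases a with ⟨_ | l, v, T⟩
    · rfl
    · simp only [TM2.step, Option.map_some, mapC]
      congr 1
      exact stepAux_mapS hαβ _ (h1 _ (hβ l)) v T
  have h6 : mapC β (bInit (e ⟨_, h0⟩) v) = init c v := by
    simp only [mapC, bInit, init, Option.map_some, β, Equiv.symm_apply_apply]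
  have hn' : Stp (TM2.step tr) n (mapC β (bInit (e ⟨_, h0⟩) v)) (halt w) := by
    rw [h6]; exact hn
  obtain ⟨b', h7, h8⟩ := Stp.map (g := TM2.step (fun i => mapS α (tr (β i)))) (mapC β) h5 hn'
  refine ⟨n, ?_⟩
  have h9 : b' = bHalt w := by
    rcases b' with ⟨l, v', T⟩
    simp only [mapC, halt, TM2.Cfg.mk.injEq] at h8
    obtain ⟨h10, h11, h12⟩ := h8
    simp only [Option.map_eq_none_iff] at h10
    subst h10 h11 h12
    rfl
  rw [← h9]; exact h7

end Pool.Agent.Helper77
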