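import Pool.Agent.Helper77.TmB

set_option autoImplicit false

/-!
# The running time of a black box machine is computable
-/

namespace Pool.Agent.Helper77

open Turing Turing.PartrecToTM2 Turing.ToPartrec

/-! ### Encoding symbols -/

def gEquiv : Γ' ≃ Fin 4 where
  toFun := fun a => match a with
    | .consₗ => 0
    | .cons => 1
    | .bit0 => 2
    | .bit1 => 3
  invFun := fun i => match i with
    | 0 => .consₗ
    | 1 => .cons
    | 2 => .bit0
    | 3 => .bit1
  left_inv := by intro a; cases a <;> rfl
  right_inv := by intro i; fin_cases i <;> rfl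

instance : Primcodable Γ' := Primcodable.ofEquiv (Fin 4) gEquiv

/-- Four stacks. -/
abbrev Q4 := List Γ' × List Γ' × List Γ' × List Γ'

def toStk (p : Q4) : K' → List Γ' := K'.elim p.1 p.2.1 p.2.2.1 p.2.2.2

def q4get : K' → Q4 → List Γ'
  | .main, p => p.1
  | .rev, p => p.2.1
  | .aux, p => p.2.2.1
  | .stack, p => p.2.2.2

def q4upd : K' → List Γ' → Q4 → Q4
  | .main, a, p => (a, p.2.1, p.2.2.1, p.2.2.2)
  | .rev, a, p => (p.1, a, p.2.2.1, p.2.2.2)
  | .aux, a, p => (p.1, p.2.1, a, p.2.2.2)
  | .stack, a, p => (p.1, p.2.1, p.2.2.1, a)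

theorem toStk_get (k : K') (p : Q4) : toStk p k = q4get k p := by cases k <;> rfl

theorem toStk_upd (k : K') (a : List Γ') (p : Q4) :
    toStk (q4upd k a p) = Function.update (toStk p) k a := by
  cases k <;> simp [toStk, q4upd]

theorem primrec_get (k : K') : Primrec (q4get k) := by
  cases k
  · exact Primrec.fst
  · exact Primrec.fst.comp Primrec.snd
  · exact Primrec.fst.comp (Primrec.snd.comp Primrec.snd)
  · exact Primrec.snd.comp (Primrec.snd.comp Primrec.snd)

theorem primrec_upd (k : K') : Primrec₂ (q4upd k) := by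
  have g1 : Primrec (fun p : List Γ' × Q4 => p.1) := Primrec.fst
  have g2 : Primrec (fun p : List Γ' × Q4 => p.2.1) := Primrec.fst.comp Primrec.snd
  have g3 : Primrec (fun p : List Γ' × Q4 => p.2.2.1) :=
    Primrec.fst.comp (Primrec.snd.comp Primrec.snd)
  have g4 : Primrec (fun p : List Γ' × Q4 => p.2.2.2.1) :=
    Primrec.fst.comp (Primrec.snd.comp (Primrec.snd.comp Primrec.snd))
  have g5 : Primrec (fun p : List Γ' × Q4 => p.2.2.2.2) :=
    Primrec.snd.comp (Primrec.snd.comp (Primrec.snd.comp Primrec.snd))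
  cases k
  · exact (g1.pair (g3.pair (g4.pair g5))).to₂
  · exact (g2.pair (g1.pair (g4.pair g5))).to₂
  · exact (g2.pair (g3.pair (g1.pair g5))).to₂
  · exact (g2.pair (g3.pair (g4.pair g1))).to₂

/-! ### The step function on encoded configurations -/

section

variable {N : ℕ}

/-- Encoded configurations. -/
abbrev EC (N : ℕ) := Option (Fin N) × Option Γ' × Q4

def toCfg (c : EC N) : BCfg (Fin N) := ⟨c.1, c.2.1, toStk c.2.2⟩

def eAux : BStmt (Fin N) → Option Γ' → Q4 → EC N
  | .push k f q, v, S => eAux q v (q4upd k (f v :: q4get k S) S)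
  | .peek k f q, v, S => eAux q (f v (q4get k S).head?) S
  | .pop k f q, v, S => eAux q (f v (q4get k S).head?) (q4upd k (q4get k S).tail S)
  | .load f q, v, S => eAux q (f v) S
  | .branch f q₁ q₂, v, S => cond (f v) (eAux q₁ v S) (eAux q₂ v S)
  | .goto f, v, S => (some (f v), v, S)
  | .halt, v, S => (none, v, S)

theorem toCfg_eAux (q : BStmt (Fin N)) (v : Option Γ') (S : Q4) :
    toCfg (eAux q v S) = TM2.stepAux q v (toStk S) := by
  induction q generalizing v S with
  | push k f q ih => simp only [eAux, TM2.stepAux]; rw [ih, toStk_upd, toStk_get]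
  | peek k f q ih => simp only [eAux, TM2.stepAux]; rw [ih, toStk_get]
  | pop k f q ih => simp only [eAux, TM2.stepAux]; rw [ih, toStk_upd, toStk_get]
  | load f q ih => simp only [eAux, TM2.stepAux]; rw [ih]
  | branch f q₁ q₂ ih₁ ih₂ =>
    simp only [eAux, TM2.stepAux]
    cases f v
    · exact ih₂ _ _
    · exact ih₁ _ _
  | goto f => rfl
  | halt => rfl

theorem primrec_eAux (q : BStmt (Fin N)) : Primrec₂ (eAux q) := by
  have e1 : Primrec (fun p : Option Γ' × Q4 => p.1) := Primrec.fst
  have e2 : Primrec (fun p : Option Γ' × Q4 => p.2) := Primrec.snd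
  induction q with
  | push k f q ih =>
    have h1 : Primrec (fun p : Option Γ' × Q4 => f p.1) := (Primrec.dom_finite f).comp e1
    have h2 : Primrec (fun p : Option Γ' × Q4 => q4get k p.2) := (primrec_get k).comp e2
    have h3 : Primrec (fun p : Option Γ' × Q4 => q4upd k (f p.1 :: q4get k p.2) p.2) :=
      (primrec_upd k).comp (Primrec.list_cons.comp h1 h2) e2
    exact (ih.comp e1 h3).to₂
  | peek k f q ih =>
    have h2 : Primrec (fun p : Option Γ' × Q4 => (q4get k p.2).head?) :=
      Primrec.list_head?.comp ((primrec_get k).comp e2)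
    have h1 : Primrec (fun p : Option Γ' × Q4 => f p.1 (q4get k p.2).head?) :=
      (Primrec.dom_finite (fun p : Option Γ' × Option Γ' => f p.1 p.2)).comp (e1.pair h2)
    exact (ih.comp h1 e2).to₂
  | pop k f q ih =>
    have h2 : Primrec (fun p : Option Γ' × Q4 => (q4get k p.2).head?) :=
      Primrec.list_head?.comp ((primrec_get k).comp e2)
    have h1 : Primrec (fun p : Option Γ' × Q4 => f p.1 (q4get k p.2).head?) :=
      (Primrec.dom_finite (fun p : Option Γ' × Option Γ' => f p.1 p.2)).comp (e1.pair h2)
    have h3 : Primrec (fun p : Option Γ' × Q4 => q4upd k (q4get k p.2).tail p.2) :=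
      (primrec_upd k).comp (Primrec.list_tail.comp ((primrec_get k).comp e2)) e2
    exact (ih.comp h1 h3).to₂
  | load f q ih =>
    have h1 : Primrec (fun p : Option Γ' × Q4 => f p.1) := (Primrec.dom_finite f).comp e1
    exact (ih.comp h1 e2).to₂
  | branch f q₁ q₂ ih₁ ih₂ =>
    have h1 : Primrec (fun p : Option Γ' × Q4 => f p.1) := (Primrec.dom_finite f).comp e1
    exact (Primrec.cond h1 (ih₁.comp e1 e2) (ih₂.comp e1 e2)).to₂
  | goto f =>
    have h1 : Primrec (fun p : Option Γ' × Q4 => f p.1) := (Primrec.dom_finite f).comp e1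
    exact ((Primrec.option_some.comp h1).pair (e1.pair e2)).to₂
  | halt => exact ((Primrec.const none).pair (e1.pair e2)).to₂

variable (M : Fin N → BStmt (Fin N))

def eStep (c : EC N) : EC N :=
  Option.casesOn c.1 c (fun l => eAux (M l) c.2.1 c.2.2)

theorem primrec_eStep : Primrec (eStep M) := by
  apply Primrec.option_casesOn Primrec.fst Primrec.id
  have h1 : Primrec₂ (fun (l : Fin N) (c : EC N) => eAux (M l) c.2.1 c.2.2) := by
    rw [Primrec.fin_curry₁]
    intro l
    exact (primrec_eAux (M l)).comp (Primrec.fst.comp Primrec.snd) (Primrec.snd.comp Primrec.snd)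
  exact (h1.comp Primrec.snd Primrec.fst).to₂

theorem step_toCfg (c : EC N) (b : BCfg (Fin N)) (h : TM2.step M (toCfg c) = some b) :
    b = toCfg (eStep M c) := by
  rcases c with ⟨_ | l, v, S⟩
  · simp [toCfg] at h
  · simp only [toCfg, TM2.step, Option.some.injEq] at h
    rw [← h]
    exact (toCfg_eAux (M l) v S).symm

theorem stp_toCfg : ∀ (n : ℕ) (c : EC N) (b : BCfg (Fin N)),
    Stp (TM2.step M) n (toCfg c) b → b = toCfg ((eStep M)^[n] c) := by
  intro n
  induction n with
  | zero => intro c b h; unfold Stp at h; simpa using h.symm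
  | succ n ih =>
    intro c b h
    obtain ⟨d, h1, h2⟩ := h.cons_inv
    rw [step_toCfg M c d h1] at h2
    rw [Function.iterate_succ_apply]
    exact ih _ _ h2

end

/-! ### Encoding lists of numbers -/

theorem trNat_bit (b : Bool) (n : ℕ) (h : 0 < Nat.bit b n) :
    trNat (Nat.bit b n) = (cond b Γ'.bit1 Γ'.bit0) :: trNat n := by
  unfold trNat
  rw [← Num.ofNat'_eq, Num.ofNat'_bit, ← Num.ofNat'_eq]
  cases hn : Num.ofNat' n with
  | zero =>
    cases b with
    | true => rfl
    | false =>
      exfalso
      have h1 : n = 0 := by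
        have := congrArg (fun m : Num => (m : ℕ)) hn
        simp only [Num.ofNat'_eq] at this
        simpa using this
      subst h1
      simp at h
  | pos m => cases b <;> rfl

theorem trNat_eq (n : ℕ) : trNat n = if n = 0 then [] else
    (if n % 2 = 1 then Γ'.bit1 else Γ'.bit0) :: trNat (n / 2) := by
  by_cases h : n = 0
  · subst h; simp
  · rw [if_neg h]
    have h1 : Nat.bit (n.bodd) (n / 2) = n := by
      rw [← Nat.div2_val]; exact Nat.bit_bodd_div2 n
    have h2 := trNat_bit n.bodd (n / 2) (by rw [h1]; omega)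
    rw [h1] at h2
    rw [h2]
    congr 1
    have h3 := Nat.mod_two_of_bodd n
    rw [h3]
    cases n.bodd <;> simp

theorem trNat_length_le (n : ℕ) : (trNat n).length ≤ n := by
  induction n using Nat.strong_induction_on with
  | _ n ih =>
    rw [trNat_eq]
    by_cases h : n = 0
    · simp [h]
    · rw [if_neg h, List.length_cons]
      have := ih (n / 2) (by omega)
      omega

theorem primrec_trNat : Primrec trNat := by
  have h : Primrec₂ (fun (_ : Unit) (n : ℕ) => trNat n) := by
    refine Primrec.nat_strong_rec (α := Unit) (σ := List Γ') (fun _ n => trNat n)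
      (g := fun _ l => if l.length = 0 then some [] else
        some ((if l.length % 2 = 1 then Γ'.bit1 else Γ'.bit0) ::
          (l[l.length / 2]?).getD [])) ?_ ?_
    · have hl : Primrec (fun p : Unit × List (List Γ') => p.2.length) :=
        Primrec.list_length.comp Primrec.snd
      have hp : Primrec (fun p : Unit × List (List Γ') => if p.2.length = 0 then some [] else
        some ((if p.2.length % 2 = 1 then Γ'.bit1 else Γ'.bit0) ::
          (p.2[p.2.length / 2]?).getD [])) := ?_
      · exact hp.to₂
      refine Primrec.ite (Primrec.eq.comp hl (Primrec.const 0))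
        (Primrec.const (some ([] : List Γ'))) ?_
      refine Primrec.option_some.comp (Primrec.list_cons.comp ?_ ?_)
      · exact Primrec.ite (Primrec.eq.comp (Primrec.nat_mod.comp hl (Primrec.const 2))
          (Primrec.const 1)) (Primrec.const Γ'.bit1) (Primrec.const Γ'.bit0)
      · exact Primrec.option_getD.comp (Primrec.list_getElem?.comp Primrec.snd
          (Primrec.nat_div.comp hl (Primrec.const 2))) (Primrec.const [])
    · intro _ n
      simp only [List.length_map, List.length_range]
      by_cases h : n = 0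
      · subst h; simp
      · rw [if_neg h]
        conv_rhs => rw [trNat_eq, if_neg h]
        congr 2
        rw [List.getElem?_map, List.getElem?_range (by omega)]
        simp
  have h2 : Primrec (fun n : ℕ => trNat n) := h.comp (Primrec.const ()) Primrec.id
  exact h2

theorem primrec_trList₂ : Primrec₂ (fun x q : ℕ => trList [x, q]) := by
  have h1 : Primrec (fun p : ℕ × ℕ => trNat p.1) := primrec_trNat.comp Primrec.fst
  have h2 : Primrec (fun p : ℕ × ℕ => trNat p.2) := primrec_trNat.comp Primrec.snd
  have h3 : Primrec (fun p : ℕ × ℕ => trNat p.1 ++ Γ'.cons :: (trNat p.2 ++ Γ'.cons :: [])) :=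
    Primrec.list_append.comp h1 (Primrec.list_cons.comp (Primrec.const _)
      (Primrec.list_append.comp h2 (Primrec.const [Γ'.cons])))
  exact h3.to₂

/-! ### The running time -/

theorem exists_time {N : ℕ} (M : Fin N → BStmt (Fin N)) (st : Fin N) (out : ℕ → ℕ → List ℕ)
    (h : ∀ x q, ∃ n, Stp (TM2.step M) n (bInit st [x, q]) (bHalt (out x q))) :
    ∃ t : ℕ → ℕ → ℕ, Computable₂ t ∧
      ∀ x q, Stp (TM2.step M) (t x q) (bInit st [x, q]) (bHalt (out x q)) := by
  classical
  let ini : ℕ × ℕ → EC N := fun p => (some st, none, (trList [p.1, p.2], [], [], []))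
  have hini : ∀ p : ℕ × ℕ, toCfg (ini p) = bInit st [p.1, p.2] := fun p => rfl
  let P : ℕ × ℕ → ℕ → Bool := fun p n => !((eStep M)^[n] (ini p)).1.isSome
  have hP : Primrec₂ P := by
    have h1 : Primrec (fun p : (ℕ × ℕ) × ℕ => (eStep M)^[p.2] (ini p.1)) := by
      refine Primrec.nat_iterate Primrec.snd ?_ ((primrec_eStep M).comp Primrec.snd).to₂
      have h2 : Primrec (fun p : (ℕ × ℕ) × ℕ => trList [p.1.1, p.1.2]) :=
        primrec_trList₂.comp (Primrec.fst.comp Primrec.fst) (Primrec.snd.comp Primrec.fst)
      exact (Primrec.const (some st)).pair ((Primrec.const none).pair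
        (h2.pair ((Primrec.const []).pair ((Primrec.const []).pair (Primrec.const [])))))
    exact (Primrec.not.comp (Primrec.option_isSome.comp (Primrec.fst.comp h1))).to₂
  have hex : ∀ p : ℕ × ℕ, ∃ n, P p n = true := by
    intro p
    obtain ⟨n, hn⟩ := h p.1 p.2
    refine ⟨n, ?_⟩
    have h1 := stp_toCfg M n (ini p) _ (by rw [hini]; exact hn)
    have h2 := congrArg TM2.Cfg.l h1
    simp only [bHalt, toCfg] at h2
    simp only [P, ← h2]; rfl
  let t : ℕ × ℕ → ℕ := fun p => Nat.find (hex p)
  have ht : Computable t := by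
    have h1 : Partrec₂ (fun (p : ℕ × ℕ) (n : ℕ) => (Part.some (P p n) : Part Bool)) :=
      hP.to_comp
    have h2 := Partrec.rfind h1
    refine h2.of_eq (fun p => ?_)
    rw [PFun.coe_val, Part.eq_some_iff]
    refine Nat.mem_rfind.2 ⟨?_, ?_⟩
    · rw [Part.mem_some_iff]; exact (Nat.find_spec (hex p)).symm
    · intro m hm
      rw [Part.mem_some_iff]
      have := Nat.find_min (hex p) hm
      cases hb : P p m
      · rfl
      · exact absurd hb this
  refine ⟨fun x q => t (x, q), ht, ?_⟩
  intro x q
  obtain ⟨n, hn⟩ := h x q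
  have hle : t (x, q) ≤ n := by
    apply Nat.find_min'
    have h1 := stp_toCfg M n (ini (x, q)) _ (by rw [hini]; exact hn)
    have h2 := congrArg TM2.Cfg.l h1
    simp only [bHalt, toCfg] at h2
    simp only [P, ← h2]; rfl
  obtain ⟨k, hk⟩ := Nat.exists_eq_add_of_le hle
  have hsplit : ∀ (m : ℕ) (a c : BCfg (Fin N)), Stp (TM2.step M) (m + k) a c →
      ∃ b, Stp (TM2.step M) m a b ∧ Stp (TM2.step M) k b c := by
    intro m
    induction m with
    | zero => intro a c h; exact ⟨a, Stp.zero a, by simpa using h⟩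
    | succ m ih =>
      intro a c h
      rw [Nat.succ_add] at h
      obtain ⟨d, h1, h2⟩ := h.cons_inv
      obtain ⟨b, h3, h4⟩ := ih d c h2
      exact ⟨b, Stp.head h1 h3, h4⟩
  rw [hk] at hn
  obtain ⟨b, h1, h2⟩ := hsplit _ _ _ hn
  have h3 := stp_toCfg M _ (ini (x, q)) _ (by rw [hini]; exact h1)
  have h4 : P (x, q) (t (x, q)) = true := Nat.find_spec (hex (x, q))
  have h5 : b.l = none := by
    rw [h3]
    simp only [P] at h4
    simpa [toCfg] using h4
  rcases k with _ | k
  · unfold Stp at h2
    simp only [Function.iterate_zero, id_eq, Option.some.injEq] at h2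
    rw [← h2]; exact h1
  · obtain ⟨d, h6, _⟩ := h2.cons_inv
    rcases b with ⟨l, v, T⟩
    simp only at h5
    subst h5
    simp at h6

end Pool.Agent.Helper77
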