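import Pool.Agent.Helper77.TmC

set_option autoImplicit false

/-!
# The wrapper machine
-/

namespace Pool.Agent.Helper77

open Turing Turing.PartrecToTM2 Turing.ToPartrec

/-! ### Macro machines -/

/-- What to read next: a user stack, the input; or halt with an answer. -/
inductive Dir
  | rv (i : Bool)
  | ri
  | hl (b : Bool)
  deriving DecidableEq, Fintype

/-- The control of a macro machine. -/
structure Ctl where
  w : ℕ → ℕ → Bool
  d : ℕ → ℕ → Bool
  e : ℕ → ℕ → Bool
  y : ℕ → ℕ → ℕ
  q : ℕ → ℕ → ℕ

def dirOf (w d e : Bool) : Dir :=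
  match d, e with
  | false, false => .rv false
  | false, true => .rv true
  | true, false => .ri
  | true, true => .hl w

/-- Configurations of a macro machine. -/
structure OC where
  dir : Dir
  q : ℕ
  I : List Bool
  S : Bool → List ℕ

/-- The value of the next input symbol. -/
def bitv : List Bool → ℕ
  | [] => 0
  | false :: _ => 1
  | true :: _ => 2

/-- The symbol read. -/
def OC.x (c : OC) : ℕ :=
  match c.dir with
  | .rv i => (c.S i).headI
  | .ri => bitv c.I
  | .hl _ => 0

def OC.I1 (c : OC) : List Bool :=
  match c.dir with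
  | .ri => c.I.tail
  | _ => c.I

def OC.S1 (c : OC) : Bool → List ℕ :=
  match c.dir with
  | .rv i => Function.update c.S i (c.S i).tail
  | _ => c.S

def ostep (C : Ctl) (c : OC) : OC where
  dir := dirOf (C.w c.x c.q) (C.d c.x c.q) (C.e c.x c.q)
  q := C.q c.x c.q
  I := c.I1
  S := Function.update c.S1 (C.w c.x c.q) (C.y c.x c.q :: c.S1 (C.w c.x c.q))

/-- `n` macro steps with bounded numbers. -/
inductive ORun (C : Ctl) (B : ℕ) : ℕ → OC → OC → Prop
  | refl (c : OC) : ORun C B 0 c c
  | step (n : ℕ) (c c' : OC) (h : ∀ b, c.dir ≠ .hl b) (hx : c.x ≤ B) (hq : c.q ≤ B)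
      (h' : ORun C B n (ostep C c) c') : ORun C B (n + 1) c c'

theorem ORun.trans {C : Ctl} {B m n : ℕ} {a b c : OC} (h : ORun C B m a b) (h' : ORun C B n b c) :
    ORun C B (m + n) a c := by
  induction h with
  | refl c => simpa using h'
  | step n c c' h hx hq _ ih =>
    have := ORun.step _ _ _ h hx hq (ih h')
    rwa [Nat.add_right_comm] at this

/-! ### Stacks and labels of the wrapper -/

inductive WK
  | m (k : K')
  | u (i : Bool)
  | io
  deriving DecidableEq

def wkEquiv : WK ≃ (K' ⊕ Bool) ⊕ Unit where
  toFun := fun a => match a with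
    | .m k => .inl (.inl k)
    | .u i => .inl (.inr i)
    | .io => .inr ()
  invFun := fun a => match a with
    | .inl (.inl k) => .m k
    | .inl (.inr i) => .u i
    | .inr () => .io
  left_inv := by intro a; cases a <;> rfl
  right_inv := by rintro ((k | i) | ⟨⟩) <;> rfl

instance : Fintype K' := ⟨{.main, .rev, .aux, .stack}, by intro a; cases a <;> simp⟩
instance : Fintype WK := Fintype.ofEquiv _ wkEquiv.symm

abbrev WG : WK → Type
  | .m _ => Γ'
  | .u _ => Γ'
  | .io => Bool

inductive WL
  | ini
  | dr (d : Dir)
  | mv (i : Bool)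
  | d1
  | d2 (w : Bool)
  | d3 (w d : Bool)
  | wr (w d e : Bool)
  | mw (w d e : Bool)
  | c1 (b : Bool)
  | c2 (b : Bool)
  deriving DecidableEq, Fintype

def wst (T : K' → List Γ') (U : Bool → List Γ') (io : List Bool) : ∀ k : WK, List (WG k)
  | .m k => T k
  | .u i => U i
  | .io => io

theorem wst_m (T : K' → List Γ') (U : Bool → List Γ') (io : List Bool) (k : K') :
    wst T U io (.m k) = T k := rfl
theorem wst_u (T : K' → List Γ') (U : Bool → List Γ') (io : List Bool) (i : Bool) :
    wst T U io (.u i) = U i := rfl
theorem wst_io (T : K' → List Γ') (U : Bool → List Γ') (io : List Bool) :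
    wst T U io .io = io := rfl

theorem update_wst_m (T : K' → List Γ') (U : Bool → List Γ') (io : List Bool) (k : K')
    (x : List Γ') :
    Function.update (wst T U io) (.m k) x = wst (Function.update T k x) U io := by
  funext j
  rcases j with j | j | _
  · by_cases h : j = k
    · subst h; simp [wst]
    · rw [Function.update_of_ne (by simpa using h)]
      simp [wst, h]
  · rw [Function.update_of_ne (by simp)]; rfl
  · rw [Function.update_of_ne (by simp)]; rfl

theorem update_wst_u (T : K' → List Γ') (U : Bool → List Γ') (io : List Bool) (i : Bool)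
    (x : List Γ') :
    Function.update (wst T U io) (.u i) x = wst T (Function.update U i x) io := by
  funext j
  rcases j with j | j | _
  · rw [Function.update_of_ne (by simp)]; rfl
  · by_cases h : j = i
    · subst h; simp [wst]
    · rw [Function.update_of_ne (by simpa using h)]
      simp [wst, h]
  · rw [Function.update_of_ne (by simp)]; rfl

theorem update_wst_io (T : K' → List Γ') (U : Bool → List Γ') (io : List Bool)
    (x : List Bool) :
    Function.update (wst T U io) .io x = wst T U x := by
  funext j
  rcases j with j | j | _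
  · rw [Function.update_of_ne (by simp)]; rfl
  · rw [Function.update_of_ne (by simp)]; rfl
  · simp [wst]

/-! ### The wrapper machine -/

section

variable {N : ℕ}

abbrev WStmt (N : ℕ) := TM2.Stmt WG (Fin N ⊕ WL) (Option Γ')
abbrev WCfg (N : ℕ) := TM2.Cfg WG (Fin N ⊕ WL) (Option Γ')

def liftS : BStmt (Fin N) → WStmt N
  | .push k f q => .push (.m k) f (liftS q)
  | .peek k f q => .peek (.m k) f (liftS q)
  | .pop k f q => .pop (.m k) f (liftS q)
  | .load f q => .load f (liftS q)
  | .branch f q₁ q₂ => .branch f (liftS q₁) (liftS q₂)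
  | .goto f => .goto (fun v => .inl (f v))
  | .halt => .goto (fun _ => .inr .d1)

def liftC (U : Bool → List Γ') (io : List Bool) (c : BCfg (Fin N)) : WCfg N :=
  ⟨match c.l with
    | some l => some (.inl l)
    | none => some (.inr .d1), c.var, wst c.stk U io⟩

theorem liftC_stepAux (U : Bool → List Γ') (io : List Bool) (q : BStmt (Fin N))
    (v : Option Γ') (T : K' → List Γ') :
    TM2.stepAux (liftS q) v (wst T U io) = liftC U io (TM2.stepAux q v T) := by
  induction q generalizing v T with
  | push k f q ih =>
    simp only [liftS, TM2.stepAux]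
    rw [wst_m, ← ih, ← update_wst_m]
  | peek k f q ih =>
    simp only [liftS, TM2.stepAux]
    rw [wst_m, ← ih]
  | pop k f q ih =>
    simp only [liftS, TM2.stepAux]
    rw [wst_m, ← ih, ← update_wst_m]
  | load f q ih => simp only [liftS, TM2.stepAux]; rw [ih]
  | branch f q₁ q₂ ih₁ ih₂ =>
    simp only [liftS, TM2.stepAux]
    cases f v
    · exact ih₂ _ _
    · exact ih₁ _ _
  | goto f => rfl
  | halt => rfl

/-- Pop a symbol into the local store. -/
def wpop (k : K') (q : WStmt N) : WStmt N := .pop (.m k) (fun _ (v : Option Γ') => v) q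
def wpopu (i : Bool) (q : WStmt N) : WStmt N := .pop (.u i) (fun _ (v : Option Γ') => v) q
def wpush (k : K') (f : Option Γ' → Γ') (q : WStmt N) : WStmt N := .push (.m k) f q
def wpushu (i : Bool) (f : Option Γ' → Γ') (q : WStmt N) : WStmt N := .push (.u i) f q
def wpopio (q : WStmt N) : WStmt N :=
  .pop .io (fun _ (v : Option Bool) => v.map (fun b => cond b Γ'.bit0 Γ'.bit1)) q
def wpushio (b : Bool) (q : WStmt N) : WStmt N := .push .io (fun _ => b) q
def wgo (l : WL) : WStmt N := .goto (fun _ => .inr l)

variable (M : Fin N → BStmt (Fin N)) (st : Fin N)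

def wstart : WStmt N := .load (fun _ => none) (.goto (fun _ => .inl st))

def W : Fin N ⊕ WL → WStmt N
  | .inl i => liftS (M i)
  | .inr .ini => wpush .main (fun _ => .cons) (wgo (.dr .ri))
  | .inr (.dr (.rv i)) => wpush .main (fun _ => .cons) (wgo (.mv i))
  | .inr (.dr .ri) => wpush .main (fun _ => .cons) <| wpopio <|
      .branch (fun s => !s.isSome) (wstart st) <|
      wpush .main (fun _ => .bit1) <|
      .branch (fun s => s = some .bit0) (wpush .main (fun _ => .bit0) (wstart st)) (wstart st)
  | .inr (.dr (.hl b)) => wpopu false <|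
      .branch (fun s => s.isSome) (wgo (.dr (.hl b))) (wgo (.c1 b))
  | .inr (.mv i) => wpopu i <|
      .branch (fun s => s.elim true natEnd) (wstart st)
        (wpush .main (fun s => s.getD default) (wgo (.mv i)))
  | .inr .d1 => wpop .main <| .branch (fun s => s = some .cons) (wgo (.d2 false))
      (wpop .main (wgo (.d2 true)))
  | .inr (.d2 w) => wpop .main <| .branch (fun s => s = some .cons) (wgo (.d3 w false))
      (wpop .main (wgo (.d3 w true)))
  | .inr (.d3 w d) => wpop .main <| .branch (fun s => s = some .cons) (wgo (.wr w d false))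
      (wpop .main (wgo (.wr w d true)))
  | .inr (.wr w d e) => wpushu w (fun _ => .cons) (wgo (.mw w d e))
  | .inr (.mw w d e) => wpop .main <|
      .branch (fun s => s.elim true natEnd) (wgo (.dr (dirOf w d e)))
        (wpushu w (fun s => s.getD default) (wgo (.mw w d e)))
  | .inr (.c1 b) => wpopu true <|
      .branch (fun s => s.isSome) (wgo (.c1 b)) (wgo (.c2 b))
  | .inr (.c2 b) => wpop .main <|
      .branch (fun s => s.isSome) (wgo (.c2 b)) (wpushio b (.load (fun _ => none) .halt))


/-! ### Simulation -/

/-- The contents of a user stack. -/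
def ustk : List ℕ → List Γ'
  | [] => []
  | y :: ys => (trNat y).reverse ++ Γ'.cons :: ustk ys

theorem ustk_update (S : Bool → List ℕ) (i : Bool) (l : List ℕ) :
    Function.update (fun j => ustk (S j)) i (ustk l) = fun j => ustk (Function.update S i l j) := by
  funext j
  by_cases h : j = i
  · subst h; simp
  · simp [h]

/-- The configuration of the wrapper for a macro configuration. -/
def tc (c : OC) (s : Option Γ') : WCfg N :=
  ⟨some (.inr (.dr c.dir)), s, wst (K'.elim (trList [c.q]) [] [] []) (fun j => ustk (c.S j)) c.I⟩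

/-- Reading a number from a user stack. -/
theorem mv_run (i : Bool) (b c d : List Γ') (io : List Bool) (rest : List Γ') :
    ∀ (l : List Γ') (_ : ∀ x ∈ l, natEnd x = false) (a : List Γ') (s : Option Γ')
      (U : Bool → List Γ') (_ : U i = l ++ Γ'.cons :: rest),
      Stp (TM2.step (W M st)) (l.length + 1)
        ⟨some (.inr (.mv i)), s, wst (K'.elim a b c d) U io⟩
        ⟨some (.inl st), none, wst (K'.elim (l.reverse ++ a) b c d)
          (Function.update U i rest) io⟩ := by
  intro l
  induction l with
  | nil =>
    intro _ a s U hU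
    refine Stp.head ?_ (Stp.zero _)
    simp only [TM2.step, W, wpopu, TM2.stepAux, wst_u, hU, update_wst_u, wstart]
    simp
  | cons x l ih =>
    intro hl a s U hU
    have h1 := ih (fun y hy => hl y (by simp [hy])) (x :: a) (some x)
      (Function.update U i (l ++ Γ'.cons :: rest)) (by simp)
    refine Stp.head (b := ⟨some (.inr (.mv i)), some x, wst (K'.elim (x :: a) b c d)
      (Function.update U i (l ++ Γ'.cons :: rest)) io⟩) ?_ ?_
    · have hx : natEnd x = false := hl x (by simp)
      simp only [TM2.step, W, wpopu, TM2.stepAux, wst_u, hU, update_wst_u, wpush, wst_m,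
        update_wst_m, wgo, List.cons_append, List.head?_cons, List.tail_cons, Option.elim,
        hx, cond_false, Option.getD_some, K'.elim_update_main, K'.elim_main]
    · simpa using h1

theorem read_rv (i : Bool) (q : ℕ) (S : Bool → List ℕ) (io : List Bool) (s : Option Γ') :
    ∃ n, n ≤ (S i).headI + 2 ∧ Stp (TM2.step (W M st)) n
      ⟨some (.inr (.dr (.rv i))), s, wst (K'.elim (trList [q]) [] [] []) (fun j => ustk (S j)) io⟩
      ⟨some (.inl st), none, wst (K'.elim (trList [(S i).headI, q]) [] [] [])
        (fun j => ustk (Function.update S i (S i).tail j)) io⟩ := by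
  have h1 : TM2.step (W M st) ⟨some (.inr (.dr (.rv i))), s,
      wst (K'.elim (trList [q]) [] [] []) (fun j => ustk (S j)) io⟩ =
      some ⟨some (.inr (.mv i)), s,
        wst (K'.elim (Γ'.cons :: trList [q]) [] [] []) (fun j => ustk (S j)) io⟩ := by
    simp only [TM2.step, W, wpush, TM2.stepAux, wst_m, update_wst_m, wgo, K'.elim_update_main,
      K'.elim_main]
  rcases hS : S i with _ | ⟨y, ys⟩
  · refine ⟨2, by simp, ?_⟩
    refine Stp.head h1 (Stp.head ?_ (Stp.zero _))
    simp only [TM2.step, W, wpopu, TM2.stepAux, wst_u, hS, update_wst_u, wstart, ustk]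
    have h2 : Function.update (fun j => ustk (S j)) i [] =
        fun j => ustk (Function.update S i [] j) := ustk_update S i []
    simp [h2]
  · refine ⟨(trNat y).reverse.length + 1 + 1, ?_, ?_⟩
    · rw [List.length_reverse]
      have := trNat_length_le y
      simp only [List.headI_cons]; omega
    · refine Stp.head h1 ?_
      have h2 := mv_run M st i [] [] [] io (ustk ys) (trNat y).reverse
        (fun x hx => trNat_natEnd y x (by simpa using hx)) (Γ'.cons :: trList [q]) s
        (fun j => ustk (S j)) (by simp only [hS]; rfl)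
      rw [ustk_update, List.reverse_reverse] at h2
      simpa using h2

theorem read_ri (q : ℕ) (U : Bool → List Γ') (io : List Bool) (s : Option Γ') :
    TM2.step (W M st) ⟨some (.inr (.dr .ri)), s, wst (K'.elim (trList [q]) [] [] []) U io⟩ =
      some ⟨some (.inl st), none, wst (K'.elim (trList [bitv io, q]) [] [] []) U io.tail⟩ := by
  have t0 : trNat 0 = [] := by rw [trNat_eq]; rfl
  have t1 : trNat 1 = [Γ'.bit1] := by rw [trNat_eq, trNat_eq]; rfl
  have t2 : trNat 2 = [Γ'.bit0, Γ'.bit1] := by rw [trNat_eq, trNat_eq, trNat_eq]; rfl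
  rcases io with _ | ⟨_ | _, io⟩
  · simp only [TM2.step, W, wpush, wpopio, TM2.stepAux, wst_m, update_wst_m, wgo,
      K'.elim_update_main, K'.elim_main, wst_io, update_wst_io, wstart]
    simp [bitv]
  · simp only [TM2.step, W, wpush, wpopio, TM2.stepAux, wst_m, update_wst_m, wgo,
      K'.elim_update_main, K'.elim_main, wst_io, update_wst_io, wstart]
    simp [bitv, t1]
  · simp only [TM2.step, W, wpush, wpopio, TM2.stepAux, wst_m, update_wst_m, wgo,
      K'.elim_update_main, K'.elim_main, wst_io, update_wst_io, wstart]
    simp [bitv, t2]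

theorem black_box {v w : List ℕ} {n : ℕ} (h : Stp (TM2.step M) n (bInit st v) (bHalt w))
    (U : Bool → List Γ') (io : List Bool) :
    Stp (TM2.step (W M st)) n
      ⟨some (.inl st), none, wst (K'.elim (trList v) [] [] []) U io⟩
      ⟨some (.inr .d1), none, wst (K'.elim (trList w) [] [] []) U io⟩ := by
  have key : ∀ (n : ℕ) (a b : BCfg (Fin N)), Stp (TM2.step M) n a b →
      Stp (TM2.step (W M st)) n (liftC U io a) (liftC U io b) := by
    intro n
    induction n with
    | zero =>
      intro a b h
      unfold Stp at h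
      simp only [Function.iterate_zero, id_eq, Option.some.injEq] at h
      rw [h]; exact Stp.zero _
    | succ n ih =>
      intro a b h
      obtain ⟨c, h1, h2⟩ := h.cons_inv
      refine Stp.head ?_ (ih _ _ h2)
      rcases a with ⟨_ | l, v, T⟩
      · simp at h1
      · simp only [TM2.step, Option.some.injEq] at h1
        rw [← h1]
        simp only [liftC, TM2.step, W]
        rw [liftC_stepAux]; rfl
  exact key n _ _ h

/-- The number of a flag. -/
def fl (b : Bool) : ℕ := cond b 1 0

theorem trNat_fl (b : Bool) : trNat (fl b) = cond b [Γ'.bit1] [] := by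
  cases b
  · rw [fl, cond_false, trNat_eq]; rfl
  · rw [fl, cond_true, trNat_eq, trNat_eq]; rfl

theorem dec_run (w d e : Bool) (v : List ℕ) (U : Bool → List Γ') (io : List Bool)
    (s : Option Γ') : ∃ s',
    Stp (TM2.step (W M st)) 3
      ⟨some (.inr .d1), s, wst (K'.elim (trList (fl w :: fl d :: fl e :: v)) [] [] []) U io⟩
      ⟨some (.inr (.wr w d e)), s', wst (K'.elim (trList v) [] [] []) U io⟩ := by
  refine ⟨some Γ'.cons, Stp.head (b := ⟨some (.inr (.d2 w)), some Γ'.cons,
    wst (K'.elim (trList (fl d :: fl e :: v)) [] [] []) U io⟩) ?_ (Stp.head (b := ⟨some (.inr (.d3 w d)),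
      some Γ'.cons, wst (K'.elim (trList (fl e :: v)) [] [] []) U io⟩) ?_ (Stp.head ?_ (Stp.zero _)))⟩
  · simp only [TM2.step, W, wpop, TM2.stepAux, wst_m, update_wst_m, wgo,
      K'.elim_update_main, K'.elim_main, trList, trNat_fl]
    cases w <;> simp
  · simp only [TM2.step, W, wpop, TM2.stepAux, wst_m, update_wst_m, wgo,
      K'.elim_update_main, K'.elim_main, trList, trNat_fl]
    cases d <;> simp
  · simp only [TM2.step, W, wpop, TM2.stepAux, wst_m, update_wst_m, wgo,
      K'.elim_update_main, K'.elim_main, trList, trNat_fl]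
    cases e <;> simp

theorem mw_run (w d e : Bool) (rest : List Γ') (io : List Bool) :
    ∀ (l : List Γ') (_ : ∀ x ∈ l, natEnd x = false) (s : Option Γ') (U : Bool → List Γ'),
      Stp (TM2.step (W M st)) (l.length + 1)
        ⟨some (.inr (.mw w d e)), s, wst (K'.elim (l ++ Γ'.cons :: rest) [] [] []) U io⟩
        ⟨some (.inr (.dr (dirOf w d e))), some Γ'.cons, wst (K'.elim rest [] [] [])
          (Function.update U w (l.reverse ++ U w)) io⟩ := by
  intro l
  induction l with
  | nil =>
    intro _ s U
    refine Stp.head ?_ (Stp.zero _)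
    simp only [TM2.step, W, wpop, TM2.stepAux, wst_m, update_wst_m, wgo,
      K'.elim_update_main, K'.elim_main]
    simp
  | cons x l ih =>
    intro hl s U
    have h1 := ih (fun y hy => hl y (by simp [hy])) (some x)
      (Function.update U w (x :: U w))
    refine Stp.head (b := ⟨some (.inr (.mw w d e)), some x,
      wst (K'.elim (l ++ Γ'.cons :: rest) [] [] []) (Function.update U w (x :: U w)) io⟩) ?_ ?_
    · have hx : natEnd x = false := hl x (by simp)
      simp only [TM2.step, W, wpop, TM2.stepAux, wst_u, update_wst_u, wpushu, wst_m,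
        update_wst_m, wgo, List.cons_append, List.head?_cons, List.tail_cons, Option.elim,
        hx, cond_false, Option.getD_some, K'.elim_update_main, K'.elim_main]
    · simpa using h1

theorem write_run (w d e : Bool) (y q : ℕ) (S : Bool → List ℕ) (io : List Bool)
    (s : Option Γ') : ∃ n, n ≤ y + 2 ∧ Stp (TM2.step (W M st)) n
      ⟨some (.inr (.wr w d e)), s, wst (K'.elim (trList [y, q]) [] [] []) (fun j => ustk (S j)) io⟩
      ⟨some (.inr (.dr (dirOf w d e))), some Γ'.cons, wst (K'.elim (trList [q]) [] [] [])
        (fun j => ustk (Function.update S w (y :: S w) j)) io⟩ := by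
  refine ⟨(trNat y).length + 1 + 1, ?_, Stp.head (b := ⟨some (.inr (.mw w d e)), s,
    wst (K'.elim (trList [y, q]) [] [] [])
      (Function.update (fun j => ustk (S j)) w (Γ'.cons :: ustk (S w))) io⟩) ?_ ?_⟩
  · have := trNat_length_le y; omega
  · simp only [TM2.step, W, wpushu, TM2.stepAux, wst_u, update_wst_u, wgo]
  · have h1 := mw_run M st w d e (trList [q]) io (trNat y) (trNat_natEnd y) s
      (Function.update (fun j => ustk (S j)) w (Γ'.cons :: ustk (S w)))
    have h2 : Function.update (Function.update (fun j => ustk (S j)) w (Γ'.cons :: ustk (S w))) w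
        ((trNat y).reverse ++ Function.update (fun j => ustk (S j)) w
          (Γ'.cons :: ustk (S w)) w) = fun j => ustk (Function.update S w (y :: S w) j) := by
      rw [← ustk_update, Function.update_idem, Function.update_self]; rfl
    rw [h2] at h1
    exact h1

end

end Pool.Agent.Helper77
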