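import Pool.Agent.Helper77.TmD

set_option autoImplicit false

/-!
# Compilation of macro machines
-/

namespace Pool.Agent.Helper77

open Turing Turing.PartrecToTM2 Turing.ToPartrec

section

variable {N : ℕ} (M : Fin N → BStmt (Fin N)) (st : Fin N)

theorem macro_step (C : Ctl) (t : ℕ → ℕ → ℕ)
    (hbb : ∀ x q, Stp (TM2.step M) (t x q) (bInit st [x, q])
      (bHalt [fl (C.w x q), fl (C.d x q), fl (C.e x q), C.y x q, C.q x q]))
    (c : OC) (hc : ∀ b, c.dir ≠ .hl b) (s : Option Γ') :
    ∃ n, n ≤ c.x + t c.x c.q + C.y c.x c.q + 7 ∧ ∃ s',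
      Stp (TM2.step (W M st)) n (tc c s) (tc (ostep C c) s') := by
  -- reading
  have hread : ∃ n, n ≤ c.x + 2 ∧ Stp (TM2.step (W M st)) n (tc c s)
      ⟨some (.inl st), none, wst (K'.elim (trList [c.x, c.q]) [] [] [])
        (fun j => ustk (c.S1 j)) c.I1⟩ := by
    rcases c with ⟨dir, q, I, S⟩
    rcases dir with i | _ | b
    · exact read_rv M st i q S I s
    · exact ⟨1, by omega, Stp.one (read_ri M st q _ I s)⟩
    · exact absurd rfl (hc b)
  obtain ⟨n1, h1, r1⟩ := hread
  have r2 := black_box M st (hbb c.x c.q) (fun j => ustk (c.S1 j)) c.I1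
  obtain ⟨s3, r3⟩ := dec_run M st (C.w c.x c.q) (C.d c.x c.q) (C.e c.x c.q)
    [C.y c.x c.q, C.q c.x c.q] (fun j => ustk (c.S1 j)) c.I1 none
  obtain ⟨n4, h4, r4⟩ := write_run M st (C.w c.x c.q) (C.d c.x c.q) (C.e c.x c.q)
    (C.y c.x c.q) (C.q c.x c.q) c.S1 c.I1 s3
  exact ⟨_, by omega, some Γ'.cons, (r1.trans r2).trans (r3.trans r4)⟩

/-- Total size of the user stacks. -/
def OC.size (c : OC) : ℕ := (ustk (c.S false)).length + (ustk (c.S true)).length

theorem size_ostep (C : Ctl) (c : OC) : (ostep C c).size ≤ c.size + C.y c.x c.q + 1 := by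
  have h1 : ∀ (S : Bool → List ℕ) (i : Bool) (y : ℕ),
      (ustk (Function.update S i (y :: S i) false)).length +
        (ustk (Function.update S i (y :: S i) true)).length ≤
        (ustk (S false)).length + (ustk (S true)).length + y + 1 := by
    intro S i y
    have := trNat_length_le y
    cases i
    · simp [ustk]; omega
    · simp [ustk]; omega
  have h2 : (ustk (c.S1 false)).length + (ustk (c.S1 true)).length ≤ c.size := by
    have h3 : ∀ l : List ℕ, (ustk l.tail).length ≤ (ustk l).length := by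
      intro l
      rcases l with _ | ⟨y, l⟩
      · simp
      · simp [ustk]; omega
    rcases c with ⟨dir, q, I, S⟩
    rcases dir with i | _ | b
    · cases i
      · have := h3 (S false)
        simp [OC.S1, OC.size, this]
      · have := h3 (S true)
        simp [OC.S1, OC.size, this]
    · simp [OC.S1, OC.size]
    · simp [OC.S1, OC.size]
  have h3 := h1 c.S1 (C.w c.x c.q) (C.y c.x c.q)
  unfold OC.size ostep at *
  simp only at *
  omega

theorem macro_run (C : Ctl) (t : ℕ → ℕ → ℕ)
    (hbb : ∀ x q, Stp (TM2.step M) (t x q) (bInit st [x, q])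
      (bHalt [fl (C.w x q), fl (C.d x q), fl (C.e x q), C.y x q, C.q x q]))
    (B T : ℕ) (hT : ∀ x ≤ B, ∀ q ≤ B, x + t x q + C.y x q + C.q x q + 7 ≤ T)
    (m : ℕ) (c c' : OC) (h : ORun C B m c c') (hq : c.q ≤ T) (s : Option Γ') :
    ∃ n, n ≤ m * T ∧ (∃ s', Stp (TM2.step (W M st)) n (tc c s) (tc c' s')) ∧
      c'.size ≤ c.size + m * T ∧ c'.q ≤ T := by
  induction h generalizing s with
  | refl c => exact ⟨0, by simp, ⟨s, Stp.zero _⟩, by simp, hq⟩
  | step n c c' hc hx hq' _ ih =>
    have h1 := hT c.x hx c.q hq'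
    obtain ⟨n1, h2, s1, r1⟩ := macro_step M st C t hbb c hc s
    obtain ⟨n2, h3, ⟨s2, r2⟩, h4, h5⟩ := ih (by
      show C.q c.x c.q ≤ T
      omega) s1
    have h6 := size_ostep C c
    refine ⟨n1 + n2, ?_, ⟨s2, r1.trans r2⟩, ?_, h5⟩
    · rw [Nat.add_mul, one_mul]; omega
    · rw [Nat.add_mul, one_mul]; omega

theorem clr_u (i : Bool) (l l' : WL) (hl : W M st (.inr l) = wpopu i
      (.branch (fun s => s.isSome) (wgo l) (wgo l'))) (T : K' → List Γ') (io : List Bool) :
    ∀ (x : List Γ') (s : Option Γ') (U : Bool → List Γ') (_ : U i = x),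
      Stp (TM2.step (W M st)) (x.length + 1) ⟨some (.inr l), s, wst T U io⟩
        ⟨some (.inr l'), none, wst T (Function.update U i []) io⟩ := by
  intro x
  induction x with
  | nil =>
    intro s U hU
    refine Stp.head ?_ (Stp.zero _)
    simp only [TM2.step, hl, wpopu, TM2.stepAux, wst_u, hU, update_wst_u, wgo]
    simp
  | cons a x ih =>
    intro s U hU
    have h1 := ih (some a) (Function.update U i x) (by simp)
    refine Stp.head (b := ⟨some (.inr l), some a, wst T (Function.update U i x) io⟩) ?_ ?_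
    · simp only [TM2.step, hl, wpopu, TM2.stepAux, wst_u, hU, update_wst_u, wgo]
      simp
    · simpa using h1

theorem clr_m (b : Bool) : ∀ (x : List Γ') (s : Option Γ') (U : Bool → List Γ'),
      Stp (TM2.step (W M st)) (x.length + 1)
        ⟨some (.inr (.c2 b)), s, wst (K'.elim x [] [] []) U []⟩
        ⟨none, none, wst (K'.elim [] [] [] []) U [b]⟩ := by
  intro x
  induction x with
  | nil =>
    intro s U
    refine Stp.head ?_ (Stp.zero _)
    simp only [TM2.step, W, wpop, TM2.stepAux, wst_m, update_wst_m, wgo,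
      K'.elim_update_main, K'.elim_main, wpushio, wst_io, update_wst_io]
    simp
  | cons a x ih =>
    intro s U
    refine Stp.head (b := ⟨some (.inr (.c2 b)), some a, wst (K'.elim x [] [] []) U []⟩) ?_
      (ih (some a) U)
    simp only [TM2.step, W, wpop, TM2.stepAux, wst_m, update_wst_m, wgo,
      K'.elim_update_main, K'.elim_main, wpushio, wst_io, update_wst_io]
    simp

theorem clr_all (c : OC) (b : Bool) (hd : c.dir = .hl b) (hI : c.I = []) (s : Option Γ') :
    Stp (TM2.step (W M st)) (c.size + (trList [c.q]).length + 3) (tc c s)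
      ⟨none, none, wst (K'.elim [] [] [] []) (fun _ => []) [b]⟩ := by
  have h1 := clr_u M st false (.dr (.hl b)) (.c1 b) rfl (K'.elim (trList [c.q]) [] [] []) []
    (ustk (c.S false)) s (fun j => ustk (c.S j)) rfl
  have h2 := clr_u M st true (.c1 b) (.c2 b) rfl (K'.elim (trList [c.q]) [] [] []) []
    (ustk (c.S true)) none (Function.update (fun j => ustk (c.S j)) false []) (by simp)
  have h3 := clr_m M st b (trList [c.q]) none
    (Function.update (Function.update (fun j => ustk (c.S j)) false []) true [])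
  have h4 : Function.update (Function.update (fun j => ustk (c.S j)) false []) true [] =
      fun _ => ([] : List Γ') := by
    funext j; cases j <;> simp
  rw [h4] at h3 h2
  have h5 := (h1.trans h2).trans h3
  have h6 : tc c s = (⟨some (.inr (.dr (.hl b))), s, wst (K'.elim (trList [c.q]) [] [] [])
      (fun j => ustk (c.S j)) []⟩ : WCfg N) := by
    unfold tc; rw [hd, hI]
  rw [h6]
  have h7 : (ustk (c.S false)).length + 1 + ((ustk (c.S true)).length + 1) +
      ((trList [c.q]).length + 1) = c.size + (trList [c.q]).length + 3 := by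
    unfold OC.size; ring
  rw [← h7]; exact h5

/-- The bundled machine. -/
def wtm : FinTM2 where
  K := WK
  k₀ := .io
  k₁ := .io
  Γ := WG
  Λ := Fin N ⊕ WL
  main := .inr .ini
  σ := Option Γ'
  initialState := none
  Γk₀Fin := inferInstanceAs (Fintype Bool)
  m := W M st

theorem wtm_init (w : List Bool) : initList (wtm M st) w =
    (⟨some (.inr .ini), none, wst (K'.elim [] [] [] []) (fun _ => []) w⟩ : WCfg N) := by
  unfold initList
  congr 1
  funext k
  rcases k with k | i | _
  · cases k <;> rfl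
  · rfl
  · rfl

theorem wtm_halt (w : List Bool) : haltList (wtm M st) w =
    (⟨none, none, wst (K'.elim [] [] [] []) (fun _ => []) w⟩ : WCfg N) := by
  unfold haltList
  congr 1
  funext k
  rcases k with k | i | _
  · cases k <;> rfl
  · rfl
  · rfl

end

/-- Bounded sums of a computable function are computable. -/
theorem computable_sum {f : ℕ → ℕ → ℕ} (hf : Computable₂ f) :
    Computable₂ (fun (x n : ℕ) => (Finset.range n).sum (f x)) := by
  have h1 : Computable (fun p : ℕ × ℕ => Nat.rec (motive := fun _ => ℕ) 0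
      (fun y IH => IH + f p.1 y) p.2) := by
    have h2 : Computable (fun p : (ℕ × ℕ) × (ℕ × ℕ) => p.2.2 + f p.1.1 p.2.1) :=
      (Primrec.nat_add.to_comp).comp (Computable.snd.comp Computable.snd)
        (hf.comp (Computable.fst.comp Computable.fst) (Computable.fst.comp Computable.snd))
    exact Computable.nat_rec (α := ℕ × ℕ) (σ := ℕ) (f := fun p => p.2) (g := fun _ => 0)
      (h := fun p q => q.2 + f p.1 q.1) Computable.snd (Computable.const 0) h2
  refine h1.of_eq (fun p => ?_)
  have : ∀ n, (Nat.rec (motive := fun _ => ℕ) 0 (fun y IH => IH + f p.1 y) n : ℕ) =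
      (Finset.range n).sum (f p.1) := by
    intro n
    induction n with
    | zero => rfl
    | succ n ih => rw [Finset.sum_range_succ, ← ih]
  exact this p.2

theorem exists_bound {f : ℕ → ℕ → ℕ} (hf : Computable₂ f) :
    ∃ T : ℕ → ℕ, Computable T ∧ ∀ B, ∀ x ≤ B, ∀ q ≤ B, f x q ≤ T B := by
  have h1 := computable_sum hf
  have h2 : Computable₂ (fun (B x : ℕ) => (Finset.range (B + 1)).sum (f x)) := by
    have h3 : Computable (fun p : ℕ × ℕ => p.1 + 1) :=
      (Primrec.succ.comp Primrec.fst).to_comp
    exact (h1.comp Computable.snd h3).to₂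
  have h3 := computable_sum h2
  have h4 : Computable (fun B : ℕ => (Finset.range (B + 1)).sum
      (fun x => (Finset.range (B + 1)).sum (f x))) :=
    h3.comp Computable.id Primrec.succ.to_comp
  refine ⟨_, h4, ?_⟩
  intro B x hx q hq
  calc f x q ≤ (Finset.range (B + 1)).sum (f x) :=
        Finset.single_le_sum (f := f x) (fun _ _ => Nat.zero_le _)
          (Finset.mem_range.2 (Nat.lt_succ_of_le hq))
    _ ≤ _ := Finset.single_le_sum (f := fun x => (Finset.range (B + 1)).sum (f x))
        (fun _ _ => Nat.zero_le _) (Finset.mem_range.2 (Nat.lt_succ_of_le hx))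

/-- The compilation theorem. -/
theorem compile (C : Ctl) (hw : Computable₂ C.w) (hd : Computable₂ C.d) (he : Computable₂ C.e)
    (hy : Computable₂ C.y) (hq : Computable₂ C.q) :
    ∃ T : ℕ → ℕ, Computable T ∧ ∃ (tm : FinTM2) (e₀ : tm.Γ tm.k₀ ≃ Bool)
      (e₁ : tm.Γ tm.k₁ ≃ Bool), ∀ (w : List Bool) (B m : ℕ) (c' : OC) (b : Bool),
        ORun C B m ⟨.ri, 0, w, fun _ => []⟩ c' → c'.dir = .hl b → c'.I = [] →
        Nonempty (TM2OutputsInTime tm (w.map e₀.symm) (some [e₁.symm b])
          (T B * (2 * m + 3))) := by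
  have hfl : Computable fl := (Primrec.dom_finite fl).to_comp
  obtain ⟨c, hc⟩ := exists_code₅ (f₁ := fun x q => fl (C.w x q)) (f₂ := fun x q => fl (C.d x q))
    (f₃ := fun x q => fl (C.e x q)) (hfl.comp hw) (hfl.comp hd) (hfl.comp he) hy hq
  obtain ⟨N, M, st, hM⟩ := exists_machine c
  obtain ⟨t, ht, hbb⟩ := exists_time M st
    (fun x q => [fl (C.w x q), fl (C.d x q), fl (C.e x q), C.y x q, C.q x q])
    (fun x q => hM _ _ (hc x q))
  have hF : Computable₂ (fun x q => x + t x q + C.y x q + C.q x q + 7) := by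
    have a1 : Computable (fun p : ℕ × ℕ => p.1 + t p.1 p.2) :=
      (Primrec.nat_add.to_comp).comp Computable.fst ht
    have a2 : Computable (fun p : ℕ × ℕ => p.1 + t p.1 p.2 + C.y p.1 p.2) :=
      (Primrec.nat_add.to_comp).comp a1 hy
    have a3 : Computable (fun p : ℕ × ℕ => p.1 + t p.1 p.2 + C.y p.1 p.2 + C.q p.1 p.2) :=
      (Primrec.nat_add.to_comp).comp a2 hq
    exact (Primrec.nat_add.to_comp).comp a3 (Computable.const 7)
  obtain ⟨T, hT, hTb⟩ := exists_bound hF
  refine ⟨T, hT, wtm M st, Equiv.refl Bool, Equiv.refl Bool, ?_⟩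
  intro w B m c' b hrun hdir hI
  obtain ⟨n, h1, ⟨s', r1⟩, h2, h3⟩ := macro_run M st C t hbb B (T B) (hTb B) m _ _ hrun
    (Nat.zero_le _) none
  have r2 := clr_all M st c' b hdir hI s'
  have r0 : TM2.step (W M st) ⟨some (.inr .ini), none,
      wst (K'.elim [] [] [] []) (fun _ => []) w⟩ = some (tc ⟨.ri, 0, w, fun _ => []⟩ none) := by
    simp only [TM2.step, W, wpush, TM2.stepAux, wst_m, update_wst_m, wgo, K'.elim_update_main,
      K'.elim_main, tc, trList, trNat_zero, ustk, List.nil_append]
  have r := Stp.head r0 (r1.trans r2)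
  have h7 : 7 ≤ T B := by
    have := hTb B 0 (Nat.zero_le _) 0 (Nat.zero_le _)
    omega
  have hlen : (trList [c'.q]).length ≤ T B + 1 := by
    simp only [trList, List.length_append, List.length_cons, List.length_nil]
    have := trNat_length_le c'.q
    omega
  have hs0 : OC.size ⟨.ri, 0, w, fun _ => []⟩ = 0 := rfl
  rw [hs0] at h2
  have hle : n + (c'.size + (trList [c'.q]).length + 3) + 1 ≤ T B * (2 * m + 3) := by
    have : T B * (2 * m + 3) = m * T B + m * T B + 3 * T B := by ring
    rw [this]
    omega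
  have key : TM2OutputsInTime (wtm M st) w (some [b]) (T B * (2 * m + 3)) := by
    refine { steps := n + (c'.size + (trList [c'.q]).length + 3) + 1, evals_in_steps := ?_,
             steps_le_m := hle }
    have e2 := wtm_init M st w
    have e3 := congrArg some (wtm_halt M st [b])
    exact ((congrArg (fun z => (flip bind (TM2.step (W M st)))^[n + (c'.size +
      (trList [c'.q]).length + 3) + 1] (some z)) e2).trans r).trans e3.symm
  have e1 : List.map (⇑(Equiv.refl Bool).symm) w = w := List.map_id w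
  exact Eq.subst (motive := fun v : List Bool =>
    Nonempty (TM2OutputsInTime (wtm M st) v (some [b]) (T B * (2 * m + 3)))) e1.symm ⟨key⟩

end Pool.Agent.Helper77
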